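import Mathlib

set_option autoImplicit false

/-!
Planks in the plane and the sign argument of Bang for a disc.
-/

namespace Pool.Agent.Lib.MP_4a0204_co

/-- A plank `lo ≤ a x + b y ≤ hi`. -/
structure Strip where
  /-- first coordinate of the normal -/
  a : ℝ
  /-- second coordinate of the normal -/
  b : ℝ
  /-- lower bound -/
  lo : ℝ
  /-- upper bound -/
  hi : ℝ

namespace Strip

/-- The linear form of a plank. -/
def form (S : Strip) (p : ℝ × ℝ) : ℝ := S.a * p.1 + S.b * p.2

/-- The points of a plank. -/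
def set (S : Strip) : Set (ℝ × ℝ) := {p | S.lo ≤ S.form p ∧ S.form p ≤ S.hi}

theorem mem_set (S : Strip) (p : ℝ × ℝ) : p ∈ S.set ↔ S.lo ≤ S.form p ∧ S.form p ≤ S.hi := Iff.rfl

/-- The width of the plank trimmed to the disc of radius `ρ` around the origin (unit normals). -/
noncomputable def tw (S : Strip) (ρ : ℝ) : ℝ := max 0 (min S.hi ρ - max S.lo (-ρ))

theorem tw_nonneg (S : Strip) (ρ : ℝ) : 0 ≤ S.tw ρ := le_max_left _ _

end Strip

/-- the sign of a Boolean -/
def sg (b : Bool) : ℝ := if b then 1 else -1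

theorem sg_sq (b : Bool) : sg b ^ 2 = 1 := by cases b <;> simp [sg]

theorem sg_not (b : Bool) : sg (!b) = - sg b := by cases b <;> simp [sg]

theorem abs_sg (b : Bool) : |sg b| = 1 := by cases b <;> simp [sg]

theorem sum_flip {ι : Type*} [Fintype ι] [DecidableEq ι] (σ : ι → Bool) (i : ι) (g : ι → ℝ) :
    ∑ j, sg (Function.update σ i (!σ i) j) * g j = ∑ j, sg (σ j) * g j - 2 * (sg (σ i) * g i) := by
  have h : ∑ j, (sg (Function.update σ i (!σ i) j) * g j - sg (σ j) * g j)
      = - (2 * (sg (σ i) * g i)) := by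
    rw [Finset.sum_eq_single i]
    · simp [sg_not]; ring
    · intro j _ hj
      simp [Function.update_of_ne hj]
    · simp
  rw [Finset.sum_sub_distrib] at h
  linarith

/-- Bang's sign lemma in the plane. -/
theorem bang_signs {ι : Type*} [Fintype ι] (a b h c : ι → ℝ) (hu : ∀ i, a i ^ 2 + b i ^ 2 = 1)
    (hh : ∀ i, 0 < h i) :
    ∃ σ : ι → Bool, ∀ i, h i ≤ sg (σ i) *
      (a i * (∑ j, sg (σ j) * (h j * a j)) + b i * (∑ j, sg (σ j) * (h j * b j)) - c i) := by
  classical
  obtain ⟨σ, hσ⟩ := Finite.exists_max (fun σ : ι → Bool =>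
    (∑ j, sg (σ j) * (h j * a j)) ^ 2 + (∑ j, sg (σ j) * (h j * b j)) ^ 2
      - 2 * ∑ j, sg (σ j) * (h j * c j))
  refine ⟨σ, fun i => ?_⟩
  have h1 := hσ (Function.update σ i (!σ i))
  simp only [sum_flip] at h1
  set A := ∑ j, sg (σ j) * (h j * a j)
  set B := ∑ j, sg (σ j) * (h j * b j)
  have hs := sg_sq (σ i)
  have h2 : 4 * h i * (h i - sg (σ i) * (a i * A + b i * B - c i)) ≤ 0 := by
    have : 4 * h i * (h i - sg (σ i) * (a i * A + b i * B - c i))
        = (A - 2 * (sg (σ i) * (h i * a i))) ^ 2 + (B - 2 * (sg (σ i) * (h i * b i))) ^ 2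
          - 2 * (- 2 * (sg (σ i) * (h i * c i))) - A ^ 2 - B ^ 2 := by
      have e : 4 * h i ^ 2 = 4 * sg (σ i) ^ 2 * h i ^ 2 * (a i ^ 2 + b i ^ 2) := by
        rw [hs, hu i]; ring
      linear_combination e
    rw [this]
    linarith
  have h3 : h i - sg (σ i) * (a i * A + b i * B - c i) ≤ 0 := by
    by_contra hcon
    push Not at hcon
    have := mul_pos (mul_pos (by norm_num : (0:ℝ) < 4) (hh i)) hcon
    linarith
  linarith

/-- If planks with unit normals cover the disc of radius `ρ`, then in some direction `e` the trimmed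
widths, weighted by the cosines with `e`, have sum at least `2 ρ - γ`. -/
theorem bang_disc {ι : Type*} [Fintype ι] (F : ι → Strip)
    (hF : ∀ i, (F i).a ^ 2 + (F i).b ^ 2 = 1) (ρ : ℝ) (hρ : 0 < ρ)
    (hcov : ∀ p : ℝ × ℝ, p.1 ^ 2 + p.2 ^ 2 ≤ ρ ^ 2 → ∃ i, p ∈ (F i).set) (γ : ℝ) (hγ : 0 < γ) :
    ∃ e : ℝ × ℝ, e.1 ^ 2 + e.2 ^ 2 = 1 ∧
      2 * ρ - γ ≤ ∑ i, (F i).tw ρ * |(F i).form e| := by
  classical
  set n : ℝ := ((Fintype.card ι : ℕ) : ℝ) with hn
  have hn0 : 0 ≤ n := Nat.cast_nonneg _
  set g : ℝ := γ / (2 * n + 1) with hg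
  have hg0 : 0 < g := by positivity
  set h : ι → ℝ := fun i => (F i).tw ρ / 2 + g with hh
  set c : ι → ℝ := fun i => (min (F i).hi ρ + max (F i).lo (-ρ)) / 2 with hc
  have hh0 : ∀ i, 0 < h i := fun i => by
    have := (F i).tw_nonneg ρ
    simp only [hh]; positivity
  obtain ⟨σ, hσ⟩ := bang_signs (fun i => (F i).a) (fun i => (F i).b) h c hF hh0
  set A := ∑ j, sg (σ j) * (h j * (F j).a) with hA
  set B := ∑ j, sg (σ j) * (h j * (F j).b) with hB
  have hbig : ρ ^ 2 < A ^ 2 + B ^ 2 := by
    by_contra hcon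
    push Not at hcon
    obtain ⟨i, hi⟩ := hcov (A, B) hcon
    rw [Strip.mem_set] at hi
    have hf : |(F i).form (A, B)| ≤ ρ := by
      apply abs_le_of_sq_le_sq _ hρ.le
      have := hF i
      simp only [Strip.form]
      nlinarith [sq_nonneg ((F i).a * B - (F i).b * A)]
    have hf' := abs_le.mp hf
    have h1 := hσ i
    have h2 : h i ≤ |(F i).a * A + (F i).b * B - c i| := by
      refine h1.trans ((le_abs_self _).trans ?_)
      rw [abs_mul, abs_sg, one_mul]
    have h3 : min (F i).hi ρ - max (F i).lo (-ρ) ≤ (F i).tw ρ := le_max_right _ _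
    have h4 : (F i).form (A, B) ≤ min (F i).hi ρ := le_min hi.2 hf'.2
    have h5 : max (F i).lo (-ρ) ≤ (F i).form (A, B) := max_le hi.1 hf'.1
    have h6 : |(F i).a * A + (F i).b * B - c i| ≤ (F i).tw ρ / 2 := by
      have e : (F i).a * A + (F i).b * B = (F i).form (A, B) := rfl
      rw [e, abs_le]
      simp only [hc]
      constructor <;> linarith
    simp only [hh] at h2
    linarith
  set L := Real.sqrt (A ^ 2 + B ^ 2) with hL
  have hAB : 0 ≤ A ^ 2 + B ^ 2 := by positivity
  have hLsq : L ^ 2 = A ^ 2 + B ^ 2 := Real.sq_sqrt hAB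
  have hLρ : ρ < L := by
    rw [hL]
    exact Real.lt_sqrt_of_sq_lt hbig
  have hL0 : 0 < L := hρ.trans hLρ
  refine ⟨(A / L, B / L), ?_, ?_⟩
  · simp only
    field_simp
    rw [hLsq]
  · have h1 : L = ∑ j, sg (σ j) * (h j * (F j).form (A / L, B / L)) := by
      have e1 : ∑ j, sg (σ j) * (h j * (F j).form (A / L, B / L)) = (A * A + B * B) / L := by
        have : ∀ j, sg (σ j) * (h j * (F j).form (A / L, B / L))
            = (A / L) * (sg (σ j) * (h j * (F j).a)) + (B / L) * (sg (σ j) * (h j * (F j).b)) := by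
          intro j; simp only [Strip.form]; ring
        rw [Finset.sum_congr rfl (fun j _ => this j), Finset.sum_add_distrib, ← Finset.mul_sum,
          ← Finset.mul_sum, ← hA, ← hB]
        ring
      rw [e1, eq_div_iff hL0.ne']
      nlinarith
    have h2 : L ≤ ∑ j, h j * |(F j).form (A / L, B / L)| := by
      rw [h1]
      apply Finset.sum_le_sum
      intro j _
      refine (le_abs_self _).trans ?_
      rw [abs_mul, abs_sg, one_mul, abs_mul, abs_of_pos (hh0 j)]
      rw [← h1]
    have h3 : ∀ j, |(F j).form (A / L, B / L)| ≤ 1 := by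
      intro j
      apply abs_le_of_sq_le_sq _ (by norm_num)
      have h4 := hF j
      have h5 : (A / L) ^ 2 + (B / L) ^ 2 = 1 := by
        field_simp
        rw [hLsq]
      simp only [Strip.form]
      nlinarith [sq_nonneg ((F j).a * (B / L) - (F j).b * (A / L))]
    have h4 : ∑ j, h j * |(F j).form (A / L, B / L)|
        ≤ (∑ j, (F j).tw ρ * |(F j).form (A / L, B / L)|) / 2 + n * g := by
      have hv : ∀ v : ι → ℝ, ∑ j, h j * v j = (∑ j, (F j).tw ρ * v j) / 2 + ∑ j, g * v j := by
        intro v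
        rw [Finset.sum_div, ← Finset.sum_add_distrib]
        apply Finset.sum_congr rfl
        intro j _
        simp only [hh]; ring
      have := hv fun j => |(F j).form (A / L, B / L)|
      rw [this]
      have h6 : ∑ j, g * |(F j).form (A / L, B / L)| ≤ ∑ j : ι, g := by
        apply Finset.sum_le_sum
        intro j _
        have := h3 j
        nlinarith
      rw [Finset.sum_const, Finset.card_univ, nsmul_eq_mul] at h6
      linarith
    have h5 : 2 * (n * g) ≤ γ := by
      rw [hg]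
      rw [show 2 * (n * (γ / (2 * n + 1))) = (2 * n) * γ / (2 * n + 1) by ring,
        div_le_iff₀ (by positivity)]
      nlinarith
    linarith

end Pool.Agent.Lib.MP_4a0204_co
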