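import Mathlib
import Pool.Agent.Lib.MP_4a0204_co.Bang

set_option autoImplicit false

/-!
Affine changes of variables in the plane and the measure of Archimedes on a disc.
-/

namespace Pool.Agent.Lib.MP_4a0204_co

open MeasureTheory Set ENNReal

/-- Affine maps of the plane. -/
def amap (a b c d e f : ℝ) (p : ℝ × ℝ) : ℝ × ℝ := (a * p.1 + b * p.2 + e, c * p.1 + d * p.2 + f)

theorem continuous_amap (a b c d e f : ℝ) : Continuous (amap a b c d e f) := by
  unfold amap; fun_prop

theorem measurable_amap (a b c d e f : ℝ) : Measurable (amap a b c d e f) :=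
  (continuous_amap a b c d e f).measurable

theorem lintegral_amap (a b c d e f : ℝ) (hdet : a * d - b * c ≠ 0) (g : ℝ × ℝ → ℝ≥0∞)
    (hg : Measurable g) :
    ∫⁻ p, g (amap a b c d e f p) = ENNReal.ofReal (|a * d - b * c|⁻¹) * ∫⁻ p, g p := by
  set L : ℝ × ℝ →ₗ[ℝ] ℝ × ℝ :=
    Matrix.toLin (Module.Basis.finTwoProd ℝ) (Module.Basis.finTwoProd ℝ) !![a, b; c, d] with hL
  have hLdet : LinearMap.det L = a * d - b * c := by
    rw [hL, LinearMap.det_toLin, Matrix.det_fin_two_of]
  have hLap : ∀ p, L p = (a * p.1 + b * p.2, c * p.1 + d * p.2) := fun p => by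
    rw [hL, Matrix.toLin_finTwoProd_apply]
  have h1 := Measure.map_linearMap_addHaar_eq_smul_addHaar (volume : Measure (ℝ × ℝ)) (f := L)
    (by rw [hLdet]; exact hdet)
  have hLc : Measurable L := by
    have : (L : ℝ × ℝ → ℝ × ℝ) = fun p => (a * p.1 + b * p.2, c * p.1 + d * p.2) := funext hLap
    rw [this]; fun_prop
  have h2 : ∫⁻ p, g (amap a b c d e f p) = ∫⁻ p, (fun q => g (q + (e, f))) (L p) := by
    apply lintegral_congr
    intro p
    simp only [hLap, amap, Prod.mk_add_mk]
  have hg2 : Measurable fun q : ℝ × ℝ => g (q + (e, f)) := hg.comp (measurable_add_const _)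
  rw [h2, ← lintegral_map hg2 hLc, h1, lintegral_smul_measure, hLdet, abs_inv]
  rw [lintegral_add_right_eq_self g (e, f), smul_eq_mul]

/-- A one variable integral: the arcsine density has mass one. -/
theorem lintegral_arcsine (K : ℝ) (hK : 0 < K) :
    ∫⁻ v : ℝ, ENNReal.ofReal (1 / (Real.pi * √(K - v ^ 2))) = 1 := by
  set A := √K with hA
  have hA0 : 0 < A := Real.sqrt_pos.mpr hK
  have hAsq : A ^ 2 = K := Real.sq_sqrt hK.le
  have hpi := Real.pi_pos
  have hsupp : ∀ v : ℝ, v ∉ Ioc (-A) A → ENNReal.ofReal (1 / (Real.pi * √(K - v ^ 2))) = 0 := by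
    intro v hv
    have : K - v ^ 2 ≤ 0 := by
      rw [mem_Ioc, not_and_or] at hv
      rcases hv with h | h
      · push Not at h; nlinarith
      · push Not at h; nlinarith
    rw [Real.sqrt_eq_zero_of_nonpos this]
    simp
  have h0 : ∫⁻ v : ℝ, ENNReal.ofReal (1 / (Real.pi * √(K - v ^ 2)))
      = ∫⁻ v in Ioc (-A) A, ENNReal.ofReal (1 / (Real.pi * √(K - v ^ 2))) := by
    rw [← lintegral_indicator measurableSet_Ioc]
    apply lintegral_congr
    intro v
    by_cases hv : v ∈ Ioc (-A) A
    · rw [indicator_of_mem hv]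
    · rw [indicator_of_notMem hv, hsupp v hv]
  have hcont : ContinuousOn (fun v : ℝ => Real.arcsin (v / A) / Real.pi) (Icc (-A) A) := by
    apply Continuous.continuousOn
    exact (Real.continuous_arcsin.comp (continuous_id.div_const A)).div_const _
  have hderiv : ∀ v ∈ Ioo (-A) A, HasDerivAt (fun v : ℝ => Real.arcsin (v / A) / Real.pi)
      (1 / (Real.pi * √(K - v ^ 2))) v := by
    intro v hv
    have hv1 : v / A ≠ -1 := by
      intro h
      rw [div_eq_iff hA0.ne'] at h
      linarith [hv.1]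
    have hv2 : v / A ≠ 1 := by
      intro h
      rw [div_eq_iff hA0.ne'] at h
      linarith [hv.2]
    have h1 := (Real.hasDerivAt_arcsin hv1 hv2).comp v ((hasDerivAt_id v).div_const A)
    have h2 := h1.div_const Real.pi
    refine h2.congr_deriv ?_
    have h3 : K - v ^ 2 = A ^ 2 * (1 - (v / A) ^ 2) := by
      rw [← hAsq]; field_simp
    have h4 : 0 < 1 - (v / A) ^ 2 := by
      have : 0 < K - v ^ 2 := by nlinarith [hv.1, hv.2]
      rw [h3] at this
      exact pos_of_mul_pos_right this (by positivity)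
    rw [h3, Real.sqrt_mul (by positivity), Real.sqrt_sq hA0.le]
    have h5 : 0 < √(1 - (v / A) ^ 2) := Real.sqrt_pos.mpr h4
    field_simp
  have hpos : ∀ v ∈ Ioo (-A) A, 0 ≤ 1 / (Real.pi * √(K - v ^ 2)) := fun v _ => by positivity
  have hint := intervalIntegral.integrableOn_deriv_of_nonneg hcont hderiv hpos
  have hval := intervalIntegral.integral_eq_sub_of_hasDerivAt_of_le (by linarith) hcont hderiv
    ((intervalIntegrable_iff_integrableOn_Ioc_of_le (by linarith)).mpr hint)
  rw [h0, ← ofReal_integral_eq_lintegral_ofReal hint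
    (Filter.Eventually.of_forall fun v => by positivity),
    ← intervalIntegral.integral_of_le (by linarith), hval]
  rw [div_self hA0.ne', neg_div, div_self hA0.ne', Real.arcsin_one, Real.arcsin_neg,
    Real.arcsin_one]
  have : Real.pi / 2 / Real.pi - -(Real.pi / 2) / Real.pi = 1 := by field_simp; norm_num
  rw [this, ENNReal.ofReal_one]

theorem lintegral_arcsine_zero (K : ℝ) (hK : K ≤ 0) :
    ∫⁻ v : ℝ, ENNReal.ofReal (1 / (Real.pi * √(K - v ^ 2))) = 0 := by
  have : ∀ v : ℝ, ENNReal.ofReal (1 / (Real.pi * √(K - v ^ 2))) = 0 := by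
    intro v
    rw [Real.sqrt_eq_zero_of_nonpos (by nlinarith [sq_nonneg v])]
    simp
  rw [lintegral_congr this, lintegral_zero]

/-- The density of the measure of Archimedes on the disc of radius `ρ` around the origin. -/
noncomputable def dens (ρ : ℝ) (p : ℝ × ℝ) : ℝ≥0∞ :=
  ENNReal.ofReal (1 / (Real.pi * √(ρ ^ 2 - p.1 ^ 2 - p.2 ^ 2)))

theorem measurable_dens (ρ : ℝ) : Measurable (dens ρ) := by
  unfold dens
  apply ENNReal.measurable_ofReal.comp
  fun_prop

theorem dens_eq_zero {ρ : ℝ} {p : ℝ × ℝ} (h : ρ ^ 2 ≤ p.1 ^ 2 + p.2 ^ 2) : dens ρ p = 0 := by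
  unfold dens
  rw [Real.sqrt_eq_zero_of_nonpos (by linarith)]
  simp

theorem measurable_form (S : Strip) : Measurable S.form := by
  unfold Strip.form; fun_prop

theorem continuous_form (S : Strip) : Continuous S.form := by
  unfold Strip.form; fun_prop

theorem isClosed_set (S : Strip) : IsClosed S.set := by
  have : S.set = S.form ⁻¹' Icc S.lo S.hi := by
    ext p; simp [Strip.set]
  rw [this]
  exact isClosed_Icc.preimage (continuous_form S)

theorem measurableSet_set (S : Strip) : MeasurableSet S.set := (isClosed_set S).measurableSet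

/-- The measure of Archimedes of a plank is its trimmed width. -/
theorem lintegral_dens_strip (ρ : ℝ) (hρ : 0 < ρ) (S : Strip) (hS : S.a ^ 2 + S.b ^ 2 = 1) :
    ∫⁻ p, S.set.indicator 1 p * dens ρ p = ENNReal.ofReal (S.tw ρ) := by
  have hm : Measurable fun p => S.set.indicator (1 : ℝ × ℝ → ℝ≥0∞) p * dens ρ p :=
    (measurable_one.indicator (measurableSet_set S)).mul (measurable_dens ρ)
  have h1 := lintegral_amap S.a (-S.b) S.b S.a 0 0 (by nlinarith) _ hm
  have hdet : |S.a * S.a - -S.b * S.b|⁻¹ = 1 := by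
    have : S.a * S.a - -S.b * S.b = 1 := by nlinarith
    rw [this]; simp
  rw [hdet, ENNReal.ofReal_one, one_mul] at h1
  rw [← h1]
  have h2 : ∀ p : ℝ × ℝ, S.set.indicator (1 : ℝ × ℝ → ℝ≥0∞) (amap S.a (-S.b) S.b S.a 0 0 p)
      * dens ρ (amap S.a (-S.b) S.b S.a 0 0 p)
      = (Icc S.lo S.hi).indicator (1 : ℝ → ℝ≥0∞) p.1
        * ENNReal.ofReal (1 / (Real.pi * √((ρ ^ 2 - p.1 ^ 2) - p.2 ^ 2))) := by
    intro p
    congr 1
    · have : S.form (amap S.a (-S.b) S.b S.a 0 0 p) = p.1 := by
        simp only [Strip.form, amap]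
        linear_combination p.1 * hS
      by_cases hp : p.1 ∈ Icc S.lo S.hi
      · rw [indicator_of_mem hp, indicator_of_mem]
        · rfl
        · rw [Strip.mem_set, this]; exact hp
      · rw [indicator_of_notMem hp, indicator_of_notMem]
        rw [Strip.mem_set, this]; exact hp
    · unfold dens
      congr 4
      simp only [amap]
      linear_combination (-(p.1 ^ 2 + p.2 ^ 2)) * hS
  rw [lintegral_congr h2]
  rw [Measure.volume_eq_prod, lintegral_prod]
  · have h3 : ∀ x : ℝ, ∫⁻ y : ℝ, (Icc S.lo S.hi).indicator (1 : ℝ → ℝ≥0∞) x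
        * ENNReal.ofReal (1 / (Real.pi * √((ρ ^ 2 - x ^ 2) - y ^ 2)))
        = (Icc S.lo S.hi ∩ Ioo (-ρ) ρ).indicator (1 : ℝ → ℝ≥0∞) x := by
      intro x
      rw [lintegral_const_mul' _ _ (by
        by_cases hx : x ∈ Icc S.lo S.hi
        · simp [hx]
        · simp [hx])]
      by_cases hx : x ∈ Ioo (-ρ) ρ
      · rw [lintegral_arcsine _ (by nlinarith [hx.1, hx.2]), mul_one]
        by_cases hx' : x ∈ Icc S.lo S.hi
        · rw [indicator_of_mem hx', indicator_of_mem (mem_inter hx' hx)]
        · rw [indicator_of_notMem hx', indicator_of_notMem (fun h => hx' h.1)]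
      · rw [lintegral_arcsine_zero, mul_zero, indicator_of_notMem (fun h => hx h.2)]
        rw [mem_Ioo, not_and_or] at hx
        rcases hx with h | h
        · push Not at h; nlinarith
        · push Not at h; nlinarith
    simp only [h3]
    rw [lintegral_indicator_one (measurableSet_Icc.inter measurableSet_Ioo)]
    have h4 : volume (Icc S.lo S.hi ∩ Ioo (-ρ) ρ) = volume (Icc S.lo S.hi ∩ Icc (-ρ) ρ) := by
      apply measure_congr
      exact (Filter.EventuallyEq.refl _ _).inter Ioo_ae_eq_Icc
    rw [h4, Icc_inter_Icc, Real.volume_Icc]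
    unfold Strip.tw
    rw [max_comm 0, ENNReal.ofReal_max, ENNReal.ofReal_zero, max_eq_left (zero_le)]
  · apply Measurable.aemeasurable
    apply Measurable.mul
    · exact (measurable_one.indicator measurableSet_Icc).comp measurable_fst
    · apply ENNReal.measurable_ofReal.comp
      fun_prop

end Pool.Agent.Lib.MP_4a0204_co
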