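import Mathlib
import Pool.Agent.Lib.MP_4a0204_co.Arch

set_option autoImplicit false

/-!
Planks covering a disc with small overlap are nearly parallel.
-/

namespace Pool.Agent.Lib.MP_4a0204_co

open MeasureTheory Set ENNReal

/-- The number of planks containing a point. -/
noncomputable def mult {ι : Type*} [Fintype ι] (F : ι → Strip) (p : ℝ × ℝ) : ℝ≥0∞ :=
  ∑ i, (F i).set.indicator 1 p

/-- The overlap function of a family of planks. -/
noncomputable def ov {ι : Type*} [Fintype ι] (F : ι → Strip) (p : ℝ × ℝ) : ℝ≥0∞ := mult F p - 1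

/-- The points in no plank. -/
def unc {ι : Type*} (F : ι → Strip) : Set (ℝ × ℝ) := {p | ∀ i, p ∉ (F i).set}

section
variable {ι : Type*} [Fintype ι] (F : ι → Strip)

theorem measurable_mult : Measurable (mult F) := by
  unfold mult
  apply Finset.measurable_fun_sum
  intro i _
  exact measurable_one.indicator (measurableSet_set _)

theorem measurable_ov : Measurable (ov F) := (measurable_mult F).sub_const 1

theorem one_le_mult {p : ℝ × ℝ} {i : ι} (h : p ∈ (F i).set) : 1 ≤ mult F p := by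
  unfold mult
  calc (1 : ℝ≥0∞) = (F i).set.indicator 1 p := by rw [indicator_of_mem h]; rfl
    _ ≤ _ := Finset.single_le_sum (f := fun i => (F i).set.indicator (1 : ℝ × ℝ → ℝ≥0∞) p)
        (fun _ _ => zero_le) (Finset.mem_univ i)

theorem mult_eq_zero {p : ℝ × ℝ} (h : p ∈ unc F) : mult F p = 0 := by
  unfold mult
  apply Finset.sum_eq_zero
  intro i _
  rw [indicator_of_notMem (h i)]

theorem mult_eq {p : ℝ × ℝ} {i : ι} (h : p ∈ (F i).set) : mult F p = 1 + ov F p := by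
  unfold ov
  rw [add_tsub_cancel_of_le (one_le_mult F h)]

theorem mult_add (p : ℝ × ℝ) : mult F p + (unc F).indicator 1 p = 1 + ov F p := by
  by_cases h : p ∈ unc F
  · rw [mult_eq_zero F h, indicator_of_mem h]
    unfold ov
    rw [mult_eq_zero F h]
    simp
  · rw [indicator_of_notMem h, add_zero]
    unfold unc at h
    simp only [mem_ofPred_eq, not_forall, not_not] at h
    obtain ⟨i, hi⟩ := h
    exact mult_eq F hi

theorem one_le_ov {p : ℝ × ℝ} {i j : ι} (hij : i ≠ j) (hi : p ∈ (F i).set) (hj : p ∈ (F j).set) :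
    1 ≤ ov F p := by
  classical
  have h : 2 ≤ mult F p := by
    unfold mult
    calc (2 : ℝ≥0∞) = ∑ k ∈ {i, j}, (F k).set.indicator (1 : ℝ × ℝ → ℝ≥0∞) p := by
          rw [Finset.sum_pair hij, indicator_of_mem hi, indicator_of_mem hj]
          simp only [Pi.one_apply]; norm_num
      _ ≤ _ := Finset.sum_le_sum_of_subset (Finset.subset_univ _)
  unfold ov
  calc (1 : ℝ≥0∞) = 2 - 1 := by rw [← one_add_one_eq_two, ENNReal.add_sub_cancel_right one_ne_top]
    _ ≤ _ := tsub_le_tsub_right h 1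

theorem measurableSet_unc : MeasurableSet (unc F) := by
  have : unc F = ⋂ i, (F i).setᶜ := by
    ext p; simp [unc]
  rw [this]
  exact MeasurableSet.iInter fun i => (measurableSet_set _).compl

end

/-- An integral of an inverse square root. -/
theorem lintegral_inv_sqrt (a b : ℝ) (hab : a ≤ b) :
    ∫⁻ x in Ioc a b, ENNReal.ofReal (1 / √(x - a)) = ENNReal.ofReal (2 * √(b - a)) := by
  have hcont : ContinuousOn (fun x : ℝ => 2 * √(x - a)) (Icc a b) := by
    apply Continuous.continuousOn; fun_prop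
  have hderiv : ∀ x ∈ Ioo a b, HasDerivAt (fun x : ℝ => 2 * √(x - a)) (1 / √(x - a)) x := by
    intro x hx
    have h1 : HasDerivAt (fun x : ℝ => x - a) 1 x := (hasDerivAt_id x).sub_const a
    have h2 := (h1.sqrt (by linarith [hx.1] : x - a ≠ 0 |> fun h => h)).const_mul 2
    refine h2.congr_deriv ?_
    ring
  have hpos : ∀ x ∈ Ioo a b, 0 ≤ 1 / √(x - a) := fun x _ => by positivity
  have hint := intervalIntegral.integrableOn_deriv_of_nonneg hcont hderiv hpos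
  have hval := intervalIntegral.integral_eq_sub_of_hasDerivAt_of_le hab hcont hderiv
    ((intervalIntegrable_iff_integrableOn_Ioc_of_le hab).mpr hint)
  rw [← ofReal_integral_eq_lintegral_ofReal hint
    (Filter.Eventually.of_forall fun v => by positivity),
    ← intervalIntegral.integral_of_le hab, hval]
  simp

theorem lintegral_dens_radius (p : ℝ × ℝ) :
    ∫⁻ ρ in Ioo (49 / 50 : ℝ) 1, dens ρ p ≤ 1 := by
  set a := √(p.1 ^ 2 + p.2 ^ 2) with ha
  have ha0 : 0 ≤ a := Real.sqrt_nonneg _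
  have hasq : a ^ 2 = p.1 ^ 2 + p.2 ^ 2 := Real.sq_sqrt (by positivity)
  have hpi := Real.pi_gt_three
  by_cases ha1 : 1 ≤ a
  · have : ∀ ρ ∈ Ioo (49 / 50 : ℝ) 1, dens ρ p = 0 := by
      intro ρ hρ
      apply dens_eq_zero
      nlinarith [hρ.1, hρ.2]
    rw [setLIntegral_congr_fun measurableSet_Ioo this]
    simp
  · push Not at ha1
    have h1 : ∀ ρ ∈ Ioo (49 / 50 : ℝ) 1,
        dens ρ p ≤ (Ioc a 1).indicator (fun ρ => ENNReal.ofReal (1 / √(ρ - a))) ρ
          * ENNReal.ofReal (1 / 2) := by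
      intro ρ hρ
      by_cases hρa : a < ρ
      · rw [indicator_of_mem (show ρ ∈ Ioc a 1 from ⟨hρa, hρ.2.le⟩),
          ← ENNReal.ofReal_mul (by positivity)]
        unfold dens
        apply ENNReal.ofReal_le_ofReal
        rw [div_mul_div_comm, one_mul]
        apply one_div_le_one_div_of_le
        · have : 0 < √(ρ - a) := Real.sqrt_pos.mpr (by linarith)
          positivity
        · have h2 : (√(ρ - a) * (7 / 10)) ≤ √(ρ ^ 2 - p.1 ^ 2 - p.2 ^ 2) := by
            apply Real.le_sqrt_of_sq_le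
            rw [mul_pow, Real.sq_sqrt (by linarith)]
            nlinarith [hρ.1, hρ.2]
          have h3 : 0 ≤ √(ρ - a) := Real.sqrt_nonneg _
          calc √(ρ - a) * 2 ≤ 3 * (√(ρ - a) * (7 / 10)) := by nlinarith
            _ ≤ Real.pi * √(ρ ^ 2 - p.1 ^ 2 - p.2 ^ 2) := by
              apply mul_le_mul hpi.le h2 (by positivity) (by positivity)
      · push Not at hρa
        rw [dens_eq_zero]
        · exact zero_le
        · nlinarith [hρ.1]
    calc ∫⁻ ρ in Ioo (49 / 50 : ℝ) 1, dens ρ p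
        ≤ ∫⁻ ρ in Ioo (49 / 50 : ℝ) 1, (Ioc a 1).indicator
          (fun ρ => ENNReal.ofReal (1 / √(ρ - a))) ρ * ENNReal.ofReal (1 / 2) :=
          setLIntegral_mono' measurableSet_Ioo h1
      _ ≤ ∫⁻ ρ, (Ioc a 1).indicator
          (fun ρ => ENNReal.ofReal (1 / √(ρ - a))) ρ * ENNReal.ofReal (1 / 2) :=
          setLIntegral_le_lintegral _ _
      _ = (∫⁻ ρ in Ioc a 1, ENNReal.ofReal (1 / √(ρ - a))) * ENNReal.ofReal (1 / 2) := by
          rw [lintegral_mul_const' _ _ ENNReal.ofReal_ne_top, lintegral_indicator measurableSet_Ioc]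
      _ = ENNReal.ofReal (√(1 - a)) := by
          rw [lintegral_inv_sqrt a 1 ha1.le, ← ENNReal.ofReal_mul (by positivity)]
          congr 1; ring
      _ ≤ 1 := by
          rw [← ENNReal.ofReal_one]
          apply ENNReal.ofReal_le_ofReal
          rw [Real.sqrt_le_one]
          linarith

theorem lintegral_dens (ρ : ℝ) (hρ : 0 < ρ) : ∫⁻ p, dens ρ p = ENNReal.ofReal (2 * ρ) := by
  have h := lintegral_dens_strip ρ hρ ⟨1, 0, -ρ, ρ⟩ (by norm_num)
  have h1 : Strip.tw ⟨1, 0, -ρ, ρ⟩ ρ = 2 * ρ := by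
    unfold Strip.tw
    simp only [min_self, max_self]
    rw [max_eq_right (by linarith)]; ring
  rw [h1] at h
  rw [← h]
  apply lintegral_congr
  intro p
  by_cases hp : ρ ^ 2 ≤ p.1 ^ 2 + p.2 ^ 2
  · rw [dens_eq_zero hp, mul_zero]
  · push Not at hp
    have h2 := abs_le.mp (abs_le_of_sq_le_sq (a := p.1) (b := ρ) (by nlinarith [sq_nonneg p.2]) hρ.le)
    rw [indicator_of_mem, Pi.one_apply, one_mul]
    rw [Strip.mem_set]
    simp only [Strip.form]
    constructor <;> linarith [h2.1, h2.2]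

section
variable {ι : Type*} [Fintype ι] (F : ι → Strip)

theorem lintegral_mult_dens (hF : ∀ i, (F i).a ^ 2 + (F i).b ^ 2 = 1) (ρ : ℝ) (hρ : 0 < ρ) :
    ∫⁻ p, mult F p * dens ρ p = ENNReal.ofReal (∑ i, (F i).tw ρ) := by
  unfold mult
  simp only [Finset.sum_mul]
  rw [lintegral_finsetSum]
  · rw [ENNReal.ofReal_sum_of_nonneg (fun i _ => (F i).tw_nonneg ρ)]
    apply Finset.sum_congr rfl
    intro i _
    exact lintegral_dens_strip ρ hρ (F i) (hF i)
  · intro i _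
    exact (measurable_one.indicator (measurableSet_set _)).mul (measurable_dens ρ)

theorem sum_tw (hF : ∀ i, (F i).a ^ 2 + (F i).b ^ 2 = 1) (ρ : ℝ) (hρ : 0 < ρ)
    (hcov : ∀ p : ℝ × ℝ, p.1 ^ 2 + p.2 ^ 2 ≤ ρ ^ 2 → ∃ i, p ∈ (F i).set) :
    ENNReal.ofReal (∑ i, (F i).tw ρ) = ENNReal.ofReal (2 * ρ) + ∫⁻ p, ov F p * dens ρ p := by
  rw [← lintegral_mult_dens F hF ρ hρ, ← lintegral_dens ρ hρ,
    ← lintegral_add_left (measurable_dens ρ)]
  apply lintegral_congr
  intro p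
  by_cases hp : ρ ^ 2 ≤ p.1 ^ 2 + p.2 ^ 2
  · rw [dens_eq_zero hp]; simp
  · push Not at hp
    obtain ⟨i, hi⟩ := hcov p hp.le
    rw [mult_eq F hi, add_mul, one_mul]

end

theorem volume_strip_le (ρ : ℝ) (hρ : 0 < ρ) (hρ1 : ρ ≤ 1) (S : Strip)
    (hS : S.a ^ 2 + S.b ^ 2 = 1) :
    volume (S.set ∩ {p : ℝ × ℝ | p.1 ^ 2 + p.2 ^ 2 < ρ ^ 2}) ≤ 4 * ENNReal.ofReal (S.tw ρ) := by
  have hms : MeasurableSet {p : ℝ × ℝ | p.1 ^ 2 + p.2 ^ 2 < ρ ^ 2} :=
    measurableSet_lt (by fun_prop) (by fun_prop)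
  rw [← lintegral_dens_strip ρ hρ S hS, ← lintegral_const_mul' _ _ (by norm_num),
    ← lintegral_indicator_one ((measurableSet_set S).inter hms)]
  apply lintegral_mono
  intro p
  by_cases hp : p ∈ S.set ∩ {p : ℝ × ℝ | p.1 ^ 2 + p.2 ^ 2 < ρ ^ 2}
  · beta_reduce
    rw [indicator_of_mem hp, indicator_of_mem hp.1, Pi.one_apply, one_mul]
    have h1 : p.1 ^ 2 + p.2 ^ 2 < ρ ^ 2 := hp.2
    unfold dens
    have h2 : (4 : ℝ≥0∞) = ENNReal.ofReal 4 := by simp
    rw [h2, ← ENNReal.ofReal_mul (by norm_num), ← ENNReal.ofReal_one]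
    apply ENNReal.ofReal_le_ofReal
    have hpi := Real.pi_le_four
    have hpi0 := Real.pi_pos
    have h3 : √(ρ ^ 2 - p.1 ^ 2 - p.2 ^ 2) ≤ 1 := by
      rw [Real.sqrt_le_one]; nlinarith [sq_nonneg p.1, sq_nonneg p.2]
    have h4 : 0 < √(ρ ^ 2 - p.1 ^ 2 - p.2 ^ 2) := Real.sqrt_pos.mpr (by linarith)
    rw [mul_one_div, le_div_iff₀ (by positivity)]
    nlinarith
  · rw [indicator_of_notMem hp]
    exact zero_le

/-- Rigidity for unit normals. -/
theorem rigid_unit {ι : Type*} [Fintype ι] (F : ι → Strip) (δ ω : ℝ) (hδ : 0 < δ) (hω : 0 < ω)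
    (hF : ∀ i, (F i).a ^ 2 + (F i).b ^ 2 = 1)
    (hcov : ∀ p : ℝ × ℝ, p.1 ^ 2 + p.2 ^ 2 ≤ 1 → ∃ i, p ∈ (F i).set)
    (hov : ∫⁻ p in {p : ℝ × ℝ | p.1 ^ 2 + p.2 ^ 2 < 1}, ov F p
      ≤ ENNReal.ofReal (δ * ω ^ 2 / 500)) :
    ∃ e : ℝ × ℝ, e.1 ^ 2 + e.2 ^ 2 = 1 ∧
      volume {p : ℝ × ℝ | p.1 ^ 2 + p.2 ^ 2 ≤ (49 / 50) ^ 2 ∧ ∀ i, p ∈ (F i).set →
        ω ^ 2 < ((F i).a * e.2 - (F i).b * e.1) ^ 2} ≤ ENNReal.ofReal δ := by
  classical
  set η := δ * ω ^ 2 / 500 with hη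
  have hη0 : 0 < η := by positivity
  set D : Set (ℝ × ℝ) := {p : ℝ × ℝ | p.1 ^ 2 + p.2 ^ 2 < 1} with hD
  have hDm : MeasurableSet D := measurableSet_lt (by fun_prop) (by fun_prop)
  -- choice of the radius
  have hswap : ∫⁻ ρ in Ioo (49 / 50 : ℝ) 1, ∫⁻ p, ov F p * dens ρ p ≤ ENNReal.ofReal η := by
    rw [lintegral_lintegral_swap]
    · calc ∫⁻ p, ∫⁻ ρ in Ioo (49 / 50 : ℝ) 1, ov F p * dens ρ p
          ≤ ∫⁻ p, D.indicator (ov F) p := by
            apply lintegral_mono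
            intro p
            by_cases hp : p ∈ D
            · simp only [indicator_of_mem hp]
              rw [lintegral_const_mul]
              · calc ov F p * ∫⁻ ρ in Ioo (49 / 50 : ℝ) 1, dens ρ p ≤ ov F p * 1 :=
                    mul_le_mul_right (lintegral_dens_radius p) _
                  _ = _ := mul_one _
              · unfold dens
                apply ENNReal.measurable_ofReal.comp
                fun_prop
            · simp only [indicator_of_notMem hp]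
              have h1 : ∀ ρ ∈ Ioo (49 / 50 : ℝ) 1, ov F p * dens ρ p = 0 := by
                intro ρ hρ
                rw [dens_eq_zero, mul_zero]
                have : 1 ≤ p.1 ^ 2 + p.2 ^ 2 := by
                  have h3 : ¬ (p.1 ^ 2 + p.2 ^ 2 < 1) := hp
                  linarith
                nlinarith [hρ.1, hρ.2]
              rw [setLIntegral_congr_fun measurableSet_Ioo h1]
              simp
        _ = ∫⁻ p in D, ov F p := lintegral_indicator hDm _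
        _ ≤ _ := hov
    · apply Measurable.aemeasurable
      apply Measurable.mul
      · exact (measurable_ov F).comp measurable_snd
      · unfold dens
        apply ENNReal.measurable_ofReal.comp
        fun_prop
  obtain ⟨ρ, hρ, hρov⟩ : ∃ ρ ∈ Ioo (49 / 50 : ℝ) 1,
      ∫⁻ p, ov F p * dens ρ p ≤ ENNReal.ofReal (51 * η) := by
    by_contra hcon
    push Not at hcon
    have h1 : ∫⁻ ρ in Ioo (49 / 50 : ℝ) 1, ENNReal.ofReal (51 * η)
        ≤ ∫⁻ ρ in Ioo (49 / 50 : ℝ) 1, ∫⁻ p, ov F p * dens ρ p :=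
      setLIntegral_mono' measurableSet_Ioo fun ρ hρ => (hcon ρ hρ).le
    rw [setLIntegral_const, Real.volume_Ioo, ← ENNReal.ofReal_mul (by positivity)] at h1
    have h2 := (ENNReal.ofReal_le_ofReal_iff hη0.le).mp (h1.trans hswap)
    linarith
  have hρ0 : 0 < ρ := by linarith [hρ.1]
  have hcovρ : ∀ p : ℝ × ℝ, p.1 ^ 2 + p.2 ^ 2 ≤ ρ ^ 2 → ∃ i, p ∈ (F i).set := fun p hp =>
    hcov p (by nlinarith [hρ.1, hρ.2])
  have hsum : ∑ i, (F i).tw ρ ≤ 2 * ρ + 51 * η := by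
    have h1 := sum_tw F hF ρ hρ0 hcovρ
    have h2 : ENNReal.ofReal (∑ i, (F i).tw ρ) ≤ ENNReal.ofReal (2 * ρ + 51 * η) := by
      rw [h1, ENNReal.ofReal_add (by positivity) (by positivity)]
      exact add_le_add le_rfl hρov
    exact (ENNReal.ofReal_le_ofReal_iff (by positivity)).mp h2
  obtain ⟨e, he, hbang⟩ := bang_disc F hF ρ hρ0 hcovρ η hη0
  refine ⟨e, he, ?_⟩
  -- total width of the bad planks
  set bad : Finset ι := Finset.univ.filter fun i => ω ^ 2 < ((F i).a * e.2 - (F i).b * e.1) ^ 2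
    with hbad
  have hbadsum : ∑ i ∈ bad, (F i).tw ρ ≤ 104 * η / ω ^ 2 := by
    have hid : ∀ i, ((F i).form e) ^ 2 + ((F i).a * e.2 - (F i).b * e.1) ^ 2 = 1 := by
      intro i
      simp only [Strip.form]
      calc _ = ((F i).a ^ 2 + (F i).b ^ 2) * (e.1 ^ 2 + e.2 ^ 2) := by ring
        _ = 1 := by rw [hF i, he, one_mul]
    have h1 : ∑ i, (F i).tw ρ * (1 - |(F i).form e|) ≤ 52 * η := by
      have : ∑ i, (F i).tw ρ * (1 - |(F i).form e|)
          = ∑ i, (F i).tw ρ - ∑ i, (F i).tw ρ * |(F i).form e| := by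
        rw [← Finset.sum_sub_distrib]
        apply Finset.sum_congr rfl
        intro i _; ring
      rw [this]; linarith
    have hle1 : ∀ i, |(F i).form e| ≤ 1 := fun i =>
      abs_le_of_sq_le_sq (by nlinarith [hid i, sq_nonneg ((F i).a * e.2 - (F i).b * e.1)])
        (by norm_num)
    have h2 : ∑ i ∈ bad, (F i).tw ρ * (1 - |(F i).form e|) ≤ 52 * η := by
      refine le_trans ?_ h1
      apply Finset.sum_le_sum_of_subset_of_nonneg (Finset.subset_univ _)
      intro i _ _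
      exact mul_nonneg ((F i).tw_nonneg ρ) (by linarith [hle1 i])
    have h3 : ∑ i ∈ bad, (F i).tw ρ * (ω ^ 2 / 2) ≤ ∑ i ∈ bad, (F i).tw ρ * (1 - |(F i).form e|) := by
      apply Finset.sum_le_sum
      intro i hi
      apply mul_le_mul_of_nonneg_left _ ((F i).tw_nonneg ρ)
      have h4 : ω ^ 2 < ((F i).a * e.2 - (F i).b * e.1) ^ 2 := by
        rw [hbad, Finset.mem_filter] at hi; exact hi.2
      have h5 := hid i
      have h6 := hle1 i
      have h7 : |(F i).form e| ^ 2 = (F i).form e ^ 2 := sq_abs _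
      nlinarith [abs_nonneg ((F i).form e)]
    rw [← Finset.sum_mul] at h3
    rw [le_div_iff₀ (by positivity)]
    linarith
  have hsub : {p : ℝ × ℝ | p.1 ^ 2 + p.2 ^ 2 ≤ (49 / 50) ^ 2 ∧ ∀ i, p ∈ (F i).set →
        ω ^ 2 < ((F i).a * e.2 - (F i).b * e.1) ^ 2}
      ⊆ ⋃ i ∈ bad, ((F i).set ∩ {p : ℝ × ℝ | p.1 ^ 2 + p.2 ^ 2 < ρ ^ 2}) := by
    intro p hp
    obtain ⟨hp1, hp2⟩ := hp
    obtain ⟨i, hi⟩ := hcov p (by nlinarith)
    rw [mem_iUnion₂]
    refine ⟨i, ?_, hi, ?_⟩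
    · rw [hbad, Finset.mem_filter]
      exact ⟨Finset.mem_univ _, hp2 i hi⟩
    · change p.1 ^ 2 + p.2 ^ 2 < ρ ^ 2
      nlinarith [hρ.1]
  calc volume {p : ℝ × ℝ | p.1 ^ 2 + p.2 ^ 2 ≤ (49 / 50) ^ 2 ∧ ∀ i, p ∈ (F i).set →
        ω ^ 2 < ((F i).a * e.2 - (F i).b * e.1) ^ 2}
      ≤ volume (⋃ i ∈ bad, ((F i).set ∩ {p : ℝ × ℝ | p.1 ^ 2 + p.2 ^ 2 < ρ ^ 2})) :=
        measure_mono hsub
    _ ≤ ∑ i ∈ bad, volume ((F i).set ∩ {p : ℝ × ℝ | p.1 ^ 2 + p.2 ^ 2 < ρ ^ 2}) :=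
        measure_biUnion_finset_le _ _
    _ ≤ ∑ i ∈ bad, 4 * ENNReal.ofReal ((F i).tw ρ) :=
        Finset.sum_le_sum fun i _ => volume_strip_le ρ hρ0 hρ.2.le (F i) (hF i)
    _ = ENNReal.ofReal (4 * ∑ i ∈ bad, (F i).tw ρ) := by
        rw [← Finset.mul_sum, ENNReal.ofReal_mul (by norm_num),
          ENNReal.ofReal_sum_of_nonneg (fun i _ => (F i).tw_nonneg ρ)]
        simp
    _ ≤ ENNReal.ofReal δ := by
        apply ENNReal.ofReal_le_ofReal
        calc 4 * ∑ i ∈ bad, (F i).tw ρ ≤ 4 * (104 * η / ω ^ 2) := by linarith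
          _ = (416 / 500) * δ := by rw [hη]; field_simp; ring
          _ ≤ δ := by linarith

/-- Normalisation of the normal of a plank. -/
noncomputable def Strip.unit (S : Strip) : Strip :=
  ⟨S.a / √(S.a ^ 2 + S.b ^ 2), S.b / √(S.a ^ 2 + S.b ^ 2), S.lo / √(S.a ^ 2 + S.b ^ 2),
    S.hi / √(S.a ^ 2 + S.b ^ 2)⟩

theorem Strip.unit_set (S : Strip) (hS : 0 < S.a ^ 2 + S.b ^ 2) : S.unit.set = S.set := by
  have hN : 0 < √(S.a ^ 2 + S.b ^ 2) := Real.sqrt_pos.mpr hS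
  ext p
  have h : S.unit.form p = S.form p / √(S.a ^ 2 + S.b ^ 2) := by
    simp only [Strip.form, Strip.unit]; ring
  rw [Strip.mem_set, Strip.mem_set, h]
  simp only [Strip.unit]
  rw [div_le_div_iff_of_pos_right hN, div_le_div_iff_of_pos_right hN]

theorem Strip.unit_normal (S : Strip) (hS : 0 < S.a ^ 2 + S.b ^ 2) :
    S.unit.a ^ 2 + S.unit.b ^ 2 = 1 := by
  have hN : √(S.a ^ 2 + S.b ^ 2) ^ 2 = S.a ^ 2 + S.b ^ 2 := Real.sq_sqrt hS.le
  simp only [Strip.unit]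
  rw [div_pow, div_pow, ← add_div, hN, div_self hS.ne']

/-- Rigidity: planks covering the unit disc with small overlap are nearly parallel. -/
theorem rigid {ι : Type*} [Fintype ι] (F : ι → Strip) (δ ω : ℝ) (hδ : 0 < δ) (hω : 0 < ω)
    (hF : ∀ i, 0 < (F i).a ^ 2 + (F i).b ^ 2)
    (hcov : ∀ p : ℝ × ℝ, p.1 ^ 2 + p.2 ^ 2 ≤ 1 → ∃ i, p ∈ (F i).set)
    (hov : ∫⁻ p in {p : ℝ × ℝ | p.1 ^ 2 + p.2 ^ 2 < 1}, ov F p
      ≤ ENNReal.ofReal (δ * ω ^ 2 / 500)) :
    ∃ e : ℝ × ℝ, e.1 ^ 2 + e.2 ^ 2 = 1 ∧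
      volume {p : ℝ × ℝ | p.1 ^ 2 + p.2 ^ 2 ≤ (49 / 50) ^ 2 ∧ ∀ i, p ∈ (F i).set →
        ω ^ 2 * ((F i).a ^ 2 + (F i).b ^ 2) < ((F i).a * e.2 - (F i).b * e.1) ^ 2}
        ≤ ENNReal.ofReal δ := by
  have hset : ∀ i, ((F i).unit).set = (F i).set := fun i => (F i).unit_set (hF i)
  have hov' : ov (fun i => (F i).unit) = ov F := by
    funext p
    unfold ov mult
    simp only [hset]
  obtain ⟨e, he, h⟩ := rigid_unit (fun i => (F i).unit) δ ω hδ hω
    (fun i => (F i).unit_normal (hF i)) (by simpa only [hset] using hcov)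
    (by rw [hov']; exact hov)
  refine ⟨e, he, le_trans (measure_mono ?_) h⟩
  intro p hp
  refine ⟨hp.1, fun i hi => ?_⟩
  rw [hset] at hi
  have h1 := hp.2 i hi
  have hN := hF i
  have hsq : √((F i).a ^ 2 + (F i).b ^ 2) ^ 2 = (F i).a ^ 2 + (F i).b ^ 2 := Real.sq_sqrt hN.le
  have h2 : ((F i).unit.a * e.2 - (F i).unit.b * e.1) ^ 2
      = ((F i).a * e.2 - (F i).b * e.1) ^ 2 / ((F i).a ^ 2 + (F i).b ^ 2) := by
    rw [← hsq]
    simp only [Strip.unit]
    ring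
  rw [h2, lt_div_iff₀ hN]
  exact h1

end Pool.Agent.Lib.MP_4a0204_co
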