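import Mathlib
import Pool.Agent.Lib.MP_4a0204_co.Rigid

set_option autoImplicit false

/-!
The multi-scale argument: windows above an uncovered point.
-/

namespace Pool.Agent.Lib.MP_4a0204_co

open MeasureTheory Set ENNReal

/-! ### Affine pull-back of planks -/

/-- Pull-back of a plank under an affine map. -/
def Strip.pull (a b c d e f : ℝ) (S : Strip) : Strip :=
  ⟨S.a * a + S.b * c, S.a * b + S.b * d, S.lo - (S.a * e + S.b * f), S.hi - (S.a * e + S.b * f)⟩

theorem Strip.mem_pull (a b c d e f : ℝ) (S : Strip) (q : ℝ × ℝ) :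
    q ∈ (S.pull a b c d e f).set ↔ amap a b c d e f q ∈ S.set := by
  rw [Strip.mem_set, Strip.mem_set]
  simp only [Strip.pull, Strip.form, amap]
  constructor
  · rintro ⟨h1, h2⟩; constructor <;> linarith
  · rintro ⟨h1, h2⟩; constructor <;> linarith

theorem ov_pull {ι : Type*} [Fintype ι] (F : ι → Strip) (a b c d e f : ℝ) (q : ℝ × ℝ) :
    ov (fun i => (F i).pull a b c d e f) q = ov F (amap a b c d e f q) := by
  unfold ov mult
  congr 1
  apply Finset.sum_congr rfl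
  intro i _
  by_cases h : q ∈ ((F i).pull a b c d e f).set
  · rw [indicator_of_mem h, indicator_of_mem ((Strip.mem_pull a b c d e f _ _).mp h)]; rfl
  · rw [indicator_of_notMem h,
      indicator_of_notMem (fun h' => h ((Strip.mem_pull a b c d e f _ _).mpr h'))]

theorem volume_preimage_amap (a b c d e f : ℝ) (hdet : a * d - b * c ≠ 0) (N : Set (ℝ × ℝ)) :
    volume (amap a b c d e f ⁻¹' N) = ENNReal.ofReal (|a * d - b * c|⁻¹) * volume N := by
  set L : ℝ × ℝ →ₗ[ℝ] ℝ × ℝ :=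
    Matrix.toLin (Module.Basis.finTwoProd ℝ) (Module.Basis.finTwoProd ℝ) !![a, b; c, d] with hL
  have hLdet : LinearMap.det L = a * d - b * c := by
    rw [hL, LinearMap.det_toLin, Matrix.det_fin_two_of]
  have hLap : ∀ p, L p = (a * p.1 + b * p.2, c * p.1 + d * p.2) := fun p => by
    rw [hL, Matrix.toLin_finTwoProd_apply]
  have h1 := Measure.addHaar_preimage_linearMap (volume : Measure (ℝ × ℝ)) (f := L)
    (by rw [hLdet]; exact hdet) ((fun q => q + (e, f)) ⁻¹' N)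
  have h2 : amap a b c d e f ⁻¹' N = L ⁻¹' ((fun q => q + (e, f)) ⁻¹' N) := by
    ext p
    simp only [mem_preimage, hLap, amap, Prod.mk_add_mk]
  rw [h2, h1, measure_preimage_add_right, hLdet, abs_inv]

/-! ### Windows -/

/-- The constant controlling slopes. -/
noncomputable def lam : ℝ := 1 / 10000

/-- The threshold for the overlap. -/
noncomputable def eta0 : ℝ := (1 / 16) * (1 / 40000) ^ 2 / 500

/-- Coordinates of a window. -/
noncomputable def wmap (ξ s r : ℝ) : ℝ × ℝ → ℝ × ℝ := amap r (s / 10) 0 (1 / 10) (ξ + s) 1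

theorem wmap_apply (ξ s r : ℝ) (q : ℝ × ℝ) :
    wmap ξ s r q = (ξ + s * (1 + q.2 / 10) + r * q.1, 1 + q.2 / 10) := by
  simp only [wmap, amap]
  ext <;> simp <;> ring

/-- The unit disc. -/
def Dk : Set (ℝ × ℝ) := {p : ℝ × ℝ | p.1 ^ 2 + p.2 ^ 2 ≤ 1}

theorem measurableSet_Dk : MeasurableSet Dk := measurableSet_le (by fun_prop) (by fun_prop)

/-- A plank is aligned with the window. -/
def Aligned (S : Strip) (s r : ℝ) : Prop := |S.a * s + S.b| ≤ 10 * lam * r * |S.a|

/-- Points of the square not covered by aligned planks. -/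
def badset {ι : Type*} (F : ι → Strip) (ξ s r : ℝ) : Set (ℝ × ℝ) :=
  {q | (|q.1| ≤ 1 / 2 ∧ |q.2| ≤ 1 / 2) ∧ ∀ i, wmap ξ s r q ∈ (F i).set → ¬ Aligned (F i) s r}

/-- Most of the window is covered by aligned planks. -/
def Stt {ι : Type*} (F : ι → Strip) (ξ s r : ℝ) : Prop := volume (badset F ξ s r) ≤ 1 / 8

/-- The overlap in the window is small. -/
def Small {ι : Type*} [Fintype ι] (F : ι → Strip) (ξ s r : ℝ) : Prop :=
  ∫⁻ q in Dk, ov F (wmap ξ s r q) ≤ ENNReal.ofReal eta0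

theorem volume_box (a b : ℝ) :
    volume {q : ℝ × ℝ | |q.1| ≤ a ∧ |q.2| ≤ b} = ENNReal.ofReal (2 * a) * ENNReal.ofReal (2 * b) := by
  have : {q : ℝ × ℝ | |q.1| ≤ a ∧ |q.2| ≤ b} = Icc (-a) a ×ˢ Icc (-b) b := by
    ext q
    simp only [mem_ofPred_eq, mem_prod, mem_Icc, abs_le]
  rw [this, Measure.volume_eq_prod, Measure.prod_prod, Real.volume_Icc, Real.volume_Icc]
  congr 2 <;> ring

theorem volume_ov_le {ι : Type*} [Fintype ι] (F : ι → Strip) (ξ s r : ℝ) (h : Small F ξ s r) :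
    volume {q : ℝ × ℝ | q ∈ Dk ∧ 1 ≤ ov F (wmap ξ s r q)} ≤ 1 / 16 := by
  have hm : Measurable fun q => ov F (wmap ξ s r q) :=
    (measurable_ov F).comp (measurable_amap _ _ _ _ _ _)
  have h1 : volume {q : ℝ × ℝ | q ∈ Dk ∧ 1 ≤ ov F (wmap ξ s r q)}
      ≤ ∫⁻ q in Dk, ov F (wmap ξ s r q) := by
    have hms : MeasurableSet {q : ℝ × ℝ | q ∈ Dk ∧ 1 ≤ ov F (wmap ξ s r q)} :=
      measurableSet_Dk.inter (measurableSet_le measurable_const hm)
    rw [← lintegral_indicator_one hms, ← lintegral_indicator measurableSet_Dk]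
    apply lintegral_mono
    intro q
    beta_reduce
    by_cases hq : q ∈ {q : ℝ × ℝ | q ∈ Dk ∧ 1 ≤ ov F (wmap ξ s r q)}
    · rw [indicator_of_mem hq, indicator_of_mem hq.1]
      exact hq.2
    · rw [indicator_of_notMem hq]; exact zero_le
  refine h1.trans (h.trans ?_)
  have : (1 / 16 : ℝ≥0∞) = ENNReal.ofReal (1 / 16) := by
    rw [ENNReal.ofReal_div_of_pos (by norm_num)]; simp
  rw [this]
  apply ENNReal.ofReal_le_ofReal
  unfold eta0; norm_num

/-- A set of large volume has a point outside of three small sets. -/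
theorem exists_notMem_three {T N1 N2 N3 : Set (ℝ × ℝ)}
    (h : volume N1 + volume N2 + volume N3 < volume T) : ∃ q ∈ T, q ∉ N1 ∧ q ∉ N2 ∧ q ∉ N3 := by
  by_contra hcon
  push Not at hcon
  have hsub : T ⊆ N1 ∪ N2 ∪ N3 := by
    intro q hq
    by_contra hn
    simp only [mem_union, not_or] at hn
    exact hn.2 (hcon q hq hn.1.1 hn.1.2)
  have h1 := (measure_mono (μ := (volume : Measure (ℝ × ℝ))) hsub).trans (measure_union_le _ _)
  have h2 := h1.trans (add_le_add (measure_union_le _ _) le_rfl)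
  exact absurd h (not_lt.mpr h2)

theorem ofReal_eighth : (1 / 8 : ℝ≥0∞) = ENNReal.ofReal (1 / 8) := by
  rw [ENNReal.ofReal_div_of_pos (by norm_num)]; simp

theorem ofReal_sixteenth : (1 / 16 : ℝ≥0∞) = ENNReal.ofReal (1 / 16) := by
  rw [ENNReal.ofReal_div_of_pos (by norm_num)]; simp

theorem eq_of_ov_lt {ι : Type*} [Fintype ι] (F : ι → Strip) {p : ℝ × ℝ} (h : ¬ 1 ≤ ov F p)
    {i j : ι} (hi : p ∈ (F i).set) (hj : p ∈ (F j).set) : i = j := by
  by_contra hij
  exact h (one_le_ov F hij hi hj)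

/-- The algebra of a good plank: bounding the direction. -/
theorem direction_bound {n1 n2 e1 e2 : ℝ} (he : e1 ^ 2 + e2 ^ 2 = 1) (hn : n1 ≠ 0)
    (hal : |n2| ≤ lam * |n1|)
    (hg : (n1 * e2 - n2 * e1) ^ 2 ≤ (1 / 40000) ^ 2 * (n1 ^ 2 + n2 ^ 2)) :
    99 / 100 ≤ |e1| ∧ |e2| ≤ 3 / 2 * lam := by
  have hn0 : 0 < |n1| := abs_pos.mpr hn
  have hlam : lam = 1 / 10000 := rfl
  have h1 : |n1 * e2 - n2 * e1| ≤ (1 / 30000) * |n1| := by
    apply abs_le_of_sq_le_sq _ (by positivity)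
    have h2 : n2 ^ 2 ≤ lam ^ 2 * n1 ^ 2 := by
      rw [← sq_abs n2, ← sq_abs n1, ← mul_pow]
      exact pow_le_pow_left₀ (abs_nonneg _) hal 2
    rw [mul_pow, sq_abs]
    rw [hlam] at h2
    nlinarith [sq_nonneg n1]
  have he1 : |e1| ≤ 1 := abs_le_of_sq_le_sq (by nlinarith [sq_nonneg e2]) (by norm_num)
  have h3 : |n1| * |e2| ≤ |n1| * (3 / 2 * lam) := by
    calc |n1| * |e2| = |(n1 * e2 - n2 * e1) + n2 * e1| := by
          rw [← abs_mul]; congr 1; ring
      _ ≤ |n1 * e2 - n2 * e1| + |n2 * e1| := abs_add_le _ _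
      _ ≤ (1 / 30000) * |n1| + lam * |n1| * 1 := by
          apply add_le_add h1
          rw [abs_mul]
          exact mul_le_mul hal he1 (abs_nonneg _) (by rw [hlam]; positivity)
      _ ≤ _ := by rw [hlam]; nlinarith
  have h4 : |e2| ≤ 3 / 2 * lam := le_of_mul_le_mul_left h3 hn0
  refine ⟨?_, h4⟩
  have h5 : e2 ^ 2 ≤ (3 / 2 * lam) ^ 2 := by
    rw [← sq_abs]; exact pow_le_pow_left₀ (abs_nonneg _) h4 2
  rw [hlam] at h5
  have h6 : (99 / 100 : ℝ) ^ 2 ≤ |e1| ^ 2 := by rw [sq_abs]; nlinarith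
  exact le_of_sq_le_sq h6 (abs_nonneg _)

/-- A good plank relative to a direction `e` close to the first axis. -/
theorem good_bound {n1 n2 e1 e2 : ℝ} (h1 : 99 / 100 ≤ |e1|) (h2 : |e2| ≤ 3 / 2 * lam)
    (hg : (n1 * e2 - n2 * e1) ^ 2 ≤ (1 / 40000) ^ 2 * (n1 ^ 2 + n2 ^ 2)) :
    |n2 - e2 / e1 * n1| ≤ lam / 2 * |n1| := by
  have hlam : lam = 1 / 10000 := rfl
  have he1 : e1 ≠ 0 := by
    rintro rfl
    rw [abs_zero] at h1; linarith
  have he1' : 0 < |e1| := abs_pos.mpr he1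
  have hψ : |e2 / e1| ≤ 2 * lam := by
    rw [abs_div, div_le_iff₀ he1']
    rw [hlam] at h2 ⊢
    nlinarith
  set t := |n2 - e2 / e1 * n1| with ht
  have ht0 : 0 ≤ t := abs_nonneg _
  have h3 : t * |e1| = |n1 * e2 - n2 * e1| := by
    rw [ht, ← abs_mul, ← abs_neg]
    congr 1
    field_simp
    ring
  have h4 : |n2| ≤ t + 2 * lam * |n1| := by
    calc |n2| = |(n2 - e2 / e1 * n1) + e2 / e1 * n1| := by congr 1; ring
      _ ≤ t + |e2 / e1 * n1| := abs_add_le _ _
      _ ≤ _ := by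
          rw [abs_mul]
          have := mul_le_mul_of_nonneg_right hψ (abs_nonneg n1)
          linarith
  have h5 : |n1 * e2 - n2 * e1| ≤ (1 / 40000) * (|n1| + |n2|) := by
    apply abs_le_of_sq_le_sq _ (by positivity)
    refine hg.trans ?_
    rw [mul_pow]
    apply mul_le_mul_of_nonneg_left _ (by positivity)
    nlinarith [abs_nonneg n1, abs_nonneg n2, sq_abs n1, sq_abs n2,
      mul_nonneg (abs_nonneg n1) (abs_nonneg n2)]
  rw [← h3] at h5
  rw [hlam] at h4 ⊢
  have h6 : t * (99 / 100) ≤ t * |e1| := mul_le_mul_of_nonneg_left h1 ht0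
  nlinarith [abs_nonneg n1]

/-- The window of a coarser scale contains the one of a finer scale. -/
theorem step {ι : Type*} [Fintype ι] (F : ι → Strip) (hF : ∀ i, 0 < (F i).a ^ 2 + (F i).b ^ 2)
    (x0 y0 s r : ℝ) (hr : 0 < r) (hy0 : |y0| ≤ 1 / 100)
    (hcov : ∀ q ∈ Dk, ∃ i, wmap (x0 - s * y0) s r q ∈ (F i).set)
    (hst : Stt F (x0 - s * y0) s r) (hsm : Small F (x0 - s * y0) s r) :
    ∃ s', |s' - s| ≤ 20 * lam * r ∧ Stt F (x0 - s' * y0) s' (r / 2) := by
  have hlam : lam = 1 / 10000 := rfl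
  set ξ := x0 - s * y0 with hξ
  set G : ι → Strip := fun i => (F i).pull r (s / 10) 0 (1 / 10) (ξ + s) 1 with hG
  have hGmem : ∀ i q, q ∈ (G i).set ↔ wmap ξ s r q ∈ (F i).set := fun i q =>
    Strip.mem_pull _ _ _ _ _ _ _ _
  have hGa : ∀ i, (G i).a = (F i).a * r := fun i => by simp [hG, Strip.pull]
  have hGb : ∀ i, (G i).b = ((F i).a * s + (F i).b) / 10 := fun i => by
    simp only [hG, Strip.pull]; ring
  have hGpos : ∀ i, 0 < (G i).a ^ 2 + (G i).b ^ 2 := by
    intro i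
    rw [hGa, hGb]
    by_cases ha : (F i).a = 0
    · have hb : (F i).b ≠ 0 := by
        intro hb
        have := hF i
        rw [ha, hb] at this; norm_num at this
      rw [ha]
      have : 0 < (F i).b ^ 2 := by positivity
      nlinarith
    · have h1 : 0 < ((F i).a * r) ^ 2 := by positivity
      positivity
  obtain ⟨e, he, hvol⟩ := rigid G (1 / 16) (1 / 40000) (by norm_num) (by norm_num) hGpos
    (fun q hq => by
      obtain ⟨i, hi⟩ := hcov q hq
      exact ⟨i, (hGmem i q).mpr hi⟩)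
    (by
      simp only [hG, ov_pull]
      refine le_trans (lintegral_mono_set ?_) hsm
      intro q hq
      exact le_of_lt (show q.1 ^ 2 + q.2 ^ 2 < 1 from hq))
  set N2 := {p : ℝ × ℝ | p.1 ^ 2 + p.2 ^ 2 ≤ (49 / 50) ^ 2 ∧ ∀ i, p ∈ (G i).set →
        (1 / 40000) ^ 2 * ((G i).a ^ 2 + (G i).b ^ 2) < ((G i).a * e.2 - (G i).b * e.1) ^ 2}
    with hN2
  -- a common plank
  obtain ⟨q, hq, hq1, hq2, hq3⟩ := exists_notMem_three
    (T := {q : ℝ × ℝ | |q.1| ≤ 1 / 2 ∧ |q.2| ≤ 1 / 2}) (N1 := badset F ξ s r) (N2 := N2)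
    (N3 := {q : ℝ × ℝ | q ∈ Dk ∧ 1 ≤ ov F (wmap ξ s r q)}) (by
      rw [volume_box]
      calc volume (badset F ξ s r) + volume N2
            + volume {q : ℝ × ℝ | q ∈ Dk ∧ 1 ≤ ov F (wmap ξ s r q)}
          ≤ ENNReal.ofReal (1 / 8) + ENNReal.ofReal (1 / 16) + ENNReal.ofReal (1 / 16) := by
            apply add_le_add (add_le_add _ hvol)
            · rw [← ofReal_sixteenth]; exact volume_ov_le F ξ s r hsm
            · rw [← ofReal_eighth]; exact hst
        _ = ENNReal.ofReal (1 / 4) := by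
            rw [← ENNReal.ofReal_add (by norm_num) (by norm_num),
              ← ENNReal.ofReal_add (by norm_num) (by norm_num)]
            congr 1; norm_num
        _ < ENNReal.ofReal (2 * (1 / 2)) * ENNReal.ofReal (2 * (1 / 2)) := by
            rw [← ENNReal.ofReal_mul (by norm_num)]
            rw [ENNReal.ofReal_lt_ofReal_iff (by norm_num)]
            norm_num)
  have hqD : q ∈ Dk := by
    have h1 := abs_le.mp hq.1
    have h2 := abs_le.mp hq.2
    change q.1 ^ 2 + q.2 ^ 2 ≤ 1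
    nlinarith
  have hq4 : q.1 ^ 2 + q.2 ^ 2 ≤ (49 / 50) ^ 2 := by
    have h1 := abs_le.mp hq.1
    have h2 := abs_le.mp hq.2
    nlinarith
  obtain ⟨i, hi, hial⟩ : ∃ i, wmap ξ s r q ∈ (F i).set ∧ Aligned (F i) s r := by
    by_contra hcon
    push Not at hcon
    exact hq1 ⟨hq, hcon⟩
  obtain ⟨j, hj, hjg⟩ : ∃ j, q ∈ (G j).set ∧ ((G j).a * e.2 - (G j).b * e.1) ^ 2
      ≤ (1 / 40000) ^ 2 * ((G j).a ^ 2 + (G j).b ^ 2) := by
    by_contra hcon
    push Not at hcon
    exact hq2 ⟨hq4, hcon⟩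
  have hij : i = j := eq_of_ov_lt F (fun h => hq3 ⟨hqD, h⟩) hi ((hGmem j q).mp hj)
  subst hij
  have hal : |(G i).b| ≤ lam * |(G i).a| := by
    rw [hGa, hGb, abs_div, abs_mul, abs_of_pos hr]
    unfold Aligned at hial
    rw [abs_of_pos (by norm_num : (0:ℝ) < 10), div_le_iff₀ (by norm_num)]
    linarith
  have hna : (G i).a ≠ 0 := by
    intro h0
    rw [h0, abs_zero, mul_zero] at hal
    have h1 : (G i).b = 0 := abs_eq_zero.mp (le_antisymm hal (abs_nonneg _))
    have := hGpos i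
    rw [h0, h1] at this; norm_num at this
  obtain ⟨he1, he2⟩ := direction_bound he hna hal hjg
  set ψ := e.2 / e.1 with hψdef
  have he10 : e.1 ≠ 0 := by
    intro h
    rw [h, abs_zero] at he1; linarith
  have hψ : |ψ| ≤ 2 * lam := by
    rw [hψdef, abs_div, div_le_iff₀ (abs_pos.mpr he10)]
    rw [hlam] at he2 ⊢
    nlinarith
  refine ⟨s - 10 * r * ψ, ?_, ?_⟩
  · rw [show s - 10 * r * ψ - s = -(10 * r * ψ) by ring, abs_neg, abs_mul,
      abs_of_pos (by positivity : (0:ℝ) < 10 * r)]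
    nlinarith
  · unfold Stt
    have hsub : badset F (x0 - (s - 10 * r * ψ) * y0) (s - 10 * r * ψ) (r / 2)
        ⊆ amap (1 / 2) (-ψ) 0 1 (-10 * ψ * (1 - y0)) 0 ⁻¹' N2 := by
      intro q' hq'
      obtain ⟨⟨hX, hY⟩, hbad⟩ := hq'
      have hwm : wmap (x0 - (s - 10 * r * ψ) * y0) (s - 10 * r * ψ) (r / 2) q'
          = wmap ξ s r (amap (1 / 2) (-ψ) 0 1 (-10 * ψ * (1 - y0)) 0 q') := by
        rw [wmap_apply, wmap_apply, hξ]
        simp only [amap]
        ext
        · simp only; ring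
        · simp only; ring
      have hX' := abs_le.mp hX
      have hY' := abs_le.mp hY
      have hψ' := abs_le.mp hψ
      have hy0' := abs_le.mp hy0
      have hA : |(amap (1 / 2) (-ψ) 0 1 (-10 * ψ * (1 - y0)) 0 q').1| ≤ 1 / 2 := by
        simp only [amap]
        have e1 : 1 / 2 * q'.1 + -ψ * q'.2 + -10 * ψ * (1 - y0)
            = 1 / 2 * q'.1 - ψ * (q'.2 + 10 * (1 - y0)) := by ring
        rw [e1]
        have h1 : |ψ * (q'.2 + 10 * (1 - y0))| ≤ 2 * lam * 11 := by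
          rw [abs_mul]
          apply mul_le_mul hψ _ (abs_nonneg _) (by rw [hlam]; norm_num)
          rw [abs_le]; constructor <;> linarith [hY'.1, hY'.2, hy0'.1, hy0'.2]
        have h2 : |1 / 2 * q'.1| ≤ 1 / 4 := by
          rw [abs_mul, abs_of_pos (by norm_num : (0:ℝ) < 1 / 2)]; linarith
        refine (abs_sub _ _).trans ?_
        rw [hlam] at h1
        linarith
      have hB : |(amap (1 / 2) (-ψ) 0 1 (-10 * ψ * (1 - y0)) 0 q').2| ≤ 1 / 2 := by
        simp only [amap]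
        rw [show (0 : ℝ) * q'.1 + 1 * q'.2 + 0 = q'.2 by ring]
        exact hY
      refine ⟨?_, ?_⟩
      · have h1 := abs_le.mp hA
        have h2 := abs_le.mp hB
        nlinarith
      · intro k hk
        rw [hGmem, ← hwm] at hk
        by_contra hcon
        push Not at hcon
        have hgb := good_bound he1 he2 hcon
        apply hbad k hk
        unfold Aligned
        rw [hGa, hGb] at hgb
        have e2 : (F k).a * (s - 10 * r * ψ) + (F k).b
            = 10 * (((F k).a * s + (F k).b) / 10 - ψ * ((F k).a * r)) := by ring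
        rw [e2, abs_mul, abs_of_pos (by norm_num : (0:ℝ) < 10)]
        rw [abs_mul (F k).a, abs_of_pos hr] at hgb
        linarith
    calc volume (badset F (x0 - (s - 10 * r * ψ) * y0) (s - 10 * r * ψ) (r / 2))
        ≤ volume (amap (1 / 2) (-ψ) 0 1 (-10 * ψ * (1 - y0)) 0 ⁻¹' N2) := measure_mono hsub
      _ = ENNReal.ofReal 2 * volume N2 := by
          rw [volume_preimage_amap _ _ _ _ _ _ (by norm_num)]
          congr 2
          norm_num
      _ ≤ ENNReal.ofReal 2 * ENNReal.ofReal (1 / 16) := mul_le_mul_right hvol _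
      _ = 1 / 8 := by
          rw [← ENNReal.ofReal_mul (by norm_num), ofReal_eighth]
          congr 1; norm_num

/-- Two windows of the same scale which nearly coincide have nearly the same slope. -/
theorem common {ι : Type*} [Fintype ι] (F : ι → Strip) (hF : ∀ i, 0 < (F i).a ^ 2 + (F i).b ^ 2)
    (ξ1 s1 ξ2 s2 r : ℝ) (hr : 0 < r) (h1 : Stt F ξ1 s1 r) (h2 : Stt F ξ2 s2 r)
    (hsm : Small F ξ1 s1 r) (hclose : |ξ1 - ξ2| + |s1 - s2| * (21 / 20) ≤ 3 / 20 * r) :
    |s1 - s2| ≤ 20 * lam * r := by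
  have hlam : lam = 1 / 10000 := rfl
  set B := amap 1 ((s2 - s1) / (10 * r)) 0 1 ((ξ2 - ξ1 + s2 - s1) / r) 0 with hB
  have hBw : ∀ q, wmap ξ1 s1 r (B q) = wmap ξ2 s2 r q := by
    intro q
    rw [wmap_apply, wmap_apply, hB]
    simp only [amap]
    ext
    · simp only; field_simp; ring
    · simp only; ring
  have hB1 : ∀ q : ℝ × ℝ, (B q).1 = q.1 + (ξ2 - ξ1 + (s2 - s1) * (1 + q.2 / 10)) / r := by
    intro q; rw [hB]; simp only [amap]; field_simp; ring
  have hB2 : ∀ q : ℝ × ℝ, (B q).2 = q.2 := by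
    intro q; rw [hB]; simp only [amap]; ring
  set N3 := {q : ℝ × ℝ | q ∈ Dk ∧ 1 ≤ ov F (wmap ξ1 s1 r q)} with hN3
  have hpre : ∀ N : Set (ℝ × ℝ), volume (B ⁻¹' N) = volume N := by
    intro N
    rw [hB, volume_preimage_amap _ _ _ _ _ _ (by norm_num)]
    norm_num
  obtain ⟨q, hq, hq1, hq2, hq3⟩ := exists_notMem_three
    (T := {q : ℝ × ℝ | |q.1| ≤ 7 / 20 ∧ |q.2| ≤ 1 / 2}) (N1 := B ⁻¹' badset F ξ1 s1 r)
    (N2 := badset F ξ2 s2 r) (N3 := B ⁻¹' N3) (by
      rw [volume_box, hpre, hpre]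
      calc volume (badset F ξ1 s1 r) + volume (badset F ξ2 s2 r) + volume N3
          ≤ ENNReal.ofReal (1 / 8) + ENNReal.ofReal (1 / 8) + ENNReal.ofReal (1 / 16) := by
            apply add_le_add (add_le_add _ _)
            · rw [← ofReal_sixteenth]; exact volume_ov_le F ξ1 s1 r hsm
            · rw [← ofReal_eighth]; exact h1
            · rw [← ofReal_eighth]; exact h2
        _ = ENNReal.ofReal (5 / 16) := by
            rw [← ENNReal.ofReal_add (by norm_num) (by norm_num),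
              ← ENNReal.ofReal_add (by norm_num) (by norm_num)]
            congr 1; norm_num
        _ < ENNReal.ofReal (2 * (7 / 20)) * ENNReal.ofReal (2 * (1 / 2)) := by
            rw [← ENNReal.ofReal_mul (by norm_num)]
            rw [ENNReal.ofReal_lt_ofReal_iff (by norm_num)]
            norm_num)
  have hX := abs_le.mp hq.1
  have hY := abs_le.mp hq.2
  have hBq : |(B q).1| ≤ 1 / 2 ∧ |(B q).2| ≤ 1 / 2 := by
    refine ⟨?_, by rw [hB2]; exact hq.2⟩
    rw [hB1]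
    have h3 : |(ξ2 - ξ1 + (s2 - s1) * (1 + q.2 / 10)) / r| ≤ 3 / 20 := by
      rw [abs_div, abs_of_pos hr, div_le_iff₀ hr]
      refine le_trans ?_ hclose
      refine (abs_add_le _ _).trans ?_
      rw [abs_sub_comm ξ2 ξ1, abs_mul, abs_sub_comm s2 s1]
      have : |1 + q.2 / 10| ≤ 21 / 20 := by
        rw [abs_le]; constructor <;> linarith
      have := mul_le_mul_of_nonneg_left this (abs_nonneg (s1 - s2))
      linarith
    refine (abs_add_le _ _).trans ?_
    linarith [hq.1]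
  have hBD : B q ∈ Dk := by
    have h3 := abs_le.mp hBq.1
    have h4 := abs_le.mp hBq.2
    change (B q).1 ^ 2 + (B q).2 ^ 2 ≤ 1
    nlinarith
  obtain ⟨i, hi, hial⟩ : ∃ i, wmap ξ1 s1 r (B q) ∈ (F i).set ∧ Aligned (F i) s1 r := by
    by_contra hcon
    push Not at hcon
    exact hq1 ⟨hBq, hcon⟩
  obtain ⟨j, hj, hjal⟩ : ∃ j, wmap ξ2 s2 r q ∈ (F j).set ∧ Aligned (F j) s2 r := by
    by_contra hcon
    push Not at hcon
    exact hq2 ⟨⟨by linarith [hq.1], hq.2⟩, hcon⟩
  have hij : i = j := eq_of_ov_lt F (fun h => hq3 ⟨hBD, h⟩) hi (by rw [hBw]; exact hj)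
  subst hij
  unfold Aligned at hial hjal
  have ha : (F i).a ≠ 0 := by
    intro h0
    rw [h0, abs_zero, mul_zero, zero_mul, zero_add] at hial
    have hb : (F i).b = 0 := abs_eq_zero.mp (le_antisymm hial (abs_nonneg _))
    have := hF i
    rw [h0, hb] at this; norm_num at this
  have h5 : |(F i).a| * |s1 - s2| ≤ |(F i).a| * (20 * lam * r) := by
    calc |(F i).a| * |s1 - s2| = |((F i).a * s1 + (F i).b) - ((F i).a * s2 + (F i).b)| := by
          rw [← abs_mul]; congr 1; ring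
      _ ≤ |(F i).a * s1 + (F i).b| + |(F i).a * s2 + (F i).b| := abs_sub _ _
      _ ≤ _ := by linarith
  exact le_of_mul_le_mul_left h5 (abs_pos.mpr ha)

/-- Near an uncovered point the windows of very small scales cannot be aligned. -/
theorem terminate {ι : Type*} [Fintype ι] (F : ι → Strip) (z : ℝ × ℝ) (hz : z ∈ unc F)
    (hzy : |z.2| ≤ 1 / 100) :
    ∃ d > 0, ∀ r, 0 < r → r < d → ∀ s, ¬ Stt F (z.1 - s * z.2) s r := by
  have hlam : lam = 1 / 10000 := rfl
  have hgap : ∀ i, ∃ g > 0, ∀ v, |v - (F i).form z| < g → ¬ ((F i).lo ≤ v ∧ v ≤ (F i).hi) := by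
    intro i
    have hi : ¬ ((F i).lo ≤ (F i).form z ∧ (F i).form z ≤ (F i).hi) := hz i
    rw [not_and_or] at hi
    push Not at hi
    rcases hi with h | h
    · refine ⟨(F i).lo - (F i).form z, by linarith, fun v hv hc => ?_⟩
      have := (abs_lt.mp hv).2
      linarith [hc.1]
    · refine ⟨(F i).form z - (F i).hi, by linarith, fun v hv hc => ?_⟩
      have := (abs_lt.mp hv).1
      linarith [hc.2]
  choose g hg hgap using hgap
  set T := ∑ i, (|(F i).a| + 1) / g i with hT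
  have hT0 : 0 ≤ T := Finset.sum_nonneg fun i _ => by have := hg i; positivity
  refine ⟨1 / (1 + T), by positivity, fun r hr hrd s hst => ?_⟩
  have hbad : {q : ℝ × ℝ | |q.1| ≤ 1 / 2 ∧ |q.2| ≤ 1 / 2} ⊆ badset F (z.1 - s * z.2) s r := by
    intro q hq
    refine ⟨hq, fun i hi hal => ?_⟩
    rw [Strip.mem_set] at hi
    refine hgap i _ ?_ hi
    unfold Aligned at hal
    have e1 : (F i).form (wmap (z.1 - s * z.2) s r q) - (F i).form z
        = ((F i).a * s + (F i).b) * (1 + q.2 / 10 - z.2) + (F i).a * r * q.1 := by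
      rw [wmap_apply]; simp only [Strip.form]; ring
    rw [e1]
    have hY := abs_le.mp hq.2
    have hzy' := abs_le.mp hzy
    have h1 : |1 + q.2 / 10 - z.2| ≤ 11 / 10 := by
      rw [abs_le]; constructor <;> linarith
    have h2 : |((F i).a * s + (F i).b) * (1 + q.2 / 10 - z.2) + (F i).a * r * q.1|
        ≤ (|(F i).a| + 1) * r := by
      refine (abs_add_le _ _).trans ?_
      rw [abs_mul, abs_mul, abs_mul, abs_of_pos hr]
      have h3 : |(F i).a * s + (F i).b| * |1 + q.2 / 10 - z.2|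
          ≤ (10 * lam * r * |(F i).a|) * (11 / 10) :=
        mul_le_mul hal h1 (abs_nonneg _) ((abs_nonneg _).trans hal)
      have h4 : |(F i).a| * r * |q.1| ≤ |(F i).a| * r * (1 / 2) :=
        mul_le_mul_of_nonneg_left hq.1 (by positivity)
      rw [hlam] at h3
      nlinarith [mul_nonneg (abs_nonneg (F i).a) hr.le]
    refine lt_of_le_of_lt h2 ?_
    have h5 : (|(F i).a| + 1) / g i ≤ T :=
      Finset.single_le_sum (f := fun i => (|(F i).a| + 1) / g i)
        (fun i _ => by have := hg i; positivity) (Finset.mem_univ i)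
    rw [div_le_iff₀ (hg i)] at h5
    rw [lt_div_iff₀ (by positivity)] at hrd
    have h6 := hg i
    nlinarith [mul_le_mul_of_nonneg_right h5 hr.le]
  have h1 := (measure_mono (μ := (volume : Measure (ℝ × ℝ))) hbad).trans hst
  rw [volume_box, ← ENNReal.ofReal_mul (by norm_num), ofReal_eighth,
    ENNReal.ofReal_le_ofReal_iff (by norm_num)] at h1
  norm_num at h1

/-- A chain of windows for the anchor `z`. -/
def ChainTo {ι : Type*} [Fintype ι] (F : ι → Strip) (z : ℝ × ℝ) (r0 : ℝ) (J : ℕ) (f : ℕ → ℝ) :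
    Prop :=
  f 0 = 0 ∧ (∀ j ≤ J, Stt F (z.1 - f j * z.2) (f j) (r0 / 2 ^ j)) ∧
    ∀ j < J, Small F (z.1 - f j * z.2) (f j) (r0 / 2 ^ j) ∧
      |f (j + 1) - f j| ≤ 20 * lam * (r0 / 2 ^ j)

theorem ChainTo.drift {ι : Type*} [Fintype ι] {F : ι → Strip} {z : ℝ × ℝ} {r0 : ℝ} {J : ℕ}
    {f : ℕ → ℝ} (h : ChainTo F z r0 J f) {i j : ℕ} (hij : i ≤ j) (hj : j ≤ J) :
    |f j - f i| ≤ 40 * lam * (r0 / 2 ^ i) - 40 * lam * (r0 / 2 ^ j) := by
  induction j, hij using Nat.le_induction with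
  | base => simp
  | succ j hij ih =>
    have h1 := ih (by omega)
    have h2 := (h.2.2 j (by omega)).2
    have h3 : r0 / 2 ^ (j + 1) = (r0 / 2 ^ j) / 2 := by rw [pow_succ]; field_simp
    calc |f (j + 1) - f i| = |(f (j + 1) - f j) + (f j - f i)| := by congr 1; ring
      _ ≤ _ := abs_add_le _ _
      _ ≤ 40 * lam * (r0 / 2 ^ i) - 40 * lam * (r0 / 2 ^ (j + 1)) := by
        rw [h3]; linarith

theorem ChainTo.drift' {ι : Type*} [Fintype ι] {F : ι → Strip} {z : ℝ × ℝ} {r0 : ℝ} {J : ℕ}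
    {f : ℕ → ℝ} (hr0 : 0 < r0) (h : ChainTo F z r0 J f) {i j : ℕ} (hij : i ≤ j) (hj : j ≤ J) :
    |f j - f i| ≤ 40 * lam * (r0 / 2 ^ i) := by
  have h1 := h.drift hij hj
  have h2 : 0 ≤ 40 * lam * (r0 / 2 ^ j) := by unfold lam; positivity
  linarith

theorem ChainTo.bound {ι : Type*} [Fintype ι] {F : ι → Strip} {z : ℝ × ℝ} {r0 : ℝ} {J : ℕ}
    {f : ℕ → ℝ} (hr0 : 0 < r0) (h : ChainTo F z r0 J f) {j : ℕ} (hj : j ≤ J) :
    |f j| ≤ 40 * lam * r0 := by
  have h1 := h.drift' hr0 (Nat.zero_le j) hj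
  rw [h.1, sub_zero, pow_zero, div_one] at h1
  exact h1

theorem window_box {z : ℝ × ℝ} (hzy : |z.2| ≤ 1 / 100) {s r r0 : ℝ} (hr : 0 < r) (hr0 : r ≤ r0)
    (hs : |s| ≤ 40 * lam * r0) {q : ℝ × ℝ} (hq : q ∈ Dk) :
    |(wmap (z.1 - s * z.2) s r q).1 - z.1| ≤ 101 / 100 * r0 ∧
      |(wmap (z.1 - s * z.2) s r q).2 - 1| ≤ 1 / 10 := by
  have hq' : q.1 ^ 2 + q.2 ^ 2 ≤ 1 := hq
  have hq1 : |q.1| ≤ 1 := abs_le_of_sq_le_sq (by nlinarith [sq_nonneg q.2]) (by norm_num)
  have hq2 : |q.2| ≤ 1 := abs_le_of_sq_le_sq (by nlinarith [sq_nonneg q.1]) (by norm_num)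
  have hq2' := abs_le.mp hq2
  have hzy' := abs_le.mp hzy
  rw [wmap_apply]
  constructor
  · simp only
    rw [show z.1 - s * z.2 + s * (1 + q.2 / 10) + r * q.1 - z.1
      = s * (1 + q.2 / 10 - z.2) + r * q.1 by ring]
    refine (abs_add_le _ _).trans ?_
    rw [abs_mul, abs_mul, abs_of_pos hr]
    have h1 : |1 + q.2 / 10 - z.2| ≤ 12 / 10 := by
      rw [abs_le]; constructor <;> linarith
    have h2 := mul_le_mul hs h1 (abs_nonneg _) ((abs_nonneg _).trans hs)
    have h3 : r * |q.1| ≤ r0 * 1 := mul_le_mul hr0 hq1 (abs_nonneg _) (hr.le.trans hr0)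
    unfold lam at h2
    linarith
  · simp only
    rw [show 1 + q.2 / 10 - 1 = q.2 / 10 by ring, abs_div, abs_of_pos (by norm_num : (0:ℝ) < 10)]
    linarith

theorem exists_stop {ι : Type*} [Fintype ι] (F : ι → Strip)
    (hF : ∀ i, 0 < (F i).a ^ 2 + (F i).b ^ 2) (z : ℝ × ℝ) (hz : z ∈ unc F)
    (hzy : |z.2| ≤ 1 / 100) (r0 : ℝ) (hr0 : 0 < r0) (hst : Stt F z.1 0 r0)
    (hcov : ∀ p : ℝ × ℝ, |p.1 - z.1| ≤ 101 / 100 * r0 → |p.2 - 1| ≤ 1 / 10 →
      ∃ i, p ∈ (F i).set) :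
    ∃ J f, ChainTo F z r0 J f ∧ ¬ Small F (z.1 - f J * z.2) (f J) (r0 / 2 ^ J) := by
  by_contra hcon
  push Not at hcon
  have hch : ∀ J : ℕ, ∃ f, ChainTo F z r0 J f := by
    intro J
    induction J with
    | zero =>
      refine ⟨fun _ => 0, rfl, ?_, fun j hj => absurd hj (Nat.not_lt_zero j)⟩
      intro j hj
      have : j = 0 := by omega
      subst this
      simpa using hst
    | succ J ih =>
      obtain ⟨f, hf⟩ := ih
      have hsm := hcon J f hf
      have hrJ : 0 < r0 / 2 ^ J := by positivity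
      have hrJ' : r0 / 2 ^ J ≤ r0 := div_le_self hr0.le (one_le_pow₀ (by norm_num))
      obtain ⟨s', hs', hst'⟩ := step F hF z.1 z.2 (f J) (r0 / 2 ^ J) hrJ hzy
        (fun q hq => by
          have := window_box hzy hrJ hrJ' (hf.bound hr0 le_rfl) hq
          exact hcov _ this.1 this.2) (hf.2.1 J le_rfl) hsm
      refine ⟨Function.update f (J + 1) s', ?_, ?_, ?_⟩
      · rw [Function.update_of_ne (by omega)]; exact hf.1
      · intro j hj
        rcases Nat.lt_or_ge J j with h | h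
        · have : j = J + 1 := by omega
          subst this
          rw [Function.update_self, pow_succ, ← div_div]
          exact hst'
        · rw [Function.update_of_ne (by omega)]
          exact hf.2.1 j h
      · intro j hj
        rw [Function.update_of_ne (by omega : j ≠ J + 1)]
        rcases Nat.lt_or_ge j J with h | h
        · rw [Function.update_of_ne (by omega)]
          exact hf.2.2 j h
        · have : j = J := by omega
          subst this
          rw [Function.update_self]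
          exact ⟨hsm, hs'⟩
  obtain ⟨d, hd, hterm⟩ := terminate F z hz hzy
  obtain ⟨J, hJ⟩ : ∃ J : ℕ, r0 / 2 ^ J < d := by
    obtain ⟨J, hJ⟩ := exists_pow_lt_of_lt_one (show 0 < d / r0 by positivity)
      (by norm_num : (1 / 2 : ℝ) < 1)
    refine ⟨J, ?_⟩
    rw [lt_div_iff₀ hr0] at hJ
    calc r0 / 2 ^ J = (1 / 2) ^ J * r0 := by rw [one_div, inv_pow]; field_simp
      _ < d := hJ
  obtain ⟨f, hf⟩ := hch J
  exact hterm _ (by positivity) hJ (f J) (hf.2.1 J le_rfl)

theorem slopes_close {ι : Type*} [Fintype ι] (F : ι → Strip)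
    (hF : ∀ i, 0 < (F i).a ^ 2 + (F i).b ^ 2) {z1 z2 : ℝ × ℝ} {r0 : ℝ} (hr0 : 0 < r0)
    {J1 J2 : ℕ} {f1 f2 : ℕ → ℝ} (h1 : ChainTo F z1 r0 J1 f1) (h2 : ChainTo F z2 r0 J2 f2)
    (k : ℕ) (hk1 : k < J1) (hk2 : k ≤ J2)
    (hclose : ∀ j ≤ k, |(z1.1 - f1 j * z1.2) - (z2.1 - f2 j * z2.2)| ≤ 11 / 100 * (r0 / 2 ^ j)) :
    |f1 k - f2 k| ≤ 20 * lam * (r0 / 2 ^ k) := by
  induction k with
  | zero =>
    rw [h1.1, h2.1, sub_zero, abs_zero]
    unfold lam; positivity
  | succ k ih =>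
    have h3 := ih (by omega) (by omega) (fun j hj => hclose j (by omega))
    have h4 := (h1.2.2 k (by omega)).2
    have h5 := (h2.2.2 k (by omega)).2
    have h6 : r0 / 2 ^ k = 2 * (r0 / 2 ^ (k + 1)) := by rw [pow_succ]; field_simp
    have hr : 0 < r0 / 2 ^ (k + 1) := by positivity
    apply common F hF _ _ _ _ _ hr (h1.2.1 (k + 1) (by omega)) (h2.2.1 (k + 1) (by omega))
      (h1.2.2 (k + 1) hk1).1
    have h7 : |f1 (k + 1) - f2 (k + 1)| ≤ 60 * lam * (r0 / 2 ^ k) := by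
      calc |f1 (k + 1) - f2 (k + 1)|
          = |(f1 (k + 1) - f1 k) + (f1 k - f2 k) + -(f2 (k + 1) - f2 k)| := by congr 1; ring
        _ ≤ |f1 (k + 1) - f1 k| + |f1 k - f2 k| + |-(f2 (k + 1) - f2 k)| := abs_add_three _ _ _
        _ ≤ _ := by rw [abs_neg]; linarith
    have h8 := hclose (k + 1) le_rfl
    rw [h6] at h7
    unfold lam at h7
    nlinarith

/-- Stopping windows which meet come from anchors that are close to each other. -/
theorem meet {ι : Type*} [Fintype ι] (F : ι → Strip)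
    (hF : ∀ i, 0 < (F i).a ^ 2 + (F i).b ^ 2) {z1 z2 : ℝ × ℝ} (hz1 : |z1.2| ≤ 1 / 100)
    (hz2 : |z2.2| ≤ 1 / 100) {r0 : ℝ} (hr0 : 0 < r0)
    {J1 J2 : ℕ} {f1 f2 : ℕ → ℝ} (h1 : ChainTo F z1 r0 J1 f1) (h2 : ChainTo F z2 r0 J2 f2)
    (hJ : J1 ≤ J2) {q1 q2 : ℝ × ℝ} (hq1 : q1 ∈ Dk) (hq2 : q2 ∈ Dk)
    (hq : wmap (z1.1 - f1 J1 * z1.2) (f1 J1) (r0 / 2 ^ J1) q1
      = wmap (z2.1 - f2 J2 * z2.2) (f2 J2) (r0 / 2 ^ J2) q2) :
    |(z1.1 - f1 J1 * z1.2) - (z2.1 - f2 J2 * z2.2)| ≤ 8 * (r0 / 2 ^ J1) ∧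
      |f1 J1 - f2 J2| ≤ 12 * (r0 / 2 ^ J1) := by
  have hlam : lam = 1 / 10000 := rfl
  set s1 := f1 J1
  set s2 := f2 J2
  set ξ1 := z1.1 - s1 * z1.2 with hξ1
  set ξ2 := z2.1 - s2 * z2.2 with hξ2
  set r1 := r0 / 2 ^ J1 with hr1
  set r2 := r0 / 2 ^ J2 with hr2
  have hr1pos : 0 < r1 := by positivity
  have hr2pos : 0 < r2 := by positivity
  have hr21 : r2 ≤ r1 := by
    apply div_le_div_of_nonneg_left hr0.le (by positivity)
    exact pow_le_pow_right₀ (by norm_num) hJ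
  rw [wmap_apply, wmap_apply, Prod.mk.injEq] at hq
  obtain ⟨hqx, hqy⟩ := hq
  have hq1' : q1.1 ^ 2 + q1.2 ^ 2 ≤ 1 := hq1
  have hq2' : q2.1 ^ 2 + q2.2 ^ 2 ≤ 1 := hq2
  have ha1 : |q1.1| ≤ 1 := abs_le_of_sq_le_sq (by nlinarith [sq_nonneg q1.2]) (by norm_num)
  have ha2 : |q2.1| ≤ 1 := abs_le_of_sq_le_sq (by nlinarith [sq_nonneg q2.2]) (by norm_num)
  have hb1 : |q1.2| ≤ 1 := abs_le_of_sq_le_sq (by nlinarith [sq_nonneg q1.1]) (by norm_num)
  have hb1' := abs_le.mp hb1
  set y := 1 + q1.2 / 10 with hy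
  have hy1 : 9 / 10 ≤ y := by linarith
  have hy2 : y ≤ 11 / 10 := by linarith
  have hkey : |(ξ1 - ξ2) + (s1 - s2) * y| ≤ 2 * r1 := by
    have e1 : (ξ1 - ξ2) + (s1 - s2) * y = r2 * q2.1 - r1 * q1.1 := by
      have : s2 * (1 + q2.2 / 10) = s2 * y := by rw [← hqy]
      linarith
    rw [e1]
    refine (abs_sub _ _).trans ?_
    rw [abs_mul, abs_mul, abs_of_pos hr1pos, abs_of_pos hr2pos]
    nlinarith
  have hfirst : |ξ1 - ξ2| ≤ 8 * r1 := by
    by_contra hcon
    push Not at hcon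
    set R := |ξ1 - ξ2| with hR
    have hRpos : 0 < R := by linarith
    have hslope : |s1 - s2| ≤ R / 5 := by
      by_cases hcase : r0 < 10 * R
      · have h3 := h1.bound hr0 (le_refl J1)
        have h4 := h2.bound hr0 (le_refl J2)
        refine (abs_sub _ _).trans ?_
        rw [hlam] at h3 h4
        linarith
      · push Not at hcase
        have hex : ∃ k : ℕ, r0 / 2 ^ k < 10 * R := by
          obtain ⟨k, hk⟩ := exists_pow_lt_of_lt_one (show 0 < 10 * R / r0 by positivity)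
            (by norm_num : (1 / 2 : ℝ) < 1)
          refine ⟨k, ?_⟩
          rw [lt_div_iff₀ hr0] at hk
          calc r0 / 2 ^ k = (1 / 2) ^ k * r0 := by rw [one_div, inv_pow]; field_simp
            _ < _ := hk
        obtain ⟨j, hj1, hj2⟩ : ∃ j : ℕ, 10 * R ≤ r0 / 2 ^ j ∧ r0 / 2 ^ (j + 1) < 10 * R := by
          classical
          have h3 := Nat.find_spec hex
          have h4 : Nat.find hex ≠ 0 := by
            intro h0
            rw [h0, pow_zero, div_one] at h3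
            linarith
          obtain ⟨j, hj⟩ := Nat.exists_eq_succ_of_ne_zero h4
          refine ⟨j, ?_, by rw [← Nat.succ_eq_add_one, ← hj]; exact h3⟩
          have h5 := Nat.find_min hex (show j < Nat.find hex by omega)
          push Not at h5
          exact h5
        have hjJ : j < J1 := by
          by_contra hge
          push Not at hge
          have : r0 / 2 ^ j ≤ r1 := by
            apply div_le_div_of_nonneg_left hr0.le (by positivity)
            exact pow_le_pow_right₀ (by norm_num) hge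
          linarith
        have hj3 : r0 / 2 ^ j < 20 * R := by
          have : r0 / 2 ^ j = 2 * (r0 / 2 ^ (j + 1)) := by rw [pow_succ]; field_simp
          linarith
        have hclose : ∀ i ≤ j, |(z1.1 - f1 i * z1.2) - (z2.1 - f2 i * z2.2)|
            ≤ 11 / 100 * (r0 / 2 ^ i) := by
          intro i hi
          have h3 := h1.drift' hr0 (show i ≤ J1 by omega) le_rfl
          have h4 := h2.drift' hr0 (show i ≤ J2 by omega) le_rfl
          have h5 : r0 / 2 ^ j ≤ r0 / 2 ^ i := by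
            apply div_le_div_of_nonneg_left hr0.le (by positivity)
            exact pow_le_pow_right₀ (by norm_num) hi
          have h6 : 0 < r0 / 2 ^ i := by positivity
          have e1 : (z1.1 - f1 i * z1.2) - (z2.1 - f2 i * z2.2)
              = (ξ1 - ξ2) + (s1 - f1 i) * z1.2 + -((s2 - f2 i) * z2.2) := by
            rw [hξ1, hξ2]; ring
          rw [e1]
          refine (abs_add_three _ _ _).trans ?_
          rw [abs_neg, abs_mul, abs_mul]
          have h7 := mul_le_mul h3 hz1 (abs_nonneg _) ((abs_nonneg _).trans h3)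
          have h8 := mul_le_mul h4 hz2 (abs_nonneg _) ((abs_nonneg _).trans h4)
          rw [hlam] at h7 h8
          linarith
        have h3 := slopes_close F hF hr0 h1 h2 j hjJ (by omega) hclose
        have h4 := h1.drift' hr0 (show j ≤ J1 by omega) le_rfl
        have h5 := h2.drift' hr0 (show j ≤ J2 by omega) le_rfl
        have e1 : s1 - s2 = (s1 - f1 j) + (f1 j - f2 j) + -(s2 - f2 j) := by ring
        rw [e1]
        refine (abs_add_three _ _ _).trans ?_
        rw [abs_neg]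
        rw [hlam] at h3 h4 h5
        linarith
    have h3 : R ≤ |(ξ1 - ξ2) + (s1 - s2) * y| + |(s1 - s2) * y| := by
      calc R = |((ξ1 - ξ2) + (s1 - s2) * y) - (s1 - s2) * y| := by rw [hR]; congr 1; ring
        _ ≤ _ := abs_sub _ _
    rw [abs_mul (s1 - s2) y, abs_of_pos (by linarith : 0 < y)] at h3
    have h4 : |s1 - s2| * y ≤ R / 5 * (11 / 10) :=
      mul_le_mul hslope hy2 (by linarith) (by positivity)
    linarith
  refine ⟨hfirst, ?_⟩
  have h3 : |s1 - s2| * y ≤ 2 * r1 + 8 * r1 := by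
    calc |s1 - s2| * y = |(s1 - s2) * y| := by rw [abs_mul, abs_of_pos (by linarith : 0 < y)]
      _ = |((ξ1 - ξ2) + (s1 - s2) * y) - (ξ1 - ξ2)| := by congr 1; ring
      _ ≤ _ := abs_sub _ _
      _ ≤ _ := by linarith
  nlinarith [abs_nonneg (s1 - s2)]

/-- The window as a set. -/
def Win (ξ s r : ℝ) : Set (ℝ × ℝ) :=
  {p | ((p.1 - ξ - s * p.2) / r) ^ 2 + (10 * (p.2 - 1)) ^ 2 ≤ 1}

theorem wmap_mem_Win {ξ s r : ℝ} (hr : 0 < r) (q : ℝ × ℝ) : wmap ξ s r q ∈ Win ξ s r ↔ q ∈ Dk := by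
  rw [wmap_apply]
  unfold Win Dk
  simp only [mem_ofPred_eq]
  have e1 : (ξ + s * (1 + q.2 / 10) + r * q.1 - ξ - s * (1 + q.2 / 10)) / r = q.1 := by
    field_simp; ring
  have e2 : 10 * (1 + q.2 / 10 - 1) = q.2 := by ring
  rw [e1, e2]

theorem Win_subset {ξ s r : ℝ} (hr : 0 < r) {p : ℝ × ℝ} (hp : p ∈ Win ξ s r) :
    ∃ q ∈ Dk, wmap ξ s r q = p := by
  have e : wmap ξ s r ((p.1 - ξ - s * p.2) / r, 10 * (p.2 - 1)) = p := by
    rw [wmap_apply]
    ext
    · simp only; field_simp; ring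
    · simp only; ring
  exact ⟨_, hp, e⟩

theorem isClosed_Win (ξ s r : ℝ) : IsClosed (Win ξ s r) := by
  unfold Win
  exact isClosed_le (by fun_prop) (by fun_prop)

theorem interior_Win (ξ s r : ℝ) : (interior (Win ξ s r)).Nonempty := by
  have hopen : IsOpen {p : ℝ × ℝ | ((p.1 - ξ - s * p.2) / r) ^ 2 + (10 * (p.2 - 1)) ^ 2 < 1} :=
    isOpen_lt (by fun_prop) (by fun_prop)
  refine ⟨(ξ + s, 1), interior_maximal (fun p hp => ?_) hopen ?_⟩
  · exact le_of_lt (show ((p.1 - ξ - s * p.2) / r) ^ 2 + (10 * (p.2 - 1)) ^ 2 < 1 from hp)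
  · change ((ξ + s - ξ - s * 1) / r) ^ 2 + (10 * ((1:ℝ) - 1)) ^ 2 < 1
    rw [show ξ + s - ξ - s * 1 = 0 by ring]
    norm_num

theorem lintegral_Win {ι : Type*} [Fintype ι] (F : ι → Strip) (ξ s r : ℝ) (hr : 0 < r) :
    ∫⁻ p in Win ξ s r, ov F p
      = ENNReal.ofReal (r / 10) * ∫⁻ q in Dk, ov F (wmap ξ s r q) := by
  have hmW := (isClosed_Win ξ s r).measurableSet
  have h1 := lintegral_amap r (s / 10) 0 (1 / 10) (ξ + s) 1 (by nlinarith)
    ((Win ξ s r).indicator (ov F)) ((measurable_ov F).indicator hmW)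
  have h2 : |r * (1 / 10) - s / 10 * 0|⁻¹ = (r / 10)⁻¹ := by
    rw [show r * (1 / 10) - s / 10 * 0 = r / 10 by ring, abs_of_pos (by positivity)]
  rw [h2, lintegral_indicator hmW] at h1
  have h3 : ∫⁻ q in Dk, ov F (wmap ξ s r q)
      = ∫⁻ q, (Win ξ s r).indicator (ov F) (amap r (s / 10) 0 (1 / 10) (ξ + s) 1 q) := by
    rw [← lintegral_indicator measurableSet_Dk]
    apply lintegral_congr
    intro q
    by_cases hq : q ∈ Dk
    · rw [indicator_of_mem hq, indicator_of_mem]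
      · rfl
      · exact (wmap_mem_Win hr q).mpr hq
    · rw [indicator_of_notMem hq, indicator_of_notMem]
      exact fun h => hq ((wmap_mem_Win hr q).mp h)
  rw [h3, h1, ← mul_assoc, ← ENNReal.ofReal_mul (by positivity),
    mul_inv_cancel₀ (by positivity), ENNReal.ofReal_one, one_mul]

/-- The set of anchors is covered by few slanted strips. -/
theorem anchors {ι : Type*} [Fintype ι] (F : ι → Strip)
    (hF : ∀ i, 0 < (F i).a ^ 2 + (F i).b ^ 2) (Z G : Set (ℝ × ℝ))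
    (r0 : ℝ) (hr0 : 0 < r0) (hZy : ∀ z ∈ Z, |z.2| ≤ 1 / 100) (hZu : Z ⊆ unc F)
    (hst : ∀ z ∈ Z, Stt F z.1 0 r0)
    (hcov : ∀ z ∈ Z, ∀ p : ℝ × ℝ, |p.1 - z.1| ≤ 101 / 100 * r0 → |p.2 - 1| ≤ 1 / 10 →
      p ∈ G ∧ ∃ i, p ∈ (F i).set) :
    ∃ (u : Set (ℝ × ℝ)) (ξ s r : ℝ × ℝ → ℝ), u.Countable ∧
      (∀ b ∈ u, 0 < r b ∧ |s b| ≤ 40 * lam * r0) ∧
      (∀ a ∈ Z, ∃ b ∈ u, |a.1 - ξ b - s b * a.2| ≤ 17 * r b) ∧
      ∑' b : u, ENNReal.ofReal (r b) * ENNReal.ofReal (eta0 / 10) ≤ ∫⁻ p in G, ov F p := by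
  have hstop : ∀ z, z ∈ Z → ∃ (J : ℕ) (f : ℕ → ℝ), ChainTo F z r0 J f ∧
      ¬ Small F (z.1 - f J * z.2) (f J) (r0 / 2 ^ J) := fun z hz =>
    exists_stop F hF z (hZu hz) (hZy z hz) r0 hr0 (hst z hz)
      (fun p h1 h2 => (hcov z hz p h1 h2).2)
  choose! J f hJ using hstop
  set S : ℝ × ℝ → ℝ := fun z => f z (J z) with hS
  set R : ℝ × ℝ → ℝ := fun z => r0 / 2 ^ J z with hR
  set X : ℝ × ℝ → ℝ := fun z => z.1 - S z * z.2 with hX
  have hRpos : ∀ z, 0 < R z := fun z => by simp only [hR]; positivity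
  have hRle : ∀ z, R z ≤ r0 := fun z => div_le_self hr0.le (one_le_pow₀ (by norm_num))
  have hSb : ∀ z ∈ Z, |S z| ≤ 40 * lam * r0 := fun z hz => (hJ z hz).1.bound hr0 le_rfl
  obtain ⟨u, huZ, hdisj, hu⟩ := Vitali.exists_disjoint_subfamily_covering_enlargement
    (fun z => Win (X z) (S z) (R z)) Z R 2 (by norm_num) (fun a _ => (hRpos a).le) r0
    (fun a _ => hRle a) (fun a _ => (interior_Win _ _ _).mono interior_subset)
  have hcount : u.Countable := hdisj.countable_of_nonempty_interior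
    (fun a _ => interior_Win _ _ _)
  refine ⟨u, X, S, R, hcount, fun b hb => ⟨hRpos b, hSb b (huZ hb)⟩, ?_, ?_⟩
  · intro a ha
    obtain ⟨b, hb, ⟨p, hpa, hpb⟩, hab⟩ := hu a ha
    refine ⟨b, hb, ?_⟩
    have hbZ := huZ hb
    obtain ⟨qa, hqa, hqa'⟩ := Win_subset (hRpos a) hpa
    obtain ⟨qb, hqb, hqb'⟩ := Win_subset (hRpos b) hpb
    have hkey : |X a - X b| ≤ 16 * R b ∧ |S a - S b| ≤ 24 * R b := by
      rcases le_total (J a) (J b) with h | h
      · have h1 := meet F hF (hZy a ha) (hZy b hbZ) hr0 (hJ a ha).1 (hJ b hbZ).1 h hqa hqb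
          (hqa'.trans hqb'.symm)
        change |X a - X b| ≤ 8 * R a ∧ |S a - S b| ≤ 12 * R a at h1
        constructor <;> linarith [h1.1, h1.2]
      · have h1 := meet F hF (hZy b hbZ) (hZy a ha) hr0 (hJ b hbZ).1 (hJ a ha).1 h hqb hqa
          (hqb'.trans hqa'.symm)
        change |X b - X a| ≤ 8 * R b ∧ |S b - S a| ≤ 12 * R b at h1
        rw [abs_sub_comm, abs_sub_comm (S b)] at h1
        have := hRpos b
        constructor <;> linarith [h1.1, h1.2]
    have e1 : a.1 - X b - S b * a.2 = (X a - X b) + (S a - S b) * a.2 := by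
      simp only [hX]; ring
    rw [e1]
    refine (abs_add_le _ _).trans ?_
    rw [abs_mul]
    have h2 := mul_le_mul hkey.2 (hZy a ha) (abs_nonneg _) ((abs_nonneg _).trans hkey.2)
    have := hRpos b
    linarith [hkey.1]
  · have : Countable u := hcount.to_subtype
    have h1 : ∀ b : u, ENNReal.ofReal (R b) * ENNReal.ofReal (eta0 / 10)
        ≤ ∫⁻ p in Win (X b) (S b) (R b), ov F p := by
      intro b
      have hb := (hJ b (huZ b.2)).2
      have h2 : ENNReal.ofReal eta0 ≤ ∫⁻ q in Dk, ov F (wmap (X b) (S b) (R b) q) := by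
        unfold Small at hb
        push Not at hb
        exact hb.le
      rw [lintegral_Win F _ _ _ (hRpos b)]
      have h3 : ENNReal.ofReal (R b) * ENNReal.ofReal (eta0 / 10)
          = ENNReal.ofReal (R b / 10) * ENNReal.ofReal eta0 := by
        have := hRpos b
        rw [← ENNReal.ofReal_mul (by positivity), ← ENNReal.ofReal_mul (by positivity)]
        congr 1; ring
      rw [h3]
      exact mul_le_mul_right h2 _
    calc ∑' b : u, ENNReal.ofReal (R b) * ENNReal.ofReal (eta0 / 10)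
        ≤ ∑' b : u, ∫⁻ p in Win (X b) (S b) (R b), ov F p := ENNReal.tsum_le_tsum h1
      _ = ∫⁻ p in ⋃ b : u, Win (X b) (S b) (R b), ov F p := by
          rw [lintegral_iUnion (fun b => (isClosed_Win _ _ _).measurableSet)]
          intro b c hbc
          exact hdisj b.2 c.2 (fun h => hbc (Subtype.ext h))
      _ ≤ ∫⁻ p in G, ov F p := by
          apply lintegral_mono_set
          intro p hp
          rw [mem_iUnion] at hp
          obtain ⟨b, hb⟩ := hp
          obtain ⟨q, hq, hq'⟩ := Win_subset (hRpos b) hb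
          have hbZ := huZ b.2
          have h2 := window_box (hZy b hbZ) (hRpos b) (hRle b) (hSb b hbZ) hq
          change |(wmap (X b) (S b) (R b) q).1 - (b : ℝ × ℝ).1| ≤ _ ∧
            |(wmap (X b) (S b) (R b) q).2 - 1| ≤ _ at h2
          rw [hq'] at h2
          exact (hcov b hbZ p h2.1 h2.2).1

end Pool.Agent.Lib.MP_4a0204_co
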