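import Mathlib
import Pool.Agent.Lib.MP_4a0204_co.Rigid

set_option autoImplicit false

/-!
The measure of Archimedes of the intersection of a small disc inside the unit disc with a plank.
Here the unit disc has centre `(1, 0)` and the small disc has centre `(d, 0)`.
-/

namespace Pool.Agent.Lib.MP_4a0204_co

open MeasureTheory Set ENNReal

theorem lintegral_inv_sqrt_set (A ℓ : ℝ) (hℓ : 0 < ℓ) (J : Set ℝ) (hJ : MeasurableSet J)
    (hvol : volume J ≤ ENNReal.ofReal ℓ) :
    ∫⁻ v in J, ENNReal.ofReal (1 / √(A - v)) ≤ ENNReal.ofReal (3 * √ℓ) := by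
  have h1 : ∀ v ∈ J, ENNReal.ofReal (1 / √(A - v))
      ≤ (Ioc 0 ℓ).indicator (fun x => ENNReal.ofReal (1 / √(x - 0))) (A - v)
        + ENNReal.ofReal (1 / √ℓ) := by
    intro v _
    by_cases hv : A - v ∈ Ioc 0 ℓ
    · rw [indicator_of_mem hv, sub_zero]
      exact le_self_add
    · rw [indicator_of_notMem hv, zero_add]
      apply ENNReal.ofReal_le_ofReal
      rw [mem_Ioc, not_and_or] at hv
      rcases hv with h | h
      · push Not at h
        rw [Real.sqrt_eq_zero_of_nonpos h, show (1 : ℝ) / 0 = 0 by norm_num]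
        positivity
      · push Not at h
        apply one_div_le_one_div_of_le (Real.sqrt_pos.mpr hℓ)
        exact Real.sqrt_le_sqrt h.le
  calc ∫⁻ v in J, ENNReal.ofReal (1 / √(A - v))
      ≤ ∫⁻ v in J, ((Ioc 0 ℓ).indicator (fun x => ENNReal.ofReal (1 / √(x - 0))) (A - v)
        + ENNReal.ofReal (1 / √ℓ)) := setLIntegral_mono' hJ h1
    _ = (∫⁻ v in J, (Ioc 0 ℓ).indicator (fun x => ENNReal.ofReal (1 / √(x - 0))) (A - v))
        + ENNReal.ofReal (1 / √ℓ) * volume J := by
        rw [lintegral_add_right _ measurable_const, setLIntegral_const]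
    _ ≤ ENNReal.ofReal (2 * √ℓ) + ENNReal.ofReal (1 / √ℓ) * ENNReal.ofReal ℓ := by
        apply add_le_add _ (mul_le_mul_right hvol _)
        calc ∫⁻ v in J, (Ioc 0 ℓ).indicator (fun x => ENNReal.ofReal (1 / √(x - 0))) (A - v)
            ≤ ∫⁻ v, (Ioc 0 ℓ).indicator (fun x => ENNReal.ofReal (1 / √(x - 0))) (A - v) :=
              setLIntegral_le_lintegral _ _
          _ = ∫⁻ v, (Ioc 0 ℓ).indicator (fun x => ENNReal.ofReal (1 / √(x - 0))) v :=
              lintegral_sub_left_eq_self _ A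
          _ = ENNReal.ofReal (2 * √ℓ) := by
              rw [lintegral_indicator measurableSet_Ioc, lintegral_inv_sqrt 0 ℓ hℓ.le, sub_zero]
          _ ≤ _ := le_rfl
    _ = ENNReal.ofReal (3 * √ℓ) := by
        rw [← ENNReal.ofReal_mul (by positivity), ← ENNReal.ofReal_add (by positivity)
          (by positivity)]
        congr 1
        have : 1 / √ℓ * ℓ = √ℓ := by
          rw [one_div, inv_mul_eq_div, Real.div_sqrt]
        rw [this]; ring

theorem inv_sqrt_bound (A v : ℝ) (hA : 0 < A) :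
    1 / √(A ^ 2 - v ^ 2) ≤ 1 / √A * (1 / √(A - v) + 1 / √(A + v)) := by
  by_cases hv : A ^ 2 - v ^ 2 ≤ 0
  · rw [Real.sqrt_eq_zero_of_nonpos hv, show (1 : ℝ) / 0 = 0 by norm_num]
    positivity
  · push Not at hv
    have h1 : -A < v ∧ v < A := abs_lt.mp (abs_lt_of_sq_lt_sq (by linarith) hA.le)
    have e1 : A ^ 2 - v ^ 2 = (A - v) * (A + v) := by ring
    have hsA : 0 < √A := Real.sqrt_pos.mpr hA
    have hs1 : 0 < √(A - v) := Real.sqrt_pos.mpr (by linarith)
    have hs2 : 0 < √(A + v) := Real.sqrt_pos.mpr (by linarith)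
    rw [e1, Real.sqrt_mul (by linarith)]
    rcases le_total 0 v with h | h
    · have h2 : √A ≤ √(A + v) := Real.sqrt_le_sqrt (by linarith)
      calc 1 / (√(A - v) * √(A + v)) ≤ 1 / (√(A - v) * √A) :=
            one_div_le_one_div_of_le (by positivity) (by gcongr)
        _ = 1 / √A * (1 / √(A - v) + 0) := by rw [add_zero]; field_simp
        _ ≤ _ := by gcongr; positivity
    · have h2 : √A ≤ √(A - v) := Real.sqrt_le_sqrt (by linarith)
      calc 1 / (√(A - v) * √(A + v)) ≤ 1 / (√A * √(A + v)) :=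
            one_div_le_one_div_of_le (by positivity) (by gcongr)
        _ = 1 / √A * (0 + 1 / √(A + v)) := by rw [zero_add]; field_simp
        _ ≤ _ := by gcongr; positivity

/-- The density of the measure of Archimedes for the unit disc with centre `(1, 0)`. -/
noncomputable def dB (p : ℝ × ℝ) : ℝ≥0∞ :=
  ENNReal.ofReal (1 / (Real.pi * √(2 * p.1 - p.1 ^ 2 - p.2 ^ 2)))

theorem measurable_dB : Measurable dB := by
  unfold dB
  apply ENNReal.measurable_ofReal.comp
  fun_prop

/-- The small disc. -/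
def Hole (d ε : ℝ) : Set (ℝ × ℝ) := {p | (p.1 - d) ^ 2 + p.2 ^ 2 ≤ ε ^ 2}

theorem measurableSet_Hole (d ε : ℝ) : MeasurableSet (Hole d ε) :=
  measurableSet_le (by fun_prop) (by fun_prop)

/-- Chord comparison. -/
theorem chord {ε d a x : ℝ} (_hε : 0 < ε) (hd : ε < d) (hd1 : d ≤ 1) (ha : |a| ≤ 1)
    (hx : |x| ≤ ε) : ε ^ 2 - x ^ 2 ≤ 2 * ε * (1 - (x - a * (1 - d)) ^ 2) := by
  have ha' := abs_le.mp ha
  have hx' := abs_le.mp hx
  have hg1 : a * (1 - d) ≤ 1 - ε := by nlinarith
  have hg2 : -(1 - ε) ≤ a * (1 - d) := by nlinarith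
  set g := a * (1 - d)
  have e1 : ε ^ 2 - x ^ 2 = (ε - x) * (ε + x) := by ring
  have e2 : 1 - (x - g) ^ 2 = (1 - x + g) * (1 + x - g) := by ring
  rw [e1, e2]
  rcases le_total g x with h | h
  · have h1 : (ε - x) * 1 ≤ (1 - x + g) * (1 + x - g) :=
      mul_le_mul (by linarith) (by linarith) (by norm_num) (by linarith)
    nlinarith [mul_nonneg (by linarith : 0 ≤ ε - x) (by linarith : 0 ≤ ε + x),
      mul_nonneg (by linarith : 0 ≤ ε - x) (by linarith : 0 ≤ ε - x)]
  · have h1 : 1 * (ε + x) ≤ (1 - x + g) * (1 + x - g) :=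
      mul_le_mul (by linarith) (by linarith) (by linarith) (by linarith)
    nlinarith [mul_nonneg (by linarith : 0 ≤ ε - x) (by linarith : 0 ≤ ε + x),
      mul_nonneg (by linarith : 0 ≤ ε + x) (by linarith : 0 ≤ ε + x)]

/-- The integral of the density along a chord of the hole; here `ε = τ ^ 4 / 128`. -/
theorem chord_integral {τ ε d a b q : ℝ} (hτ : 0 < τ) (hε : ε = τ ^ 4 / 128) (hd : ε < d)
    (hd1 : d ≤ 1) (ha : |a| ≤ 1) :
    ∫⁻ p in {p : ℝ | (q - a * d) ^ 2 + (p + b * d) ^ 2 ≤ ε ^ 2},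
      ENNReal.ofReal (1 / (Real.pi * √((1 - (q - a) ^ 2) - (p + b) ^ 2)))
      ≤ ENNReal.ofReal τ := by
  have hε0 : 0 < ε := by rw [hε]; positivity
  set J : Set ℝ := {p : ℝ | (q - a * d) ^ 2 + (p + b * d) ^ 2 ≤ ε ^ 2} with hJdef
  have hJm : MeasurableSet J := measurableSet_le (by fun_prop) (by fun_prop)
  by_cases hK : 1 - (q - a) ^ 2 ≤ 0
  · have h1 : ∀ p ∈ J, ENNReal.ofReal (1 / (Real.pi * √((1 - (q - a) ^ 2) - (p + b) ^ 2))) = 0 := by
      intro p _
      rw [Real.sqrt_eq_zero_of_nonpos (by nlinarith [sq_nonneg (p + b)])]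
      simp
    rw [setLIntegral_congr_fun hJm h1]
    simp
  push Not at hK
  by_cases hx : ε < |q - a * d|
  · have h1 : J = ∅ := by
      ext p
      simp only [hJdef, mem_ofPred_eq, mem_empty_iff_false, iff_false, not_le]
      have := sq_lt_sq' (by linarith [abs_nonneg (q - a * d)]) hx
      rw [sq_abs] at this
      nlinarith [sq_nonneg (p + b * d)]
    rw [h1]; simp
  push Not at hx
  set A := √(1 - (q - a) ^ 2) with hA
  have hA0 : 0 < A := Real.sqrt_pos.mpr hK
  have hAsq : A ^ 2 = 1 - (q - a) ^ 2 := Real.sq_sqrt hK.le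
  set k := √(ε ^ 2 - (q - a * d) ^ 2) with hk
  have hx2 : (q - a * d) ^ 2 ≤ ε ^ 2 := by
    rw [← sq_abs]; exact pow_le_pow_left₀ (abs_nonneg _) hx 2
  have hk0 : 0 ≤ k := Real.sqrt_nonneg _
  have hksq : k ^ 2 = ε ^ 2 - (q - a * d) ^ 2 := Real.sq_sqrt (by linarith)
  have hkA : k ≤ τ ^ 2 / 8 * A := by
    have h1 := chord hε0 hd hd1 ha hx
    have e1 : q - a * d - a * (1 - d) = q - a := by ring
    rw [e1, ← hAsq, ← hksq] at h1
    apply le_of_sq_le_sq _ (by positivity)
    rw [mul_pow]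
    have e2 : (τ ^ 2 / 8) ^ 2 = 2 * ε := by rw [hε]; ring
    rw [e2]; exact h1
  set ℓ := τ ^ 2 / 4 * A with hℓ
  have hℓ0 : 0 < ℓ := by positivity
  have hJsub : ∀ c : ℝ, J ⊆ Icc (-b * d - k) (-b * d + k) := by
    intro _ p hp
    have h1 : (q - a * d) ^ 2 + (p + b * d) ^ 2 ≤ ε ^ 2 := hp
    have h2 : (p + b * d) ^ 2 ≤ k ^ 2 := by rw [hksq]; linarith
    have h3 := abs_le.mp (abs_le_of_sq_le_sq h2 hk0)
    constructor <;> linarith [h3.1, h3.2]
  have hJvol : volume J ≤ ENNReal.ofReal ℓ := by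
    refine (measure_mono (hJsub 0)).trans ?_
    rw [Real.volume_Icc]
    apply ENNReal.ofReal_le_ofReal
    rw [hℓ]; linarith
  have hpi := Real.pi_gt_three
  have h1 : ∀ p ∈ J, ENNReal.ofReal (1 / (Real.pi * √((1 - (q - a) ^ 2) - (p + b) ^ 2)))
      ≤ ENNReal.ofReal (1 / (3 * √A)) * (ENNReal.ofReal (1 / √((A - b) - p))
        + ENNReal.ofReal (1 / √((A - b) - (-2 * b - p)))) := by
    intro p _
    rw [← ENNReal.ofReal_add (by positivity) (by positivity),
      ← ENNReal.ofReal_mul (by positivity)]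
    apply ENNReal.ofReal_le_ofReal
    have h2 := inv_sqrt_bound A (p + b) hA0
    rw [← hAsq]
    have e1 : A - b - p = A - (p + b) := by ring
    have e2 : A - b - (-2 * b - p) = A + (p + b) := by ring
    rw [e1, e2]
    set X := 1 / √(A ^ 2 - (p + b) ^ 2) with hX
    have hX0 : 0 ≤ X := by positivity
    calc 1 / (Real.pi * √(A ^ 2 - (p + b) ^ 2)) = 1 / Real.pi * X := by rw [hX]; field_simp
      _ ≤ 1 / 3 * X := by
          apply mul_le_mul_of_nonneg_right _ hX0
          exact one_div_le_one_div_of_le (by norm_num) hpi.le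
      _ ≤ 1 / 3 * (1 / √A * (1 / √(A - (p + b)) + 1 / √(A + (p + b)))) := by
          apply mul_le_mul_of_nonneg_left h2 (by norm_num)
      _ = _ := by field_simp
  have hneg : ∫⁻ p in J, ENNReal.ofReal (1 / √((A - b) - (-2 * b - p)))
      ≤ ENNReal.ofReal (3 * √ℓ) := by
    have hmp : MeasurePreserving (fun p : ℝ => -2 * b - p) volume volume :=
      Measure.measurePreserving_sub_left volume (-2 * b)
    set J' : Set ℝ := (fun p : ℝ => -2 * b - p) ⁻¹' J with hJ'
    have hJ'm : MeasurableSet J' := hmp.measurable hJm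
    have hJ'vol : volume J' ≤ ENNReal.ofReal ℓ := by
      rw [hJ', hmp.measure_preimage hJm.nullMeasurableSet]; exact hJvol
    have h2 := lintegral_inv_sqrt_set (A - b) ℓ hℓ0 J' hJ'm hJ'vol
    refine le_trans (le_of_eq ?_) h2
    have hmm : Measurable fun v : ℝ => ENNReal.ofReal (1 / √(A - b - v)) :=
      ENNReal.measurable_ofReal.comp (by fun_prop)
    rw [← lintegral_indicator hJm, ← lintegral_indicator hJ'm,
      ← hmp.lintegral_comp (hmm.indicator hJ'm)]
    apply lintegral_congr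
    intro p
    have e : (-2 * b - p ∈ J') ↔ p ∈ J := by
      simp only [hJ', mem_preimage]
      rw [show -2 * b - (-2 * b - p) = p by ring]
    by_cases hp : p ∈ J
    · rw [indicator_of_mem hp, indicator_of_mem (e.mpr hp)]
    · rw [indicator_of_notMem hp, indicator_of_notMem (fun h => hp (e.mp h))]
  calc ∫⁻ p in J, ENNReal.ofReal (1 / (Real.pi * √((1 - (q - a) ^ 2) - (p + b) ^ 2)))
      ≤ ∫⁻ p in J, ENNReal.ofReal (1 / (3 * √A)) * (ENNReal.ofReal (1 / √((A - b) - p))
        + ENNReal.ofReal (1 / √((A - b) - (-2 * b - p)))) := setLIntegral_mono' hJm h1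
    _ = ENNReal.ofReal (1 / (3 * √A)) * ((∫⁻ p in J, ENNReal.ofReal (1 / √((A - b) - p)))
        + ∫⁻ p in J, ENNReal.ofReal (1 / √((A - b) - (-2 * b - p)))) := by
        have hmm : Measurable fun v : ℝ => ENNReal.ofReal (1 / √(A - b - v)) :=
          ENNReal.measurable_ofReal.comp (by fun_prop)
        rw [lintegral_const_mul' _ _ ENNReal.ofReal_ne_top, lintegral_add_left hmm]
    _ ≤ ENNReal.ofReal (1 / (3 * √A)) * (ENNReal.ofReal (3 * √ℓ) + ENNReal.ofReal (3 * √ℓ)) := by
        apply mul_le_mul_right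
        exact add_le_add (lintegral_inv_sqrt_set (A - b) ℓ hℓ0 J hJm hJvol) hneg
    _ = ENNReal.ofReal τ := by
        rw [← ENNReal.ofReal_add (by positivity) (by positivity),
          ← ENNReal.ofReal_mul (by positivity)]
        congr 1
        have e1 : √ℓ = τ / 2 * √A := by
          rw [hℓ, Real.sqrt_mul (by positivity)]
          congr 1
          rw [show τ ^ 2 / 4 = (τ / 2) ^ 2 by ring, Real.sqrt_sq (by positivity)]
        have hsA : 0 < √A := Real.sqrt_pos.mpr hA0
        rw [e1]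
        field_simp
        ring

/-- The measure of the part of a plank inside the hole. -/
theorem hole_strip_unit {τ ε d : ℝ} (hτ : 0 < τ) (hε : ε = τ ^ 4 / 128) (hd : ε < d)
    (hd1 : d ≤ 1) (S : Strip) (hS : S.a ^ 2 + S.b ^ 2 = 1) :
    ∫⁻ p in Hole d ε ∩ S.set, dB p ≤ ENNReal.ofReal (τ * (S.hi - S.lo)) := by
  have hm : MeasurableSet (Hole d ε ∩ S.set) :=
    (measurableSet_Hole d ε).inter (measurableSet_set S)
  have ha : |S.a| ≤ 1 := abs_le_of_sq_le_sq (by nlinarith [sq_nonneg S.b]) (by norm_num)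
  rw [← lintegral_indicator hm]
  have h1 := lintegral_amap S.a (-S.b) S.b S.a 0 0 (by nlinarith) _ (measurable_dB.indicator hm)
  have hdet : |S.a * S.a - -S.b * S.b|⁻¹ = 1 := by
    have : S.a * S.a - -S.b * S.b = 1 := by nlinarith
    rw [this]; simp
  rw [hdet, ENNReal.ofReal_one, one_mul] at h1
  rw [← h1]
  have h2 : ∀ x : ℝ × ℝ, (Hole d ε ∩ S.set).indicator dB (amap S.a (-S.b) S.b S.a 0 0 x)
      = (Icc S.lo S.hi).indicator (fun _ => ({p : ℝ | (x.1 - S.a * d) ^ 2 + (p + S.b * d) ^ 2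
        ≤ ε ^ 2}).indicator (fun p => ENNReal.ofReal (1 / (Real.pi *
          √((1 - (x.1 - S.a) ^ 2) - (p + S.b) ^ 2)))) x.2) x.1 := by
    intro x
    have e1 : S.form (amap S.a (-S.b) S.b S.a 0 0 x) = x.1 := by
      simp only [Strip.form, amap]
      linear_combination x.1 * hS
    have e2 : ((amap S.a (-S.b) S.b S.a 0 0 x).1 - d) ^ 2 + (amap S.a (-S.b) S.b S.a 0 0 x).2 ^ 2
        = (x.1 - S.a * d) ^ 2 + (x.2 + S.b * d) ^ 2 := by
      simp only [amap]
      linear_combination (x.1 ^ 2 + x.2 ^ 2 - d ^ 2) * hS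
    have e3 : dB (amap S.a (-S.b) S.b S.a 0 0 x) = ENNReal.ofReal (1 / (Real.pi *
          √((1 - (x.1 - S.a) ^ 2) - (x.2 + S.b) ^ 2))) := by
      unfold dB
      congr 4
      simp only [amap]
      linear_combination (-(x.1 ^ 2 + x.2 ^ 2) + 1) * hS
    by_cases h3 : x.1 ∈ Icc S.lo S.hi
    · rw [indicator_of_mem h3]
      by_cases h4 : (x.1 - S.a * d) ^ 2 + (x.2 + S.b * d) ^ 2 ≤ ε ^ 2
      · rw [indicator_of_mem, indicator_of_mem (show x.2 ∈ {p : ℝ |
          (x.1 - S.a * d) ^ 2 + (p + S.b * d) ^ 2 ≤ ε ^ 2} from h4), e3]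
        refine ⟨?_, ?_⟩
        · unfold Hole; rw [mem_ofPred_eq, e2]; exact h4
        · rw [Strip.mem_set, e1]; exact h3
      · rw [indicator_of_notMem, indicator_of_notMem (show x.2 ∉ {p : ℝ |
          (x.1 - S.a * d) ^ 2 + (p + S.b * d) ^ 2 ≤ ε ^ 2} from h4)]
        intro h5
        apply h4
        have := h5.1
        unfold Hole at this
        rw [mem_ofPred_eq, e2] at this
        exact this
    · rw [indicator_of_notMem h3, indicator_of_notMem]
      intro h5
      apply h3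
      have := h5.2
      rw [Strip.mem_set, e1] at this
      exact this
  rw [lintegral_congr h2]
  rw [Measure.volume_eq_prod, lintegral_prod]
  · calc ∫⁻ x : ℝ, ∫⁻ y : ℝ, (Icc S.lo S.hi).indicator (fun _ =>
          ({p : ℝ | (x - S.a * d) ^ 2 + (p + S.b * d) ^ 2 ≤ ε ^ 2}).indicator
          (fun p => ENNReal.ofReal (1 / (Real.pi * √((1 - (x - S.a) ^ 2) - (p + S.b) ^ 2)))) y) x
        ≤ ∫⁻ x : ℝ, (Icc S.lo S.hi).indicator (fun _ => ENNReal.ofReal τ) x := by
          apply lintegral_mono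
          intro x
          beta_reduce
          by_cases h3 : x ∈ Icc S.lo S.hi
          · simp only [indicator_of_mem h3]
            rw [lintegral_indicator (measurableSet_le (by fun_prop) (by fun_prop))]
            exact chord_integral hτ hε hd hd1 ha
          · simp only [indicator_of_notMem h3]
            simp
      _ = ENNReal.ofReal (τ * (S.hi - S.lo)) := by
          rw [lintegral_indicator measurableSet_Icc, setLIntegral_const, Real.volume_Icc,
            ← ENNReal.ofReal_mul hτ.le]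
  · apply Measurable.aemeasurable
    have : (fun x : ℝ × ℝ => (Icc S.lo S.hi).indicator (fun _ => ({p : ℝ | (x.1 - S.a * d) ^ 2
        + (p + S.b * d) ^ 2 ≤ ε ^ 2}).indicator (fun p => ENNReal.ofReal (1 / (Real.pi *
          √((1 - (x.1 - S.a) ^ 2) - (p + S.b) ^ 2)))) x.2) x.1)
        = fun x => (Hole d ε ∩ S.set).indicator dB (amap S.a (-S.b) S.b S.a 0 0 x) :=
      funext fun x => (h2 x).symm
    rw [this]
    exact (measurable_dB.indicator hm).comp (measurable_amap _ _ _ _ _ _)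

theorem hole_strip {τ ε d : ℝ} (hτ : 0 < τ) (hε : ε = τ ^ 4 / 128) (hd : ε < d)
    (hd1 : d ≤ 1) (S : Strip) (ν : ℝ) (hν : 0 < ν) (hS : ν ^ 2 ≤ S.a ^ 2 + S.b ^ 2)
    (hw : S.lo ≤ S.hi) :
    ∫⁻ p in Hole d ε ∩ S.set, dB p ≤ ENNReal.ofReal (τ * (S.hi - S.lo) / ν) := by
  have hpos : 0 < S.a ^ 2 + S.b ^ 2 := lt_of_lt_of_le (by positivity) hS
  have h1 := hole_strip_unit hτ hε hd hd1 S.unit (S.unit_normal hpos)
  rw [S.unit_set hpos] at h1
  refine h1.trans (ENNReal.ofReal_le_ofReal ?_)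
  simp only [Strip.unit]
  rw [← sub_div, ← mul_div_assoc]
  apply div_le_div_of_nonneg_left _ hν
  · exact Real.le_sqrt_of_sq_le hS
  · exact mul_nonneg hτ.le (by linarith)

end Pool.Agent.Lib.MP_4a0204_co
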