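import Mathlib
import Pool.Agent.Lib.MP_4a0204_co.Chain
import Pool.Agent.Lib.MP_4a0204_co.Hole

set_option autoImplicit false

/-!
Transfer of the multi-scale argument through an affine frame.
-/

namespace Pool.Agent.Lib.MP_4a0204_co

open MeasureTheory Set ENNReal

theorem eta0_pos : 0 < eta0 := by unfold eta0; norm_num

theorem lam_eq : lam = 1 / 10000 := rfl

theorem pull_pos {a b c d e f : ℝ} (hΔ : a * d - b * c ≠ 0) (S : Strip)
    (hS : 0 < S.a ^ 2 + S.b ^ 2) :
    0 < (S.pull a b c d e f).a ^ 2 + (S.pull a b c d e f).b ^ 2 := by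
  simp only [Strip.pull]
  by_contra hcon
  push Not at hcon
  have h1 : S.a * a + S.b * c = 0 := by
    have : (S.a * a + S.b * c) ^ 2 ≤ 0 := by nlinarith [sq_nonneg (S.a * b + S.b * d)]
    exact pow_eq_zero_iff (two_ne_zero) |>.mp (le_antisymm this (sq_nonneg _))
  have h2 : S.a * b + S.b * d = 0 := by
    have : (S.a * b + S.b * d) ^ 2 ≤ 0 := by nlinarith [sq_nonneg (S.a * a + S.b * c)]
    exact pow_eq_zero_iff (two_ne_zero) |>.mp (le_antisymm this (sq_nonneg _))
  have h3 : S.a = 0 := by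
    have : S.a * (a * d - b * c) = 0 := by linear_combination d * h1 - c * h2
    exact (mul_eq_zero.mp this).resolve_right hΔ
  have h4 : S.b = 0 := by
    have : S.b * (a * d - b * c) = 0 := by linear_combination a * h2 - b * h1
    exact (mul_eq_zero.mp this).resolve_right hΔ
  rw [h3, h4] at hS
  norm_num at hS

theorem lintegral_preimage {ι : Type*} [Fintype ι] (F : ι → Strip) {a b c d e f : ℝ}
    (hΔ : a * d - b * c ≠ 0) (G : Set (ℝ × ℝ)) (hG : MeasurableSet G) :
    ∫⁻ p in amap a b c d e f ⁻¹' G, ov F (amap a b c d e f p)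
      = ENNReal.ofReal (|a * d - b * c|⁻¹) * ∫⁻ p in G, ov F p := by
  rw [← lintegral_indicator hG, ← lintegral_amap a b c d e f hΔ _ ((measurable_ov F).indicator hG),
    ← lintegral_indicator ((measurable_amap _ _ _ _ _ _) hG)]
  apply lintegral_congr
  intro p
  by_cases hp : amap a b c d e f p ∈ G
  · rw [indicator_of_mem hp, indicator_of_mem (show p ∈ amap a b c d e f ⁻¹' G from hp)]
  · rw [indicator_of_notMem hp, indicator_of_notMem (show p ∉ amap a b c d e f ⁻¹' G from hp)]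

theorem frame {ι : Type*} [Fintype ι] (F : ι → Strip) (hF : ∀ i, 0 < (F i).a ^ 2 + (F i).b ^ 2)
    {τ ε d0 : ℝ} (hτ : 0 < τ) (hε : ε = τ ^ 4 / 128) (hd : ε < d0) (hd1 : d0 ≤ 1)
    (a b c d e f : ℝ) (hΔ : a * d - b * c ≠ 0) (Z G : Set (ℝ × ℝ)) (hG : MeasurableSet G)
    (hZu : Z ⊆ unc F) (hZH : Z ⊆ Hole d0 ε)
    (hZy : ∀ z, amap a b c d e f z ∈ Z → |z.2| ≤ 1 / 100)
    (hst : ∀ z, amap a b c d e f z ∈ Z →
      Stt (fun i => (F i).pull a b c d e f) z.1 0 (1 / 100))
    (hcov : ∀ z, amap a b c d e f z ∈ Z → ∀ p : ℝ × ℝ, |p.1 - z.1| ≤ 101 / 10000 →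
      |p.2 - 1| ≤ 1 / 10 → amap a b c d e f p ∈ G ∧ ∃ i, amap a b c d e f p ∈ (F i).set)
    (ν : ℝ) (hν : 0 < ν) (hnu : ∀ s : ℝ, |s| ≤ 1 / 10000 →
      (ν * (a * d - b * c)) ^ 2 ≤ (d + s * c) ^ 2 + (b + s * a) ^ 2)
    (Dm : ℝ) (_hDm : 0 ≤ Dm) (hD : ∀ p ∈ G, 1 ≤ ENNReal.ofReal Dm * dB p) :
    ∫⁻ p in Z, dB p ≤ ENNReal.ofReal (τ * 340 / (ν * eta0) / |a * d - b * c| * Dm)
      * ∫⁻ p in G, ov F p * dB p := by
  set Δ := a * d - b * c with hΔdef
  have heta := eta0_pos
  set N := amap a b c d e f with hN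
  set F' : ι → Strip := fun i => (F i).pull a b c d e f with hF'
  have hmem' : ∀ i q, q ∈ (F' i).set ↔ N q ∈ (F i).set := fun i q => Strip.mem_pull _ _ _ _ _ _ _ _
  obtain ⟨u, ξ, s, r, hcount, hur, hcovZ, hsum⟩ := anchors F'
    (fun i => pull_pos hΔ (F i) (hF i)) (N ⁻¹' Z) (N ⁻¹' G) (1 / 100) (by norm_num)
    (fun z hz => hZy z hz)
    (fun z hz i hi => hZu hz i ((hmem' i z).mp hi))
    (fun z hz => hst z hz)
    (fun z hz p h1 h2 => by
      have := hcov z hz p (by linarith) h2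
      refine ⟨this.1, ?_⟩
      obtain ⟨i, hi⟩ := this.2
      exact ⟨i, (hmem' i p).mpr hi⟩)
  have : Countable u := hcount.to_subtype
  -- the slanted strips in the original coordinates
  set Sb : ℝ × ℝ → Strip := fun z =>
    ⟨(d + s z * c) / Δ, -(b + s z * a) / Δ,
      ξ z - 17 * r z + ((d + s z * c) * e - (b + s z * a) * f) / Δ,
      ξ z + 17 * r z + ((d + s z * c) * e - (b + s z * a) * f) / Δ⟩ with hSb
  have hform : ∀ z q, (Sb z).form (N q) = q.1 - s z * q.2
      + ((d + s z * c) * e - (b + s z * a) * f) / Δ := by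
    intro z q
    simp only [hSb, Strip.form, hN, amap]
    field_simp
    rw [hΔdef]
    ring
  have hZsub : Z ⊆ ⋃ z : u, (Hole d0 ε ∩ (Sb z).set) := by
    intro p hp
    set z' : ℝ × ℝ := ((d * (p.1 - e) - b * (p.2 - f)) / Δ, (-c * (p.1 - e) + a * (p.2 - f)) / Δ)
      with hz'
    have hNz : N z' = p := by
      simp only [hN, amap, hz']
      ext
      · simp only; field_simp; rw [hΔdef]; ring
      · simp only; field_simp; rw [hΔdef]; ring
    obtain ⟨w, hw, hwz⟩ := hcovZ z' (show N z' ∈ Z by rw [hNz]; exact hp)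
    rw [mem_iUnion]
    refine ⟨⟨w, hw⟩, hZH hp, ?_⟩
    rw [Strip.mem_set, ← hNz, hform]
    simp only [hSb]
    have h1 := abs_le.mp hwz
    constructor <;> linarith [h1.1, h1.2]
  have hstrip : ∀ z : u, ∫⁻ p in Hole d0 ε ∩ (Sb z).set, dB p
      ≤ ENNReal.ofReal (τ * 340 / (ν * eta0))
        * (ENNReal.ofReal (r z) * ENNReal.ofReal (eta0 / 10)) := by
    intro z
    have hz := hur z z.2
    have h1 := hole_strip hτ hε hd hd1 (Sb z) ν hν (by
      simp only [hSb]
      rw [div_pow, div_pow, neg_sq, ← add_div, le_div_iff₀ (by positivity), ← mul_pow]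
      apply hnu
      have := hz.2
      rw [lam_eq] at this
      linarith) (by simp only [hSb]; linarith [hz.1])
    refine h1.trans (le_of_eq ?_)
    have hr := hz.1
    rw [← ENNReal.ofReal_mul hr.le, ← ENNReal.ofReal_mul (by positivity)]
    congr 1
    simp only [hSb]
    field_simp
    ring
  calc ∫⁻ p in Z, dB p ≤ ∫⁻ p in ⋃ z : u, (Hole d0 ε ∩ (Sb z).set), dB p :=
        lintegral_mono_set hZsub
    _ ≤ ∑' z : u, ∫⁻ p in Hole d0 ε ∩ (Sb z).set, dB p := lintegral_iUnion_le _ _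
    _ ≤ ∑' z : u, ENNReal.ofReal (τ * 340 / (ν * eta0))
        * (ENNReal.ofReal (r z) * ENNReal.ofReal (eta0 / 10)) := ENNReal.tsum_le_tsum hstrip
    _ = ENNReal.ofReal (τ * 340 / (ν * eta0))
        * ∑' z : u, ENNReal.ofReal (r z) * ENNReal.ofReal (eta0 / 10) := ENNReal.tsum_mul_left
    _ ≤ ENNReal.ofReal (τ * 340 / (ν * eta0)) * ∫⁻ p in N ⁻¹' G, ov F' p :=
        mul_le_mul_right hsum _
    _ = ENNReal.ofReal (τ * 340 / (ν * eta0)) * (ENNReal.ofReal (|Δ|⁻¹) * ∫⁻ p in G, ov F p) := by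
        congr 1
        simp only [hF', ov_pull]
        exact lintegral_preimage F hΔ G hG
    _ ≤ ENNReal.ofReal (τ * 340 / (ν * eta0)) * (ENNReal.ofReal (|Δ|⁻¹)
        * (ENNReal.ofReal Dm * ∫⁻ p in G, ov F p * dB p)) := by
        apply mul_le_mul_right
        apply mul_le_mul_right
        rw [← lintegral_const_mul' _ _ ENNReal.ofReal_ne_top]
        apply setLIntegral_mono' hG
        intro p hp
        calc ov F p = ov F p * 1 := (mul_one _).symm
          _ ≤ ov F p * (ENNReal.ofReal Dm * dB p) := mul_le_mul_right (hD p hp) _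
          _ = _ := by ring
    _ = _ := by
        rw [← mul_assoc, ← mul_assoc, ← ENNReal.ofReal_mul (by positivity),
          ← ENNReal.ofReal_mul (by positivity)]
        congr 2

end Pool.Agent.Lib.MP_4a0204_co
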