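import Mathlib
import Pool.Agent.Lib.MP_4a0204_co.Frame

set_option autoImplicit false

/-!
Pictures at scale `ρ` near the boundary point `(0, 0)` of the unit disc with centre `(1, 0)`.
-/

namespace Pool.Agent.Lib.MP_4a0204_co

open MeasureTheory Set ENNReal

/-- Points of the hole lie near the axis. -/
theorem hole_parabola {d ε : ℝ} (hε : 0 < ε) (hd : ε < d) {p : ℝ × ℝ} (hp : p ∈ Hole d ε) :
    0 < p.1 ∧ p.2 ^ 2 ≤ 2 * ε * p.1 := by
  have h1 : (p.1 - d) ^ 2 + p.2 ^ 2 ≤ ε ^ 2 := hp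
  have h2 := abs_le.mp (abs_le_of_sq_le_sq (a := p.1 - d) (b := ε) (by nlinarith [sq_nonneg p.2])
    hε.le)
  refine ⟨by linarith, ?_⟩
  nlinarith

/-- The picture map at scale `ρ`. -/
noncomputable def pic (ρ : ℝ) : ℝ × ℝ → ℝ × ℝ := amap ρ 0 0 (√ρ) ρ 0

theorem pic_apply (ρ : ℝ) (q : ℝ × ℝ) : pic ρ q = (ρ * (q.1 + 1), √ρ * q.2) := by
  simp only [pic, amap]
  ext <;> simp <;> ring

/-- The planks in the picture at scale `ρ`. -/
noncomputable def picS (ρ : ℝ) (S : Strip) : Strip := S.pull ρ 0 0 (√ρ) ρ 0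

theorem picS_a (ρ : ℝ) (S : Strip) : (picS ρ S).a = S.a * ρ := by simp [picS, Strip.pull]

theorem picS_b (ρ : ℝ) (S : Strip) : (picS ρ S).b = S.b * √ρ := by simp [picS, Strip.pull]

theorem mem_picS (ρ : ℝ) (S : Strip) (q : ℝ × ℝ) : q ∈ (picS ρ S).set ↔ pic ρ q ∈ S.set :=
  Strip.mem_pull _ _ _ _ _ _ _ _

/-- The angular tolerance. -/
noncomputable def om1 : ℝ := 1 / 4000000

/-- The area tolerance. -/
noncomputable def del1 : ℝ := 1 / 800000

/-- Points of the picture in no plank which is nearly parallel to the direction `e`. -/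
def npset {ι : Type*} (F : ι → Strip) (ρ : ℝ) (e : ℝ × ℝ) : Set (ℝ × ℝ) :=
  {q | q.1 ^ 2 + q.2 ^ 2 ≤ (49 / 50) ^ 2 ∧ ∀ i, q ∈ (picS ρ (F i)).set →
    om1 ^ 2 * ((picS ρ (F i)).a ^ 2 + (picS ρ (F i)).b ^ 2)
      < ((picS ρ (F i)).a * e.2 - (picS ρ (F i)).b * e.1) ^ 2}

/-- The planks of the picture at scale `ρ` are nearly parallel, with normal direction `e`. -/
def NP {ι : Type*} (F : ι → Strip) (ρ : ℝ) (e : ℝ × ℝ) : Prop :=
  e.1 ^ 2 + e.2 ^ 2 = 1 ∧ volume (npset F ρ e) ≤ ENNReal.ofReal del1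

/-- The threshold for the overlap in a picture. -/
noncomputable def c0 : ℝ := 1 / 10 ^ 24

/-- The hypothesis: the planks cover the unit disc with centre `(1, 0)` except for the hole. -/
def Covers {ι : Type*} (F : ι → Strip) (d ε : ℝ) : Prop :=
  ∀ p : ℝ × ℝ, (p.1 - 1) ^ 2 + p.2 ^ 2 ≤ 1 → p ∉ Hole d ε → ∃ i, p ∈ (F i).set

theorem dens_lower {ρ X : ℝ} (hρ : 0 < ρ) (hX : 0 < X) (hX4 : X ≤ 4 * ρ) :
    1 ≤ 7 * √ρ * (1 / (Real.pi * √X)) := by
  have h1 : √X ≤ 2 * √ρ := by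
    rw [Real.sqrt_le_left (by positivity), mul_pow, Real.sq_sqrt hρ.le]
    linarith
  have h2 : 0 < √X := Real.sqrt_pos.mpr hX
  have hpi := Real.pi_lt_d2
  have hpi0 := Real.pi_pos
  rw [mul_one_div, le_div_iff₀ (by positivity), one_mul]
  nlinarith

theorem pic_in_disc {ρ : ℝ} (hρ : 0 < ρ) (hρ1 : ρ ≤ 1) (q : ℝ × ℝ) :
    2 * (pic ρ q).1 - (pic ρ q).1 ^ 2 - (pic ρ q).2 ^ 2 ≥ ρ * (1 - q.1 ^ 2 - q.2 ^ 2) := by
  rw [pic_apply]
  simp only
  rw [mul_pow (√ρ), Real.sq_sqrt hρ.le]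
  nlinarith [mul_nonneg (mul_nonneg hρ.le (by linarith : 0 ≤ 1 - ρ)) (sq_nonneg (q.1 + 1))]

theorem np_exists {ι : Type*} [Fintype ι] (F : ι → Strip)
    (hF : ∀ i, 0 < (F i).a ^ 2 + (F i).b ^ 2) {d ε : ℝ} (hε : 0 < ε) (hε1 : ε ≤ 1 / 10 ^ 50)
    (hd : ε < d) (hcov : Covers F d ε) {ρ : ℝ} (hρ : 0 < ρ) (hρ1 : ρ ≤ 1)
    (hsmall : ∫⁻ p in {p : ℝ × ℝ | p.1 ≤ 2 * ρ}, ov F p * dB p ≤ ENNReal.ofReal (c0 * ρ)) :
    (∃ e, NP F ρ e) ∧
      ∫⁻ q in {q : ℝ × ℝ | q.1 ^ 2 + q.2 ^ 2 < 1}, ov F (pic ρ q) ≤ ENNReal.ofReal (1 / 100) := by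
  classical
  have hsρ : 0 < √ρ := Real.sqrt_pos.mpr hρ
  have hsρ2 : √ρ ^ 2 = ρ := Real.sq_sqrt hρ.le
  set D : Set (ℝ × ℝ) := {q : ℝ × ℝ | q.1 ^ 2 + q.2 ^ 2 < 1} with hD
  have hDm : MeasurableSet D := measurableSet_lt (by fun_prop) (by fun_prop)
  set κ := 2 * √ε with hκ
  have hsε : √ε ≤ 1 / 10 ^ 25 := by
    rw [Real.sqrt_le_left (by positivity)]
    refine hε1.trans (le_of_eq ?_)
    norm_num
  have hκ0 : 0 ≤ κ := by positivity
  -- the overlap in the picture
  set G : Set (ℝ × ℝ) := {p : ℝ × ℝ | ((p.1 - ρ) / ρ) ^ 2 + (p.2 / √ρ) ^ 2 < 1} with hG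
  have hGm : MeasurableSet G := measurableSet_lt (by fun_prop) (by fun_prop)
  have hpre : amap ρ 0 0 (√ρ) ρ 0 ⁻¹' G = D := by
    ext q
    simp only [mem_preimage, hG, hD, mem_ofPred_eq, amap]
    have e1 : (ρ * q.1 + 0 * q.2 + ρ - ρ) / ρ = q.1 := by field_simp; ring
    have e2 : (0 * q.1 + √ρ * q.2 + 0) / √ρ = q.2 := by field_simp; ring
    rw [e1, e2]
  have hov1 : ∫⁻ q in D, ov F (pic ρ q) ≤ ENNReal.ofReal (7 * c0) := by
    have h1 := lintegral_preimage F (a := ρ) (b := 0) (c := 0) (d := √ρ) (e := ρ) (f := 0)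
      (by nlinarith [mul_pos hρ hsρ]) G hGm
    rw [hpre] at h1
    have h2 : |ρ * √ρ - 0 * 0|⁻¹ = (ρ * √ρ)⁻¹ := by
      rw [mul_zero, sub_zero, abs_of_pos (by positivity)]
    rw [h2] at h1
    change ∫⁻ q in D, ov F (amap ρ 0 0 (√ρ) ρ 0 q) ≤ _
    rw [h1]
    have h3 : ∫⁻ p in G, ov F p ≤ ENNReal.ofReal (7 * √ρ) * ENNReal.ofReal (c0 * ρ) := by
      calc ∫⁻ p in G, ov F p ≤ ∫⁻ p in G, ENNReal.ofReal (7 * √ρ) * (ov F p * dB p) := by
            apply setLIntegral_mono' hGm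
            intro p hp
            have hp' : ((p.1 - ρ) / ρ) ^ 2 + (p.2 / √ρ) ^ 2 < 1 := hp
            set q : ℝ × ℝ := ((p.1 - ρ) / ρ, p.2 / √ρ) with hq
            have hpq : pic ρ q = p := by
              rw [pic_apply, hq]
              ext
              · simp only; field_simp; ring
              · simp only; field_simp
            have h4 := pic_in_disc hρ hρ1 q
            rw [hpq] at h4
            have h5 : q.1 ^ 2 + q.2 ^ 2 < 1 := hp'
            have h6 : 0 < 2 * p.1 - p.1 ^ 2 - p.2 ^ 2 := by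
              have : 0 < ρ * (1 - q.1 ^ 2 - q.2 ^ 2) := mul_pos hρ (by linarith)
              linarith
            have h7 : q.1 ≤ 1 := by nlinarith [sq_nonneg q.2, sq_nonneg (q.1 - 1)]
            have h8 : p.1 ≤ 2 * ρ := by
              have : p.1 = ρ * (q.1 + 1) := by rw [← hpq, pic_apply]
              rw [this]; nlinarith
            calc ov F p = ov F p * 1 := (mul_one _).symm
              _ ≤ ov F p * (ENNReal.ofReal (7 * √ρ) * dB p) := by
                  apply mul_le_mul_right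
                  unfold dB
                  rw [← ENNReal.ofReal_mul (by positivity), ← ENNReal.ofReal_one]
                  apply ENNReal.ofReal_le_ofReal
                  apply dens_lower hρ h6
                  nlinarith [sq_nonneg p.1, sq_nonneg p.2]
              _ = _ := by ring
        _ = ENNReal.ofReal (7 * √ρ) * ∫⁻ p in G, ov F p * dB p :=
            lintegral_const_mul' _ _ ENNReal.ofReal_ne_top
        _ ≤ ENNReal.ofReal (7 * √ρ) * ∫⁻ p in {p : ℝ × ℝ | p.1 ≤ 2 * ρ}, ov F p * dB p := by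
            apply mul_le_mul_right
            apply lintegral_mono_set
            intro p hp
            have hp' : ((p.1 - ρ) / ρ) ^ 2 + (p.2 / √ρ) ^ 2 < 1 := hp
            have h7 : (p.1 - ρ) / ρ ≤ 1 := by
              nlinarith [sq_nonneg (p.2 / √ρ), sq_nonneg ((p.1 - ρ) / ρ - 1)]
            rw [div_le_iff₀ hρ] at h7
            change p.1 ≤ 2 * ρ
            linarith
        _ ≤ _ := mul_le_mul_right hsmall _
    refine (mul_le_mul_right h3 _).trans (le_of_eq ?_)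
    have hc0 : 0 < c0 := by unfold c0; positivity
    rw [← ENNReal.ofReal_mul (by positivity), ← ENNReal.ofReal_mul (by positivity)]
    congr 1
    field_simp
  refine ⟨?_, hov1.trans (ENNReal.ofReal_le_ofReal (by unfold c0; norm_num))⟩
  -- the family with the additional thin plank
  set T : Strip := ⟨0, 1, -κ, κ⟩ with hT
  set Gf : Option ι → Strip := fun o => o.elim T (fun i => picS ρ (F i)) with hGf
  have hthin : volume (T.set ∩ {q : ℝ × ℝ | q.1 ^ 2 + q.2 ^ 2 ≤ 1}) ≤ ENNReal.ofReal (8 * √ε) := by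
    have hsub : T.set ∩ {q : ℝ × ℝ | q.1 ^ 2 + q.2 ^ 2 ≤ 1} ⊆ {q : ℝ × ℝ | |q.1| ≤ 1 ∧ |q.2| ≤ κ} := by
      intro q hq
      have h1 : q.1 ^ 2 + q.2 ^ 2 ≤ 1 := hq.2
      have h2 := hq.1
      rw [Strip.mem_set] at h2
      simp only [hT, Strip.form] at h2
      refine ⟨abs_le_of_sq_le_sq (by nlinarith [sq_nonneg q.2]) (by norm_num), ?_⟩
      rw [abs_le]
      constructor <;> linarith [h2.1, h2.2]
    refine (measure_mono hsub).trans ?_
    rw [volume_box, ← ENNReal.ofReal_mul (by norm_num)]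
    apply ENNReal.ofReal_le_ofReal
    rw [hκ]; linarith
  have hovG : ∀ q, ov Gf q ≤ T.set.indicator 1 q + ov F (pic ρ q) := by
    intro q
    have h1 : mult Gf q = T.set.indicator 1 q + mult (fun i => picS ρ (F i)) q := by
      unfold mult
      rw [Fintype.sum_option]
      rfl
    have h2 : ov F (pic ρ q) = ov (fun i => picS ρ (F i)) q := (ov_pull F _ _ _ _ _ _ q).symm
    rw [h2]
    unfold ov
    rw [h1]
    exact add_tsub_le_assoc
  obtain ⟨e, he, hvol⟩ := rigid Gf (del1 / 2) om1 (by unfold del1; norm_num)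
    (by unfold om1; norm_num) (by
      intro o
      cases o with
      | none => simp [hGf, hT]
      | some i => exact pull_pos (by nlinarith [mul_pos hρ hsρ]) (F i) (hF i)) (by
      intro q hq
      have h1 := pic_in_disc hρ hρ1 q
      have h2 : ((pic ρ q).1 - 1) ^ 2 + (pic ρ q).2 ^ 2 ≤ 1 := by
        have : 0 ≤ ρ * (1 - q.1 ^ 2 - q.2 ^ 2) := mul_nonneg hρ.le (by linarith)
        nlinarith
      by_cases hh : pic ρ q ∈ Hole d ε
      · refine ⟨none, ?_⟩
        have h3 := (hole_parabola hε hd hh).2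
        rw [pic_apply] at h3
        simp only at h3
        rw [mul_pow, hsρ2] at h3
        have h4 : q.2 ^ 2 ≤ 2 * ε * (q.1 + 1) := by
          have : ρ * q.2 ^ 2 ≤ ρ * (2 * ε * (q.1 + 1)) := by linarith
          exact le_of_mul_le_mul_left this hρ
        have h5 : q.1 ≤ 1 := by nlinarith [sq_nonneg q.2, sq_nonneg (q.1 - 1)]
        have h6 : q.2 ^ 2 ≤ κ ^ 2 := by
          rw [hκ, mul_pow, Real.sq_sqrt hε.le]
          nlinarith
        have h7 := abs_le.mp (abs_le_of_sq_le_sq h6 hκ0)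
        rw [Strip.mem_set]
        simp only [hGf, hT, Option.elim, Strip.form]
        constructor <;> linarith [h7.1, h7.2]
      · obtain ⟨i, hi⟩ := hcov _ h2 hh
        exact ⟨some i, (mem_picS ρ (F i) q).mpr hi⟩) (by
      calc ∫⁻ q in D, ov Gf q ≤ ∫⁻ q in D, (T.set.indicator 1 q + ov F (pic ρ q)) :=
            lintegral_mono fun q => hovG q
        _ = (∫⁻ q in D, T.set.indicator 1 q) + ∫⁻ q in D, ov F (pic ρ q) :=
            lintegral_add_left (measurable_one.indicator (measurableSet_set T)) _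
        _ ≤ ENNReal.ofReal (8 * √ε) + ENNReal.ofReal (7 * c0) := by
            apply add_le_add _ hov1
            rw [lintegral_indicator_one (measurableSet_set T),
              Measure.restrict_apply (measurableSet_set T)]
            refine le_trans (measure_mono ?_) hthin
            intro q hq
            exact ⟨hq.1, le_of_lt (show q.1 ^ 2 + q.2 ^ 2 < 1 from hq.2)⟩
        _ ≤ ENNReal.ofReal (del1 / 2 * om1 ^ 2 / 500) := by
            have hc0 : 0 < c0 := by unfold c0; positivity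
            rw [← ENNReal.ofReal_add (by positivity) (by positivity)]
            apply ENNReal.ofReal_le_ofReal
            have h9 : 8 * √ε + 7 * c0 ≤ 8 * (1 / 10 ^ 25) + 7 * (1 / 10 ^ 24) := by
              unfold c0; linarith
            refine h9.trans ?_
            unfold del1 om1
            norm_num)
  refine ⟨e, he, ?_⟩
  have hsub : npset F ρ e ⊆ {p : ℝ × ℝ | p.1 ^ 2 + p.2 ^ 2 ≤ (49 / 50) ^ 2 ∧
      ∀ i, p ∈ (Gf i).set → om1 ^ 2 * ((Gf i).a ^ 2 + (Gf i).b ^ 2)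
        < ((Gf i).a * e.2 - (Gf i).b * e.1) ^ 2}
      ∪ (T.set ∩ {q : ℝ × ℝ | q.1 ^ 2 + q.2 ^ 2 ≤ 1}) := by
    intro q hq
    by_cases hqT : q ∈ T.set
    · right
      refine ⟨hqT, ?_⟩
      have := hq.1
      change q.1 ^ 2 + q.2 ^ 2 ≤ 1
      nlinarith
    · left
      refine ⟨hq.1, ?_⟩
      intro o ho
      cases o with
      | none => exact absurd ho hqT
      | some i => exact hq.2 i ho
  refine (measure_mono hsub).trans ((measure_union_le _ _).trans ?_)
  refine (add_le_add hvol hthin).trans ?_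
  rw [← ENNReal.ofReal_add (by unfold del1; norm_num) (by positivity)]
  apply ENNReal.ofReal_le_ofReal
  have h9 : del1 / 2 + 8 * √ε ≤ del1 / 2 + 8 * (1 / 10 ^ 25) := by linarith
  refine h9.trans ?_
  unfold del1
  norm_num

end Pool.Agent.Lib.MP_4a0204_co
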