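import Mathlib
import Pool.Agent.Lib.MP_4a0204_co.Pictures

set_option autoImplicit false

/-!
Application of the multi-scale argument in the pictures.
-/

namespace Pool.Agent.Lib.MP_4a0204_co

open MeasureTheory Set ENNReal

theorem good_abs {n1 n2 e1 e2 : ℝ}
    (hg : (n1 * e2 - n2 * e1) ^ 2 ≤ om1 ^ 2 * (n1 ^ 2 + n2 ^ 2)) :
    |n1 * e2 - n2 * e1| ≤ om1 * (|n1| + |n2|) := by
  apply abs_le_of_sq_le_sq _ (by unfold om1; positivity)
  refine hg.trans ?_
  rw [mul_pow]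
  apply mul_le_mul_of_nonneg_left _ (by positivity)
  nlinarith [abs_nonneg n1, abs_nonneg n2, sq_abs n1, sq_abs n2,
    mul_nonneg (abs_nonneg n1) (abs_nonneg n2)]

theorem cons_alg {n1 n2 : ℝ} {e e' : ℝ × ℝ} (he : e.1 ^ 2 + e.2 ^ 2 = 1)
    (he' : e'.1 ^ 2 + e'.2 ^ 2 = 1) (hst : |e.2| ≤ |e.1|) (hpos : 0 < n1 ^ 2 + n2 ^ 2)
    (hig : (n1 * e.2 - n2 * e.1) ^ 2 ≤ om1 ^ 2 * (n1 ^ 2 + n2 ^ 2))
    (hjg : (n1 / 16 * e'.2 - n2 / 4 * e'.1) ^ 2 ≤ om1 ^ 2 * ((n1 / 16) ^ 2 + (n2 / 4) ^ 2)) :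
    |e'.2| ≤ 5 * |e'.1| := by
  have he1 : 7 / 10 ≤ |e.1| := by
    have h3 : e.2 ^ 2 ≤ e.1 ^ 2 := sq_le_sq.mpr hst
    apply le_of_sq_le_sq _ (abs_nonneg _)
    rw [sq_abs]; nlinarith
  have hsum1 := good_abs hig
  have hn21 : |n2| ≤ 101 / 100 * |n1| := by
    have h3 : |n2| * |e.1| ≤ |n1| * |e.1| + om1 * (|n1| + |n2|) := by
      calc |n2| * |e.1| = |n1 * e.2 - (n1 * e.2 - n2 * e.1)| := by
            rw [← abs_mul]; congr 1; ring
        _ ≤ |n1 * e.2| + |n1 * e.2 - n2 * e.1| := abs_sub _ _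
        _ ≤ _ := by
            rw [abs_mul]
            exact add_le_add (mul_le_mul_of_nonneg_left hst (abs_nonneg _)) hsum1
    unfold om1 at h3
    by_contra hcon
    push Not at hcon
    have h0 := abs_nonneg n1
    have h4 : 0 ≤ |n2| - |n1| := by linarith
    have h5 : (|n2| - |n1|) * (7 / 10) ≤ (|n2| - |n1|) * |e.1| :=
      mul_le_mul_of_nonneg_left he1 h4
    linarith
  have hn10 : 0 < |n1| := by
    by_contra hcon
    push Not at hcon
    have h3 : |n1| = 0 := le_antisymm hcon (abs_nonneg _)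
    rw [h3] at hn21
    have h4 : |n2| = 0 := le_antisymm (by linarith) (abs_nonneg _)
    rw [abs_eq_zero.mp h3, abs_eq_zero.mp h4] at hpos
    norm_num at hpos
  have hsum2 := good_abs hjg
  have h5 : |n1| / 16 * |e'.2| ≤ |n2| / 4 * |e'.1| + om1 * (|n1| / 16 + |n2| / 4) := by
    have a1 : |n1 / 16| = |n1| / 16 := by rw [abs_div, abs_of_pos (by norm_num : (0:ℝ) < 16)]
    have a2 : |n2 / 4| = |n2| / 4 := by rw [abs_div, abs_of_pos (by norm_num : (0:ℝ) < 4)]
    rw [a1, a2] at hsum2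
    calc |n1| / 16 * |e'.2| = |(n1 / 16 * e'.2 - n2 / 4 * e'.1) + n2 / 4 * e'.1| := by
          rw [show (n1 / 16 * e'.2 - n2 / 4 * e'.1) + n2 / 4 * e'.1 = n1 / 16 * e'.2 by ring,
            abs_mul, a1]
      _ ≤ |n1 / 16 * e'.2 - n2 / 4 * e'.1| + |n2 / 4 * e'.1| := abs_add_le _ _
      _ ≤ _ := by
          rw [abs_mul (n2 / 4), a2]
          linarith
  have h6 : |e'.2| ≤ 404 / 100 * |e'.1| + 6 * om1 := by
    have h8 : |n2| * |e'.1| ≤ (101 / 100 * |n1|) * |e'.1| :=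
      mul_le_mul_of_nonneg_right hn21 (abs_nonneg _)
    have h7 : |n1| * |e'.2| ≤ |n1| * (404 / 100 * |e'.1| + 6 * om1) := by
      unfold om1 at *
      linarith
    exact le_of_mul_le_mul_left h7 hn10
  by_contra hcon
  push Not at hcon
  unfold om1 at h6
  have h7 : |e'.1| ≤ 1 / 100 := by linarith
  have h8 : |e'.2| ≤ 1 / 10 := by linarith
  have h10 := abs_le.mp h8
  have h11 := abs_le.mp h7
  nlinarith

/-- Consistency of the main directions of two consecutive pictures. -/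
theorem consistent {ι : Type*} [Fintype ι] (F : ι → Strip)
    (hF : ∀ i, 0 < (F i).a ^ 2 + (F i).b ^ 2) {ρ : ℝ} (hρ : 0 < ρ)
    {e e' : ℝ × ℝ} (h1 : NP F ρ e) (h2 : NP F (ρ / 16) e')
    (hsm : ∫⁻ q in {q : ℝ × ℝ | q.1 ^ 2 + q.2 ^ 2 < 1}, ov F (pic (ρ / 16) q)
      ≤ ENNReal.ofReal (1 / 100)) (hst : |e.2| ≤ |e.1|) : |e'.2| ≤ 5 * |e'.1| := by
  have hsρ : 0 < √ρ := Real.sqrt_pos.mpr hρ
  have hs16 : √(ρ / 16) = √ρ / 4 := by
    rw [Real.sqrt_div hρ.le, show (16 : ℝ) = 4 ^ 2 by norm_num, Real.sqrt_sq (by norm_num)]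
  set A := amap (1 / 16) 0 0 (1 / 4) (-(15 / 16)) 0 with hA
  have hApic : ∀ q, pic ρ (A q) = pic (ρ / 16) q := by
    intro q
    rw [pic_apply, pic_apply, hs16, hA]
    simp only [amap]
    ext
    · simp only; ring
    · simp only; ring
  set D : Set (ℝ × ℝ) := {q : ℝ × ℝ | q.1 ^ 2 + q.2 ^ 2 < 1} with hD
  have hDm : MeasurableSet D := measurableSet_lt (by fun_prop) (by fun_prop)
  have hovm : Measurable fun q => ov F (pic (ρ / 16) q) :=
    (measurable_ov F).comp (measurable_amap _ _ _ _ _ _)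
  set N3 : Set (ℝ × ℝ) := {q : ℝ × ℝ | q ∈ D ∧ 1 ≤ ov F (pic (ρ / 16) q)} with hN3
  have hN3v : volume N3 ≤ ENNReal.ofReal (1 / 100) := by
    refine le_trans ?_ hsm
    have hms : MeasurableSet N3 := hDm.inter (measurableSet_le measurable_const hovm)
    rw [← lintegral_indicator_one hms, ← lintegral_indicator hDm]
    apply lintegral_mono
    intro q
    beta_reduce
    by_cases hq : q ∈ N3
    · rw [indicator_of_mem hq, indicator_of_mem hq.1]
      exact hq.2
    · rw [indicator_of_notMem hq]; exact zero_le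
  obtain ⟨q, hq, hq1, hq2, hq3⟩ := exists_notMem_three
    (T := {q : ℝ × ℝ | |q.1| ≤ 1 / 4 ∧ |q.2| ≤ 1 / 4}) (N1 := A ⁻¹' npset F ρ e)
    (N2 := npset F (ρ / 16) e') (N3 := N3) (by
      rw [volume_box, hA, volume_preimage_amap _ _ _ _ _ _ (by norm_num)]
      calc ENNReal.ofReal (|1 / 16 * (1 / 4) - (0:ℝ) * 0|⁻¹) * volume (npset F ρ e)
            + volume (npset F (ρ / 16) e') + volume N3
          ≤ ENNReal.ofReal (|1 / 16 * (1 / 4) - (0:ℝ) * 0|⁻¹) * ENNReal.ofReal del1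
            + ENNReal.ofReal del1 + ENNReal.ofReal (1 / 100) :=
            add_le_add (add_le_add (mul_le_mul_right h1.2 _) h2.2) hN3v
        _ = ENNReal.ofReal (|1 / 16 * (1 / 4) - (0:ℝ) * 0|⁻¹ * del1 + del1 + 1 / 100) := by
            have : 0 < del1 := by unfold del1; norm_num
            rw [ENNReal.ofReal_add (by positivity) (by positivity),
              ENNReal.ofReal_add (by positivity) (by positivity),
              ENNReal.ofReal_mul (by positivity)]
        _ < ENNReal.ofReal (2 * (1 / 4)) * ENNReal.ofReal (2 * (1 / 4)) := by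
            rw [← ENNReal.ofReal_mul (by norm_num)]
            rw [ENNReal.ofReal_lt_ofReal_iff (by norm_num)]
            unfold del1
            norm_num)
  have hX := abs_le.mp hq.1
  have hY := abs_le.mp hq.2
  have hqD : q ∈ D := by
    change q.1 ^ 2 + q.2 ^ 2 < 1
    nlinarith
  have hq98 : q.1 ^ 2 + q.2 ^ 2 ≤ (49 / 50) ^ 2 := by nlinarith
  have hAq98 : (A q).1 ^ 2 + (A q).2 ^ 2 ≤ (49 / 50) ^ 2 := by
    simp only [hA, amap]
    nlinarith
  obtain ⟨i, hi, hig⟩ : ∃ i, A q ∈ (picS ρ (F i)).set ∧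
      ((picS ρ (F i)).a * e.2 - (picS ρ (F i)).b * e.1) ^ 2
        ≤ om1 ^ 2 * ((picS ρ (F i)).a ^ 2 + (picS ρ (F i)).b ^ 2) := by
    by_contra hcon
    push Not at hcon
    exact hq1 ⟨hAq98, hcon⟩
  obtain ⟨j, hj, hjg⟩ : ∃ j, q ∈ (picS (ρ / 16) (F j)).set ∧
      ((picS (ρ / 16) (F j)).a * e'.2 - (picS (ρ / 16) (F j)).b * e'.1) ^ 2
        ≤ om1 ^ 2 * ((picS (ρ / 16) (F j)).a ^ 2 + (picS (ρ / 16) (F j)).b ^ 2) := by
    by_contra hcon
    push Not at hcon
    exact hq2 ⟨hq98, hcon⟩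
  have hij : i = j := eq_of_ov_lt F (fun h => hq3 ⟨hqD, h⟩)
    (by rw [← hApic]; exact (mem_picS _ _ _).mp hi) ((mem_picS _ _ _).mp hj)
  subst hij
  rw [picS_a, picS_b] at hig
  rw [picS_a, picS_b, hs16] at hjg
  have hpos : 0 < ((F i).a * ρ) ^ 2 + ((F i).b * √ρ) ^ 2 := by
    have := pull_pos (a := ρ) (b := 0) (c := 0) (d := √ρ) (e := ρ) (f := 0)
      (by nlinarith [mul_pos hρ hsρ]) (F i) (hF i)
    simpa [Strip.pull] using this
  have e1 : (F i).a * (ρ / 16) = ((F i).a * ρ) / 16 := by ring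
  have e2 : (F i).b * (√ρ / 4) = ((F i).b * √ρ) / 4 := by ring
  rw [e1, e2] at hjg
  exact cons_alg h1.1 h2.1 hst hpos hig hjg

/-- Alignment of the good planks of a picture. -/
theorem align_pic {n1 n2 e1 e2 : ℝ} (he : e1 ^ 2 + e2 ^ 2 = 1) (h5 : |e2| ≤ 5 * |e1|)
    (hg : (n1 * e2 - n2 * e1) ^ 2 ≤ om1 ^ 2 * (n1 ^ 2 + n2 ^ 2)) :
    |n1 * (-(e2 / e1)) + n2| ≤ lam / 10 * |n1| := by
  have h1 : 19 / 100 ≤ |e1| := by
    have h3 : e2 ^ 2 ≤ 25 * e1 ^ 2 := by
      have := pow_le_pow_left₀ (abs_nonneg _) h5 2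
      rw [mul_pow, sq_abs, sq_abs] at this
      linarith
    apply le_of_sq_le_sq _ (abs_nonneg _)
    rw [sq_abs]; nlinarith
  have he1 : e1 ≠ 0 := by
    rintro rfl
    rw [abs_zero] at h1; linarith
  have he1' : 0 < |e1| := abs_pos.mpr he1
  have hψ : |e2 / e1| ≤ 5 := by
    rw [abs_div, div_le_iff₀ he1']; exact h5
  set t := |n1 * (-(e2 / e1)) + n2| with ht
  have ht0 : 0 ≤ t := abs_nonneg _
  have h3 : t * |e1| = |n1 * e2 - n2 * e1| := by
    rw [ht, ← abs_mul, ← abs_neg]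
    congr 1
    field_simp
    ring
  have h4 : |n2| ≤ t + 5 * |n1| := by
    calc |n2| = |(n1 * (-(e2 / e1)) + n2) + e2 / e1 * n1| := by congr 1; ring
      _ ≤ t + |e2 / e1 * n1| := abs_add_le _ _
      _ ≤ _ := by
          rw [abs_mul]
          have := mul_le_mul_of_nonneg_right hψ (abs_nonneg n1)
          linarith
  have h6 : |n1 * e2 - n2 * e1| ≤ om1 * (|n1| + |n2|) := by
    apply abs_le_of_sq_le_sq _ (by unfold om1; positivity)
    refine hg.trans ?_
    rw [mul_pow]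
    apply mul_le_mul_of_nonneg_left _ (by positivity)
    nlinarith [abs_nonneg n1, abs_nonneg n2, sq_abs n1, sq_abs n2,
      mul_nonneg (abs_nonneg n1) (abs_nonneg n2)]
  rw [← h3] at h6
  unfold om1 at h6
  rw [lam_eq]
  have h7 : t * (19 / 100) ≤ t * |e1| := mul_le_mul_of_nonneg_left h1 ht0
  nlinarith [abs_nonneg n1]

/-- Alignment of the good planks in the flat case. -/
theorem align_flat {n1 n2 e1 e2 : ℝ} (he : e1 ^ 2 + e2 ^ 2 = 1) (h5 : 5 * |e1| ≤ |e2|)
    (hg : (n1 * e2 - n2 * e1) ^ 2 ≤ om1 ^ 2 * (n1 ^ 2 + n2 ^ 2)) :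
    |n1 + n2 * (-(e1 / e2))| ≤ lam / 25 * |n2| := by
  have h1 : 98 / 100 ≤ |e2| := by
    have h3 : 25 * e1 ^ 2 ≤ e2 ^ 2 := by
      have := pow_le_pow_left₀ (by positivity) h5 2
      rw [mul_pow, sq_abs, sq_abs] at this
      linarith
    apply le_of_sq_le_sq _ (abs_nonneg _)
    rw [sq_abs]; nlinarith
  have he1 : e2 ≠ 0 := by
    rintro rfl
    rw [abs_zero] at h1; linarith
  have he1' : 0 < |e2| := abs_pos.mpr he1
  have hψ : |e1 / e2| ≤ 1 / 5 := by
    rw [abs_div, div_le_iff₀ he1']; linarith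
  set t := |n1 + n2 * (-(e1 / e2))| with ht
  have ht0 : 0 ≤ t := abs_nonneg _
  have h3 : t * |e2| = |n1 * e2 - n2 * e1| := by
    rw [ht, ← abs_mul]
    congr 1
    field_simp
    ring
  have h4 : |n1| ≤ t + 1 / 5 * |n2| := by
    calc |n1| = |(n1 + n2 * (-(e1 / e2))) + e1 / e2 * n2| := by congr 1; ring
      _ ≤ t + |e1 / e2 * n2| := abs_add_le _ _
      _ ≤ _ := by
          rw [abs_mul]
          have := mul_le_mul_of_nonneg_right hψ (abs_nonneg n2)
          linarith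
  have h6 : |n1 * e2 - n2 * e1| ≤ om1 * (|n1| + |n2|) := by
    apply abs_le_of_sq_le_sq _ (by unfold om1; positivity)
    refine hg.trans ?_
    rw [mul_pow]
    apply mul_le_mul_of_nonneg_left _ (by positivity)
    nlinarith [abs_nonneg n1, abs_nonneg n2, sq_abs n1, sq_abs n2,
      mul_nonneg (abs_nonneg n1) (abs_nonneg n2)]
  rw [← h3] at h6
  unfold om1 at h6
  rw [lam_eq]
  have h7 : t * (98 / 100) ≤ t * |e2| := mul_le_mul_of_nonneg_left h1 ht0
  nlinarith [abs_nonneg n2]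

theorem box_T {T t δ w T' : ℝ} (hT0 : 0 < T) (hT1 : T ≤ 101 / 100) (ht : 1 / 32 ≤ T ∨ 1 ≤ t)
    (ht0 : 0 ≤ t) (ht5 : t ≤ 5) (hδ : |δ| ≤ 101 / 100000) (hw1 : 89 / 1000 ≤ w)
    (hw2 : w ≤ 111 / 1000) (hT' : T' = T + δ + t * w) : 3 / 100 ≤ T' ∧ T' ≤ 157 / 100 := by
  have h1 := abs_le.mp hδ
  have h2 : 0 ≤ t * w := mul_nonneg ht0 (by linarith)
  have h3 : t * w ≤ 5 * (111 / 1000) := mul_le_mul ht5 hw2 (by linarith) (by norm_num)
  constructor
  · rcases ht with h | h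
    · linarith [h1.1]
    · have h4 : 1 * (89 / 1000) ≤ t * w := mul_le_mul h hw1 (by norm_num) ht0
      linarith [h1.1]
  · linarith [h1.2]

theorem apply_pic {ι : Type*} [Fintype ι] (F : ι → Strip)
    (hF : ∀ i, 0 < (F i).a ^ 2 + (F i).b ^ 2) {τ ε d : ℝ} (hτ : 0 < τ) (hε : ε = τ ^ 4 / 128)
    (hεs : ε ≤ 1 / 10 ^ 50) (hd : ε < d) (hd1 : d ≤ 1) (hcov : Covers F d ε) {ρ : ℝ}
    (hρ : 0 < ρ) (hρ1 : ρ ≤ 1) {e : ℝ × ℝ} (hNP : NP F ρ e) (he5 : |e.2| ≤ 5 * |e.1|)
    (Z : Set (ℝ × ℝ)) (hZu : Z ⊆ unc F) (hZH : Z ⊆ Hole d ε)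
    (hZt : ∀ p ∈ Z, p.1 ≤ 101 / 100 * ρ) (hZl : ∀ p ∈ Z, ρ / 32 ≤ p.1 ∨ |e.1| ≤ |e.2|) :
    ∫⁻ p in Z, dB p ≤ ENNReal.ofReal (23800 * τ / eta0)
      * ∫⁻ p in {p : ℝ × ℝ | ρ / 128 < p.1 ∧ p.1 ≤ 2 * ρ}, ov F p * dB p := by
  have hε0 : 0 < ε := by rw [hε]; positivity
  have heta := eta0_pos
  have hsρ : 0 < √ρ := Real.sqrt_pos.mpr hρ
  have hsρ2 : √ρ ^ 2 = ρ := Real.sq_sqrt hρ.le
  have he := hNP.1
  have he1 : e.1 ≠ 0 := by
    intro h0
    rw [h0, abs_zero, mul_zero] at he5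
    have : e.2 = 0 := abs_eq_zero.mp (le_antisymm he5 (abs_nonneg _))
    rw [h0, this] at he
    norm_num at he
  have he1' : 0 < |e.1| := abs_pos.mpr he1
  set θ := -(e.2 / e.1) with hθ
  set t := |θ| with ht
  have ht0 : 0 ≤ t := abs_nonneg _
  have ht5 : t ≤ 5 := by
    rw [ht, hθ, abs_neg, abs_div, div_le_iff₀ he1']
    exact he5
  obtain ⟨g, hg2, hgθ⟩ : ∃ g : ℝ, g ^ 2 = 1 ∧ g * θ = t := by
    rcases le_total 0 θ with h | h
    · exact ⟨1, by norm_num, by rw [ht, abs_of_nonneg h, one_mul]⟩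
    · exact ⟨-1, by norm_num, by rw [ht, abs_of_nonpos h]; ring⟩
  have hgabs : |g| = 1 := by
    have : |g| ^ 2 = 1 := by rw [sq_abs]; exact hg2
    nlinarith [abs_nonneg g]
  have hg0 : g ≠ 0 := by
    intro h0; rw [h0] at hg2; norm_num at hg2
  set N := amap (ρ / 10) (ρ * t / 10) 0 (√ρ * g / 10) 0 0 with hN
  have hNapp : ∀ z : ℝ × ℝ, N z = (ρ * ((z.1 + t * z.2) / 10), √ρ * (g * z.2 / 10)) := by
    intro z
    simp only [hN, amap]
    ext
    · simp only; ring
    · simp only; ring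
  -- facts about anchors
  have hanc : ∀ z : ℝ × ℝ, N z ∈ Z → |z.2| ≤ 1 / 100 ∧ 0 < (z.1 + t * z.2) / 10 ∧
      (z.1 + t * z.2) / 10 ≤ 101 / 100 ∧ (1 / 32 ≤ (z.1 + t * z.2) / 10 ∨ 1 ≤ t) := by
    intro z hz
    have h1 := hole_parabola hε0 hd (hZH hz)
    have h2 := hZt _ hz
    have h3 := hZl _ hz
    rw [hNapp] at h1 h2 h3
    simp only at h1 h2 h3
    set T := (z.1 + t * z.2) / 10
    have hT0 : 0 < T := pos_of_mul_pos_right h1.1 hρ.le
    have hT1 : T ≤ 101 / 100 := by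
      have : ρ * T ≤ ρ * (101 / 100) := by linarith
      exact le_of_mul_le_mul_left this hρ
    have hz2 : z.2 ^ 2 ≤ 200 * ε * T := by
      have h4 := h1.2
      rw [mul_pow, hsρ2, div_pow, mul_pow, hg2] at h4
      have : ρ * z.2 ^ 2 ≤ ρ * (200 * ε * T) := by linarith
      exact le_of_mul_le_mul_left this hρ
    refine ⟨?_, hT0, hT1, ?_⟩
    · apply abs_le_of_sq_le_sq _ (by norm_num)
      have h5 : 200 * ε * T ≤ 200 * (1 / 10 ^ 50) * (101 / 100) := by
        apply mul_le_mul (by linarith) hT1 hT0.le (by norm_num)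
      refine hz2.trans (h5.trans ?_)
      norm_num
    · rcases h3 with h | h
      · left
        have : ρ * (1 / 32) ≤ ρ * T := by linarith
        exact le_of_mul_le_mul_left this hρ
      · right
        rw [ht, hθ, abs_neg, abs_div, le_div_iff₀ he1', one_mul]
        exact h
  set G : Set (ℝ × ℝ) := {p : ℝ × ℝ | (ρ / 128 < p.1 ∧ p.1 ≤ 2 * ρ) ∧
    0 < 2 * p.1 - p.1 ^ 2 - p.2 ^ 2} with hG
  have hGm : MeasurableSet G := by
    have e1 : G = {p : ℝ × ℝ | ρ / 128 < p.1} ∩ {p : ℝ × ℝ | p.1 ≤ 2 * ρ}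
        ∩ {p : ℝ × ℝ | 0 < 2 * p.1 - p.1 ^ 2 - p.2 ^ 2} := by
      ext p; simp only [hG, mem_inter_iff, mem_ofPred_eq]
    rw [e1]
    exact ((measurableSet_lt measurable_const measurable_fst).inter
      (measurableSet_le measurable_fst measurable_const)).inter
      (measurableSet_lt measurable_const (by fun_prop))
  have hΔ : ρ / 10 * (√ρ * g / 10) - ρ * t / 10 * 0 ≠ 0 := by
    rw [mul_zero, sub_zero]
    positivity
  have hΔabs : |ρ / 10 * (√ρ * g / 10) - ρ * t / 10 * 0| = ρ * √ρ / 100 := by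
    rw [mul_zero, sub_zero, show ρ / 10 * (√ρ * g / 10) = ρ * √ρ / 100 * g by ring, abs_mul, hgabs,
      mul_one, abs_of_pos (by positivity)]
  have hmain := frame F hF hτ hε hd hd1 (ρ / 10) (ρ * t / 10) 0 (√ρ * g / 10) 0 0 hΔ Z G hGm
    hZu hZH (fun z hz => (hanc z hz).1)
    (fun z hz => by
      obtain ⟨hz2, hT0, hT1, hT2⟩ := hanc z hz
      unfold Stt
      have hz2' := abs_le.mp hz2
      have hsub : badset (fun i => (F i).pull (ρ / 10) (ρ * t / 10) 0 (√ρ * g / 10) 0 0)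
          z.1 0 (1 / 100)
          ⊆ amap (1 / 1000) (t / 100) 0 (g / 100) (z.1 / 10 + t / 10 - 1) (g / 10) ⁻¹'
            npset F ρ e := by
        intro q hq
        obtain ⟨⟨hX, hY⟩, hbad⟩ := hq
        have hX' := abs_le.mp hX
        have hY' := abs_le.mp hY
        set Q := amap (1 / 1000) (t / 100) 0 (g / 100) (z.1 / 10 + t / 10 - 1) (g / 10) q with hQ
        have hQ1 : Q.1 = 1 / 1000 * q.1 + t / 100 * q.2 + (z.1 / 10 + t / 10 - 1) := by
          simp only [hQ, amap]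
        have hQ2 : Q.2 = g * (q.2 / 100 + 1 / 10) := by
          simp only [hQ, amap]; ring
        have hpicQ : pic ρ Q = N (wmap z.1 0 (1 / 100) q) := by
          rw [pic_apply, hNapp, wmap_apply, hQ1, hQ2]
          ext
          · simp only; ring
          · simp only; ring
        refine ⟨?_, ?_⟩
        · have hbox := box_T (T' := Q.1 + 1) (δ := q.1 / 1000) (w := (1 - z.2 + q.2 / 10) / 10)
            hT0 hT1 hT2 ht0 ht5 (by rw [abs_le]; constructor <;> linarith) (by linarith)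
            (by linarith) (by rw [hQ1]; ring)
          have h1 : Q.2 ^ 2 ≤ (11 / 100) ^ 2 := by
            rw [hQ2, mul_pow, hg2, one_mul]
            apply pow_le_pow_left₀ (by linarith)
            linarith
          nlinarith [hbox.1, hbox.2]
        · intro i hi
          by_contra hcon
          push Not at hcon
          have hal := align_pic he he5 hcon
          rw [picS_a, picS_b] at hal
          refine hbad i ?_ ?_
          · rw [Strip.mem_pull]
            change N (wmap z.1 0 (1 / 100) q) ∈ (F i).set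
            rw [← hpicQ]
            exact (mem_picS ρ (F i) Q).mp hi
          · unfold Aligned
            simp only [Strip.pull]
            have e1 : ((F i).a * (ρ / 10) + (F i).b * 0) * 0
                + ((F i).a * (ρ * t / 10) + (F i).b * (√ρ * g / 10))
                = g * ((F i).a * ρ * θ + (F i).b * √ρ) / 10 := by
              rw [← hgθ]; ring
            have e2 : (F i).a * (ρ / 10) + (F i).b * 0 = (F i).a * ρ / 10 := by ring
            rw [e1, e2, abs_div, abs_mul, hgabs, one_mul, abs_div,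
              abs_of_pos (by norm_num : (0:ℝ) < 10)]
            change |(F i).a * ρ * θ + (F i).b * √ρ| ≤ lam / 10 * |(F i).a * ρ| at hal
            linarith
      refine (measure_mono hsub).trans ?_
      have hdet : (1 / 1000 : ℝ) * (g / 100) - t / 100 * 0 ≠ 0 := by
        rw [mul_zero, sub_zero]; positivity
      rw [volume_preimage_amap _ _ _ _ _ _ hdet]
      have hdet2 : |(1 / 1000 : ℝ) * (g / 100) - t / 100 * 0|⁻¹ = 100000 := by
        rw [mul_zero, sub_zero, show (1 / 1000 : ℝ) * (g / 100) = 1 / 100000 * g by ring, abs_mul,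
          hgabs]
        norm_num
      rw [hdet2]
      refine (mul_le_mul_right hNP.2 _).trans (le_of_eq ?_)
      rw [← ENNReal.ofReal_mul (by norm_num), ofReal_eighth]
      congr 1
      unfold del1; norm_num)
    (fun z hz p hp1 hp2 => by
      obtain ⟨hz2, hT0, hT1, hT2⟩ := hanc z hz
      have hz2' := abs_le.mp hz2
      have hp1' := abs_le.mp hp1
      have hp2' := abs_le.mp hp2
      have hbox := box_T (T' := (p.1 + t * p.2) / 10) (δ := (p.1 - z.1) / 10)
        (w := (p.2 - z.2) / 10) hT0 hT1 hT2 ht0 ht5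
        (by rw [abs_le]; constructor <;> linarith) (by linarith) (by linarith) (by ring)
      set T := (p.1 + t * p.2) / 10 with hT
      set Y := g * p.2 / 10 with hY
      have hY2 : Y ^ 2 = p.2 ^ 2 / 100 := by
        rw [hY, div_pow, mul_pow, hg2]; ring
      have hYu : Y ^ 2 ≤ 121 / 10000 := by rw [hY2]; nlinarith
      have hYl : 81 / 10000 ≤ Y ^ 2 := by rw [hY2]; nlinarith
      have hNp : N p = (ρ * T, √ρ * Y) := hNapp p
      have hin : 0 < 2 * (N p).1 - (N p).1 ^ 2 - (N p).2 ^ 2 := by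
        rw [hNp]
        simp only
        rw [mul_pow (√ρ), hsρ2]
        have h1 : 0 < 2 * T - T ^ 2 - Y ^ 2 := by nlinarith [hbox.1, hbox.2]
        have h2 : 2 * (ρ * T) - (ρ * T) ^ 2 - ρ * Y ^ 2
            = ρ * (2 * T - T ^ 2 - Y ^ 2) + ρ * (1 - ρ) * T ^ 2 := by ring
        rw [h2]
        have h3 : 0 ≤ ρ * (1 - ρ) * T ^ 2 :=
          mul_nonneg (mul_nonneg hρ.le (by linarith)) (sq_nonneg _)
        have h4 : 0 < ρ * (2 * T - T ^ 2 - Y ^ 2) := mul_pos hρ h1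
        linarith
      refine ⟨⟨⟨?_, ?_⟩, hin⟩, ?_⟩
      · change ρ / 128 < (N p).1
        rw [hNp]; simp only; nlinarith [hbox.1]
      · change (N p).1 ≤ 2 * ρ
        rw [hNp]; simp only; nlinarith [hbox.2]
      · apply hcov
        · change ((N p).1 - 1) ^ 2 + (N p).2 ^ 2 ≤ 1
          have e3 : ((N p).1 - 1) ^ 2 + (N p).2 ^ 2
              = 1 - (2 * (N p).1 - (N p).1 ^ 2 - (N p).2 ^ 2) := by ring
          rw [e3]; linarith
        · intro hH
          have h1 := (hole_parabola hε0 hd hH).2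
          change (N p).2 ^ 2 ≤ 2 * ε * (N p).1 at h1
          rw [hNp] at h1
          simp only at h1
          rw [mul_pow, hsρ2] at h1
          have h2 : ρ * Y ^ 2 ≤ ρ * (2 * ε * T) := by linarith
          have h3 := le_of_mul_le_mul_left h2 hρ
          have h4 : 2 * ε * T ≤ 2 * (1 / 10 ^ 50) * (157 / 100) :=
            mul_le_mul (by linarith) hbox.2 (by linarith [hbox.1]) (by norm_num)
          have h5 : (2 : ℝ) * (1 / 10 ^ 50) * (157 / 100) < 81 / 10000 := by norm_num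
          linarith)
    (10 / ρ) (by positivity) (fun s hs => by
      have e1 : 10 / ρ * (ρ / 10 * (√ρ * g / 10) - ρ * t / 10 * 0) = √ρ * g / 10 := by
        field_simp; ring
      rw [e1]
      have : √ρ * g / 10 + s * 0 = √ρ * g / 10 := by ring
      rw [this]
      nlinarith [sq_nonneg (ρ * t / 10 + s * (ρ / 10))])
    (7 * √ρ) (by positivity) (fun p hp => by
      unfold dB
      rw [← ENNReal.ofReal_mul (by positivity), ← ENNReal.ofReal_one]
      apply ENNReal.ofReal_le_ofReal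
      apply dens_lower hρ hp.2
      have := hp.1.2
      nlinarith [sq_nonneg p.1, sq_nonneg p.2])
  refine hmain.trans ?_
  rw [hΔabs]
  have hconst : τ * 340 / (10 / ρ * eta0) / (ρ * √ρ / 100) * (7 * √ρ) = 23800 * τ / eta0 := by
    field_simp
    ring
  rw [hconst]
  apply mul_le_mul_right
  apply lintegral_mono_set
  intro p hp
  exact hp.1

end Pool.Agent.Lib.MP_4a0204_co
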