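import Mathlib
import Pool.Agent.Lib.MP_4a0204_co.Apply

set_option autoImplicit false

/-!
Application of the multi-scale argument when the planks are nearly parallel to the axis.
-/

namespace Pool.Agent.Lib.MP_4a0204_co

open MeasureTheory Set ENNReal

theorem flat_stt {ι : Type*} [Fintype ι] (F : ι → Strip) {ε d : ℝ} (hε0 : 0 < ε)
    (hεs : ε ≤ 1 / 10 ^ 50) (hd : ε < d) (hd1 : d ≤ 1)
    {e : ℝ × ℝ} (hNP : NP F 1 e) (he5 : 5 * |e.1| ≤ |e.2|) (z : ℝ × ℝ)
    (hz2 : |z.2| ≤ 1 / 100) (hzy : |z.1 / 10 + -(e.1 / e.2) * z.2 / 4| ≤ ε) :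
    Stt (fun i => (F i).pull 0 (1 / 4) (1 / 10) (-(e.1 / e.2) / 4) d 0) z.1 0 (1 / 100) := by
  have hεs' : ε ≤ 1 / 1000 := hεs.trans (by norm_num)
  have he := hNP.1
  have he2 : e.2 ≠ 0 := by
    intro h0
    rw [h0, abs_zero] at he5
    have : e.1 = 0 := abs_eq_zero.mp (le_antisymm (by linarith) (abs_nonneg _))
    rw [h0, this] at he
    norm_num at he
  have hϑ5 : |-(e.1 / e.2)| ≤ 1 / 5 := by
    rw [abs_neg, abs_div, div_le_iff₀ (abs_pos.mpr he2)]
    linarith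
  set ϑ := -(e.1 / e.2) with hϑ
  have hϑ' := abs_le.mp hϑ5
  have hz2' := abs_le.mp hz2
  have hzy' := abs_le.mp hzy
  unfold Stt
  have hsub : badset (fun i => (F i).pull 0 (1 / 4) (1 / 10) (ϑ / 4) d 0) z.1 0 (1 / 100)
      ⊆ amap 0 (1 / 40) (1 / 1000) (ϑ / 40) (d - 1 + 1 / 4) (z.1 / 10 + ϑ / 4) ⁻¹'
        npset F 1 e := by
    intro q hq
    obtain ⟨⟨hX, hY⟩, hbad⟩ := hq
    have hX' := abs_le.mp hX
    have hY' := abs_le.mp hY
    set Q := amap 0 (1 / 40) (1 / 1000) (ϑ / 40) (d - 1 + 1 / 4) (z.1 / 10 + ϑ / 4) q with hQ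
    have hQ1 : Q.1 = q.2 / 40 + (d - 3 / 4) := by
      simp only [hQ, amap]; ring
    have hQ2 : Q.2 = q.1 / 1000 + (z.1 / 10 + ϑ * z.2 / 4) + ϑ * ((1 + q.2 / 10 - z.2) / 4) := by
      simp only [hQ, amap]; ring
    have hpicQ : pic 1 Q = amap 0 (1 / 4) (1 / 10) (ϑ / 4) d 0 (wmap z.1 0 (1 / 100) q) := by
      rw [pic_apply, wmap_apply, Real.sqrt_one, hQ1, hQ2]
      simp only [amap]
      ext
      · simp only; ring
      · simp only; ring
    refine ⟨?_, ?_⟩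
    · have h1 : |Q.2| ≤ 6 / 100 := by
        have h2 : |ϑ * ((1 + q.2 / 10 - z.2) / 4)| ≤ 1 / 5 * (107 / 400) := by
          rw [abs_mul]
          apply mul_le_mul hϑ5 _ (abs_nonneg _) (by norm_num)
          rw [abs_le]; constructor <;> linarith
        have h3 := abs_le.mp h2
        rw [hQ2, abs_le]
        constructor <;> linarith [h3.1, h3.2]
      have h2 := abs_le.mp h1
      have h3 : -(77 / 100) ≤ Q.1 := by rw [hQ1]; linarith
      have h4 : Q.1 ≤ 3 / 10 := by rw [hQ1]; linarith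
      nlinarith [h2.1, h2.2]
    · intro i hi
      by_contra hcon
      push Not at hcon
      have hal := align_flat he he5 hcon
      rw [picS_a, picS_b, Real.sqrt_one, mul_one, mul_one] at hal
      refine hbad i ?_ ?_
      · rw [Strip.mem_pull, ← hpicQ]
        exact (mem_picS 1 (F i) Q).mp hi
      · unfold Aligned
        simp only [Strip.pull]
        have e1 : ((F i).a * 0 + (F i).b * (1 / 10)) * 0
            + ((F i).a * (1 / 4) + (F i).b * (ϑ / 4)) = ((F i).a + (F i).b * ϑ) / 4 := by ring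
        have e2 : (F i).a * 0 + (F i).b * (1 / 10) = (F i).b / 10 := by ring
        rw [e1, e2, abs_div, abs_div, abs_of_pos (by norm_num : (0:ℝ) < 10),
          abs_of_pos (by norm_num : (0:ℝ) < 4)]
        change |(F i).a + (F i).b * ϑ| ≤ lam / 25 * |(F i).b| at hal
        linarith
  refine (measure_mono hsub).trans ?_
  have hdet : (0 : ℝ) * (ϑ / 40) - 1 / 40 * (1 / 1000) ≠ 0 := by
    rw [zero_mul]; norm_num
  rw [volume_preimage_amap _ _ _ _ _ _ hdet]
  have hdet2 : |(0 : ℝ) * (ϑ / 40) - 1 / 40 * (1 / 1000)|⁻¹ = 40000 := by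
    rw [zero_mul, zero_sub, abs_neg]
    norm_num
  rw [hdet2]
  refine (mul_le_mul_right hNP.2 _).trans ?_
  rw [← ENNReal.ofReal_mul (by norm_num), ofReal_eighth]
  apply ENNReal.ofReal_le_ofReal
  unfold del1; norm_num

theorem apply_flat {ι : Type*} [Fintype ι] (F : ι → Strip)
    (hF : ∀ i, 0 < (F i).a ^ 2 + (F i).b ^ 2) {τ ε d : ℝ} (hτ : 0 < τ) (hε : ε = τ ^ 4 / 128)
    (hεs : ε ≤ 1 / 10 ^ 50) (hd : ε < d) (hd1 : d ≤ 1) (hcov : Covers F d ε)
    {e : ℝ × ℝ} (hNP : NP F 1 e) (he5 : 5 * |e.1| ≤ |e.2|)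
    (Z : Set (ℝ × ℝ)) (hZu : Z ⊆ unc F) (hZH : Z ⊆ Hole d ε) :
    ∫⁻ p in Z, dB p ≤ ENNReal.ofReal (5440 * τ / eta0) * ∫⁻ p, ov F p * dB p := by
  have hε0 : 0 < ε := by rw [hε]; positivity
  have hεs' : ε ≤ 1 / 1000 := hεs.trans (by norm_num)
  have heta := eta0_pos
  have he := hNP.1
  have he2 : e.2 ≠ 0 := by
    intro h0
    rw [h0, abs_zero] at he5
    have : e.1 = 0 := abs_eq_zero.mp (le_antisymm (by linarith) (abs_nonneg _))
    rw [h0, this] at he
    norm_num at he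
  have hϑ5 : |-(e.1 / e.2)| ≤ 1 / 5 := by
    rw [abs_neg, abs_div, div_le_iff₀ (abs_pos.mpr he2)]
    linarith
  set ϑ := -(e.1 / e.2) with hϑ
  have hϑ' := abs_le.mp hϑ5
  set N := amap 0 (1 / 4) (1 / 10) (ϑ / 4) d 0 with hN
  have hNapp : ∀ z : ℝ × ℝ, N z = (d + z.2 / 4, z.1 / 10 + ϑ * z.2 / 4) := by
    intro z
    simp only [hN, amap]
    ext
    · simp only; ring
    · simp only; ring
  have hanc : ∀ z : ℝ × ℝ, N z ∈ Z → |z.2| ≤ 1 / 100 ∧ |z.1 / 10 + ϑ * z.2 / 4| ≤ ε := by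
    intro z hz
    have h1 : ((N z).1 - d) ^ 2 + (N z).2 ^ 2 ≤ ε ^ 2 := hZH hz
    rw [hNapp] at h1
    simp only at h1
    have h2 : |d + z.2 / 4 - d| ≤ ε :=
      abs_le_of_sq_le_sq (by nlinarith [sq_nonneg (z.1 / 10 + ϑ * z.2 / 4)]) hε0.le
    have h3 := abs_le.mp h2
    refine ⟨by rw [abs_le]; constructor <;> linarith [h3.1, h3.2], ?_⟩
    exact abs_le_of_sq_le_sq (by nlinarith [sq_nonneg (d + z.2 / 4 - d)]) hε0.le
  set G : Set (ℝ × ℝ) := {p : ℝ × ℝ | 0 < 2 * p.1 - p.1 ^ 2 - p.2 ^ 2} with hG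
  have hGm : MeasurableSet G := measurableSet_lt measurable_const (by fun_prop)
  have hΔ : (0 : ℝ) * (ϑ / 4) - 1 / 4 * (1 / 10) ≠ 0 := by
    rw [zero_mul]; norm_num
  have hΔabs : |(0 : ℝ) * (ϑ / 4) - 1 / 4 * (1 / 10)| = 1 / 40 := by
    rw [zero_mul, zero_sub, abs_neg]; norm_num
  have hmain := frame F hF hτ hε hd hd1 0 (1 / 4) (1 / 10) (ϑ / 4) d 0 hΔ Z G hGm
    hZu hZH (fun z hz => (hanc z hz).1)
    (fun z hz => flat_stt F hε0 hεs hd hd1 hNP he5 z (hanc z hz).1 (hanc z hz).2)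
    (fun z hz p hp1 hp2 => by
      obtain ⟨hz2, hzy⟩ := hanc z hz
      have hz2' := abs_le.mp hz2
      have hzy' := abs_le.mp hzy
      have hp1' := abs_le.mp hp1
      have hp2' := abs_le.mp hp2
      have hNp : N p = (d + p.2 / 4, p.1 / 10 + ϑ * p.2 / 4) := hNapp p
      have h1 : |p.1 / 10 + ϑ * p.2 / 4| ≤ 6 / 100 := by
        have h2 : |ϑ * ((p.2 - z.2) / 4)| ≤ 1 / 5 * (111 / 400) := by
          rw [abs_mul]
          apply mul_le_mul hϑ5 _ (abs_nonneg _) (by norm_num)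
          rw [abs_le]; constructor <;> linarith
        have h3 := abs_le.mp h2
        have e3 : p.1 / 10 + ϑ * p.2 / 4 = (z.1 / 10 + ϑ * z.2 / 4) + (p.1 - z.1) / 10
            + ϑ * ((p.2 - z.2) / 4) := by ring
        rw [e3, abs_le]
        constructor <;> linarith [h3.1, h3.2]
      have h1' := abs_le.mp h1
      set y := p.1 / 10 + ϑ * p.2 / 4
      set x := d + p.2 / 4 with hx
      have hx1 : 22 / 100 ≤ x := by rw [hx]; linarith
      have hx2 : x ≤ 128 / 100 := by rw [hx]; linarith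
      have hin : 0 < 2 * x - x ^ 2 - y ^ 2 := by nlinarith
      refine ⟨?_, ?_⟩
      · change 0 < 2 * (N p).1 - (N p).1 ^ 2 - (N p).2 ^ 2
        rw [hNp]; exact hin
      · apply hcov
        · change ((N p).1 - 1) ^ 2 + (N p).2 ^ 2 ≤ 1
          rw [hNp]
          simp only
          have e3 : (x - 1) ^ 2 + y ^ 2 = 1 - (2 * x - x ^ 2 - y ^ 2) := by ring
          rw [e3]; linarith
        · intro hH
          have h2 : ((N p).1 - d) ^ 2 + (N p).2 ^ 2 ≤ ε ^ 2 := hH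
          rw [hNp] at h2
          simp only at h2
          have h3 : (p.2 / 4) ^ 2 ≤ ε ^ 2 := by
            have : x - d = p.2 / 4 := by rw [hx]; ring
            rw [this] at h2
            nlinarith [sq_nonneg y]
          have h4 := le_of_sq_le_sq h3 hε0.le
          linarith)
    10 (by norm_num) (fun s hs => by
      have hs' := abs_le.mp hs
      nlinarith [sq_nonneg (ϑ / 4 + s * (1 / 10))])
    4 (by norm_num) (fun p hp => by
      unfold dB
      rw [← ENNReal.ofReal_mul (by norm_num), ← ENNReal.ofReal_one]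
      apply ENNReal.ofReal_le_ofReal
      have hpos : 0 < 2 * p.1 - p.1 ^ 2 - p.2 ^ 2 := hp
      have h1 : √(2 * p.1 - p.1 ^ 2 - p.2 ^ 2) ≤ 1 := by
        rw [Real.sqrt_le_one]; nlinarith [sq_nonneg (p.1 - 1), sq_nonneg p.2]
      have h2 : 0 < √(2 * p.1 - p.1 ^ 2 - p.2 ^ 2) := Real.sqrt_pos.mpr hpos
      have hpi := Real.pi_le_four
      have hpi0 := Real.pi_pos
      rw [mul_one_div, le_div_iff₀ (by positivity), one_mul]
      nlinarith)
  refine hmain.trans ?_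
  rw [hΔabs]
  have hconst : τ * 340 / (10 * eta0) / (1 / 40) * 4 = 5440 * τ / eta0 := by
    field_simp
    ring
  rw [hconst]
  apply mul_le_mul_right
  exact setLIntegral_le_lintegral _ _

end Pool.Agent.Lib.MP_4a0204_co
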