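import Mathlib
import Pool.Agent.Lib.MP_4a0204_co.Flat

set_option autoImplicit false

/-!
The main argument: planks covering the disc except for a tiny hole have total width at least two.
-/

namespace Pool.Agent.Lib.MP_4a0204_co

open MeasureTheory Set ENNReal

theorem dB_eq (p : ℝ × ℝ) : dB p = dens 1 (amap 1 0 0 1 (-1) 0 p) := by
  unfold dB dens
  congr 4
  simp only [amap]
  ring

theorem dB_eq_zero {p : ℝ × ℝ} (h : 1 ≤ (p.1 - 1) ^ 2 + p.2 ^ 2) : dB p = 0 := by
  unfold dB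
  rw [Real.sqrt_eq_zero_of_nonpos (by linarith)]
  simp

theorem lintegral_dB : ∫⁻ p, dB p = ENNReal.ofReal 2 := by
  have h := lintegral_amap 1 0 0 1 (-1) 0 (by norm_num) _ (measurable_dens 1)
  simp only [← dB_eq] at h
  rw [h, lintegral_dens 1 one_pos]
  norm_num

theorem lintegral_strip_dB (S : Strip) (hS : S.a ^ 2 + S.b ^ 2 = 1) (hw : S.lo ≤ S.hi) :
    ∫⁻ p, S.set.indicator 1 p * dB p ≤ ENNReal.ofReal (S.hi - S.lo) := by
  set S' := S.pull 1 0 0 1 1 0 with hS'
  have hm : Measurable fun p => S'.set.indicator (1 : ℝ × ℝ → ℝ≥0∞) p * dens 1 p :=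
    (measurable_one.indicator (measurableSet_set S')).mul (measurable_dens 1)
  have h1 := lintegral_amap 1 0 0 1 (-1) 0 (by norm_num) _ hm
  have h2 : ∀ p, S'.set.indicator (1 : ℝ × ℝ → ℝ≥0∞) (amap 1 0 0 1 (-1) 0 p)
      * dens 1 (amap 1 0 0 1 (-1) 0 p) = S.set.indicator 1 p * dB p := by
    intro p
    rw [dB_eq]
    congr 1
    have e : amap 1 0 0 1 (-1) 0 p ∈ S'.set ↔ p ∈ S.set := by
      rw [hS', Strip.mem_pull]
      have : amap 1 0 0 1 1 0 (amap 1 0 0 1 (-1) 0 p) = p := by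
        simp only [amap]
        ext
        · simp only; ring
        · simp only; ring
      rw [this]
    by_cases hp : p ∈ S.set
    · rw [indicator_of_mem hp, indicator_of_mem (e.mpr hp)]; rfl
    · rw [indicator_of_notMem hp, indicator_of_notMem (fun h => hp (e.mp h))]
  rw [lintegral_congr h2] at h1
  rw [h1]
  have h3 : S'.a ^ 2 + S'.b ^ 2 = 1 := by
    rw [hS']; simp only [Strip.pull]
    linear_combination hS
  rw [lintegral_dens_strip 1 one_pos S' h3]
  have h4 : |(1:ℝ) * 1 - 0 * 0|⁻¹ = 1 := by norm_num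
  rw [h4, ENNReal.ofReal_one, one_mul]
  apply ENNReal.ofReal_le_ofReal
  unfold Strip.tw
  apply max_le (by linarith)
  have h5 : min S'.hi 1 ≤ S'.hi := min_le_left _ _
  have h6 : S'.lo ≤ max S'.lo (-1) := le_max_left _ _
  have h7 : S'.hi - S'.lo = S.hi - S.lo := by rw [hS']; simp only [Strip.pull]; ring
  linarith

/-- The overlap is smaller than the measure of the uncovered part. -/
theorem overlap_lt {ι : Type*} [Fintype ι] (F : ι → Strip)
    (hF : ∀ i, (F i).a ^ 2 + (F i).b ^ 2 = 1) (hw : ∀ i, (F i).lo ≤ (F i).hi)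
    (hW : ∑ i, ((F i).hi - (F i).lo) < 2) :
    ∫⁻ p, ov F p * dB p < ∫⁻ p in unc F, dB p := by
  have hmult : ∫⁻ p, mult F p * dB p ≤ ENNReal.ofReal (∑ i, ((F i).hi - (F i).lo)) := by
    unfold mult
    simp only [Finset.sum_mul]
    rw [lintegral_finsetSum]
    · rw [ENNReal.ofReal_sum_of_nonneg (fun i _ => by linarith [hw i])]
      exact Finset.sum_le_sum fun i _ => lintegral_strip_dB (F i) (hF i) (hw i)
    · intro i _
      exact (measurable_one.indicator (measurableSet_set _)).mul measurable_dB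
  have hid : (∫⁻ p, mult F p * dB p) + ∫⁻ p in unc F, dB p
      = ENNReal.ofReal 2 + ∫⁻ p, ov F p * dB p := by
    rw [← lintegral_dB, ← lintegral_add_left measurable_dB,
      ← lintegral_indicator (measurableSet_unc F)]
    have h0 : ∫⁻ p, mult F p * dB p + (unc F).indicator dB p
        = (∫⁻ p, mult F p * dB p) + ∫⁻ p, (unc F).indicator dB p :=
      lintegral_add_left ((measurable_mult F).mul measurable_dB) _
    rw [← h0]
    apply lintegral_congr
    intro p
    have h1 := mult_add F p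
    calc mult F p * dB p + (unc F).indicator dB p
        = mult F p * dB p + (unc F).indicator 1 p * dB p := by
          congr 1
          by_cases hp : p ∈ unc F
          · rw [indicator_of_mem hp, indicator_of_mem hp, Pi.one_apply, one_mul]
          · rw [indicator_of_notMem hp, indicator_of_notMem hp, zero_mul]
      _ = (mult F p + (unc F).indicator 1 p) * dB p := by rw [add_mul]
      _ = _ := by rw [h1, add_mul, one_mul]
  by_contra hcon
  push Not at hcon
  have hfin : ∫⁻ p, ov F p * dB p ≠ ∞ := by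
    refine ne_top_of_le_ne_top (b := ENNReal.ofReal (∑ i, ((F i).hi - (F i).lo)))
      ENNReal.ofReal_ne_top (le_trans ?_ hmult)
    apply lintegral_mono
    intro p
    exact mul_le_mul_left (tsub_le_self) _
  have h1 : ENNReal.ofReal 2 + ∫⁻ p, ov F p * dB p
      ≤ ENNReal.ofReal (∑ i, ((F i).hi - (F i).lo)) + ∫⁻ p, ov F p * dB p := by
    rw [← hid]
    exact add_le_add hmult hcon
  have h2 := (ENNReal.add_le_add_iff_right hfin).mp h1
  rw [ENNReal.ofReal_le_ofReal_iff'] at h2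
  rcases h2 with h | h <;> linarith

/-- The small parameter. -/
noncomputable def tau : ℝ := 1 / 10 ^ 25

/-- The radius of the hole. -/
noncomputable def eps : ℝ := tau ^ 4 / 128

theorem tau_pos : 0 < tau := by unfold tau; positivity

theorem eps_pos : 0 < eps := by unfold eps; have := tau_pos; positivity

theorem eps_small : eps ≤ 1 / 10 ^ 50 := by unfold eps tau; norm_num

theorem const_small : ENNReal.ofReal (23800 * tau / eta0) ≤ 1 / 2 := by
  have : (1 / 2 : ℝ≥0∞) = ENNReal.ofReal (1 / 2) := by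
    rw [ENNReal.ofReal_div_of_pos (by norm_num)]; simp
  rw [this]
  apply ENNReal.ofReal_le_ofReal
  unfold tau eta0
  norm_num

theorem const_small' : ENNReal.ofReal (5440 * tau / eta0) ≤ 1 / 2 := by
  have : (1 / 2 : ℝ≥0∞) = ENNReal.ofReal (1 / 2) := by
    rw [ENNReal.ofReal_div_of_pos (by norm_num)]; simp
  rw [this]
  apply ENNReal.ofReal_le_ofReal
  unfold tau eta0
  norm_num

/-- The overlap near the boundary point. -/
noncomputable def Fk {ι : Type*} [Fintype ι] (F : ι → Strip) (ρ : ℝ) : ℝ≥0∞ :=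
  ∫⁻ p in {p : ℝ × ℝ | p.1 ≤ 2 * ρ}, ov F p * dB p

/-- The measure of the uncovered set near the boundary point. -/
noncomputable def Vk {ι : Type*} (F : ι → Strip) (d : ℝ) (ρ : ℝ) : ℝ≥0∞ :=
  ∫⁻ p in unc F ∩ Hole d eps ∩ {p : ℝ × ℝ | p.1 ≤ ρ / 2}, dB p

theorem annulus_le {ι : Type*} [Fintype ι] (F : ι → Strip) {ρ : ℝ} (hρ : 0 < ρ) :
    (∫⁻ p in {p : ℝ × ℝ | ρ / 128 < p.1 ∧ p.1 ≤ 2 * ρ}, ov F p * dB p) + Fk F (ρ / 256)
      ≤ Fk F ρ := by
  unfold Fk
  have hm : MeasurableSet {p : ℝ × ℝ | p.1 ≤ 2 * (ρ / 256)} :=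
    measurableSet_le measurable_fst measurable_const
  rw [← lintegral_union hm]
  · apply lintegral_mono_set
    rintro p (hp | hp)
    · exact hp.2
    · have h1 : p.1 ≤ 2 * (ρ / 256) := hp
      change p.1 ≤ 2 * ρ
      linarith
  · rw [Set.disjoint_left]
    intro p hp hp'
    have h1 : p.1 ≤ 2 * (ρ / 256) := hp'
    have h2 := hp.1
    linarith

theorem Fk_mono {ι : Type*} [Fintype ι] (F : ι → Strip) {ρ ρ' : ℝ} (h : ρ ≤ ρ') :
    Fk F ρ ≤ Fk F ρ' := by
  unfold Fk
  apply lintegral_mono_set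
  intro p hp
  have h1 : p.1 ≤ 2 * ρ := hp
  change p.1 ≤ 2 * ρ'
  linarith

theorem annulus_le' {ι : Type*} [Fintype ι] (F : ι → Strip) {ρ : ℝ} :
    (∫⁻ p in {p : ℝ × ℝ | ρ / 128 < p.1 ∧ p.1 ≤ 2 * ρ}, ov F p * dB p) ≤ Fk F ρ := by
  unfold Fk
  apply lintegral_mono_set
  intro p hp
  exact hp.2

/-- The descent through the pictures. -/
theorem descend {ι : Type*} [Fintype ι] (F : ι → Strip)
    (hF : ∀ i, 0 < (F i).a ^ 2 + (F i).b ^ 2) {d : ℝ} (hd : eps < d) (hd1 : d ≤ 1)
    (hcov : Covers F d eps) (K : ℕ) (hK : (1 / 16 : ℝ) ^ K < d - eps) :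
    ∀ n k : ℕ, K ≤ k + n → ∀ e, NP F ((1 / 16 : ℝ) ^ k) e → |e.2| ≤ |e.1| →
      Vk F d ((1 / 16 : ℝ) ^ k / 16)
        ≤ 1 / 2 * (Fk F ((1 / 16 : ℝ) ^ k / 16) + Fk F ((1 / 16 : ℝ) ^ k / 256)) := by
  intro n
  induction n with
  | zero =>
    intro k hk e _ _
    have hempty : unc F ∩ Hole d eps ∩ {p : ℝ × ℝ | p.1 ≤ (1 / 16 : ℝ) ^ k / 16 / 2} = ∅ := by
      ext p
      simp only [mem_inter_iff, mem_empty_iff_false, iff_false]
      rintro ⟨⟨_, h1⟩, h2⟩
      have h2' : p.1 ≤ (1 / 16 : ℝ) ^ k / 16 / 2 := h2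
      have h3 : (p.1 - d) ^ 2 + p.2 ^ 2 ≤ eps ^ 2 := h1
      have h4 := abs_le.mp (abs_le_of_sq_le_sq (a := p.1 - d) (b := eps)
        (by nlinarith [sq_nonneg p.2]) eps_pos.le)
      have h5 : (1 / 16 : ℝ) ^ k ≤ (1 / 16 : ℝ) ^ K :=
        pow_le_pow_of_le_one (by norm_num) (by norm_num) (by omega)
      have h6 : (0 : ℝ) < (1 / 16 : ℝ) ^ k := by positivity
      linarith [h4.1]
    unfold Vk
    rw [hempty]
    simp
  | succ n ih =>
    intro k hk e hNP hst
    set ρ0 := (1 / 16 : ℝ) ^ k with hρ0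
    have hρ0pos : 0 < ρ0 := by positivity
    have hρ0le : ρ0 ≤ 1 := pow_le_one₀ (by norm_num) (by norm_num)
    set ρ := ρ0 / 16 with hρ
    have hρpos : 0 < ρ := by positivity
    have hρle : ρ ≤ 1 := by rw [hρ]; linarith
    have e256 : ρ0 / 256 = ρ / 16 := by rw [hρ]; ring
    rw [e256]
    by_cases hsmall : Fk F ρ ≤ ENNReal.ofReal (c0 * ρ)
    · obtain ⟨⟨e', he'⟩, hov⟩ := np_exists F hF eps_pos eps_small hd hcov hρpos hρle hsmall
      have hcons := consistent F hF hρ0pos hNP he' hov hst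
      by_cases hmid : |e'.1| ≤ |e'.2|
      · have h1 := apply_pic F hF tau_pos rfl eps_small hd hd1 hcov hρpos hρle he' hcons
          (unc F ∩ Hole d eps ∩ {p : ℝ × ℝ | p.1 ≤ ρ / 2})
          (fun p hp => hp.1.1) (fun p hp => hp.1.2)
          (fun p hp => by
            have : p.1 ≤ ρ / 2 := hp.2
            linarith) (fun p _ => Or.inr hmid)
        calc Vk F d ρ ≤ _ := h1
          _ ≤ 1 / 2 * Fk F ρ := mul_le_mul' const_small (annulus_le' F)
          _ ≤ _ := mul_le_mul_right le_self_add _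
      · push Not at hmid
        have h1 := apply_pic F hF tau_pos rfl eps_small hd hd1 hcov hρpos hρle he' hcons
          (unc F ∩ Hole d eps ∩ {p : ℝ × ℝ | ρ / 32 < p.1 ∧ p.1 ≤ ρ / 2})
          (fun p hp => hp.1.1) (fun p hp => hp.1.2)
          (fun p hp => by
            have : p.1 ≤ ρ / 2 := hp.2.2
            linarith) (fun p hp => Or.inl (le_of_lt hp.2.1))
        have hNP' : NP F ((1 / 16 : ℝ) ^ (k + 1)) e' := by
          have : (1 / 16 : ℝ) ^ (k + 1) = ρ := by rw [hρ, hρ0, pow_succ]; ring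
          rw [this]; exact he'
        have h2 := ih (k + 1) (by omega) e' hNP' hmid.le
        have e1 : (1 / 16 : ℝ) ^ (k + 1) / 16 = ρ / 16 := by rw [hρ, hρ0, pow_succ]; ring
        have e2 : (1 / 16 : ℝ) ^ (k + 1) / 256 = ρ / 256 := by rw [hρ, hρ0, pow_succ]; ring
        rw [e1, e2] at h2
        have h3 : Vk F d ρ ≤ (∫⁻ p in unc F ∩ Hole d eps ∩ {p : ℝ × ℝ | ρ / 32 < p.1 ∧ p.1 ≤ ρ / 2},
            dB p) + Vk F d (ρ / 16) := by
          unfold Vk
          refine le_trans (lintegral_mono_set ?_) (lintegral_union_le _ _ _)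
          intro p hp
          have hp2 : p.1 ≤ ρ / 2 := hp.2
          rcases lt_or_ge (ρ / 32) p.1 with h | h
          · left; exact ⟨hp.1, h, hp2⟩
          · right
            refine ⟨hp.1, ?_⟩
            change p.1 ≤ ρ / 16 / 2
            linarith
        have hann := annulus_le F hρpos
        calc Vk F d ρ ≤ _ := h3
          _ ≤ 1 / 2 * (∫⁻ p in {p : ℝ × ℝ | ρ / 128 < p.1 ∧ p.1 ≤ 2 * ρ}, ov F p * dB p)
              + 1 / 2 * (Fk F (ρ / 16) + Fk F (ρ / 256)) :=
              add_le_add (h1.trans (mul_le_mul_left const_small _)) h2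
          _ = 1 / 2 * (((∫⁻ p in {p : ℝ × ℝ | ρ / 128 < p.1 ∧ p.1 ≤ 2 * ρ}, ov F p * dB p)
              + Fk F (ρ / 256)) + Fk F (ρ / 16)) := by ring
          _ ≤ 1 / 2 * (Fk F ρ + Fk F (ρ / 16)) :=
              mul_le_mul_right (add_le_add hann le_rfl) _
    · push Not at hsmall
      have h1 := hole_strip_unit tau_pos rfl hd hd1 (ε := eps) ⟨1, 0, 0, ρ / 2⟩ (by norm_num)
      have h2 : Vk F d ρ ≤ ∫⁻ p in Hole d eps ∩ (Strip.mk 1 0 0 (ρ / 2)).set, dB p := by
        unfold Vk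
        apply lintegral_mono_set
        intro p hp
        refine ⟨hp.1.2, ?_⟩
        have h3 := (hole_parabola eps_pos hd hp.1.2).1
        have h4 : p.1 ≤ ρ / 2 := hp.2
        rw [Strip.mem_set]
        simp only [Strip.form]
        constructor <;> linarith
      have hhalf : (1 / 2 : ℝ≥0∞) = ENNReal.ofReal (1 / 2) := by
        rw [ENNReal.ofReal_div_of_pos (by norm_num)]; simp
      calc Vk F d ρ ≤ _ := h2.trans h1
        _ ≤ ENNReal.ofReal (1 / 2 * (c0 * ρ)) := by
            apply ENNReal.ofReal_le_ofReal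
            have : tau ≤ c0 := by unfold tau c0; norm_num
            nlinarith
        _ = 1 / 2 * ENNReal.ofReal (c0 * ρ) := by
            rw [hhalf, ENNReal.ofReal_mul (by norm_num)]
        _ ≤ 1 / 2 * (Fk F ρ + Fk F (ρ / 16)) :=
            mul_le_mul_right (hsmall.le.trans le_self_add) _

/-- The core theorem in the plane. -/
theorem core {ι : Type*} [Fintype ι] (F : ι → Strip)
    (hF : ∀ i, (F i).a ^ 2 + (F i).b ^ 2 = 1) (hw : ∀ i, (F i).lo ≤ (F i).hi) {d : ℝ}
    (hd : eps < d) (hd1 : d ≤ 1) (hcov : Covers F d eps) :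
    2 ≤ ∑ i, ((F i).hi - (F i).lo) := by
  by_contra hcon
  push Not at hcon
  have hlt := overlap_lt F hF hw hcon
  have hF' : ∀ i, 0 < (F i).a ^ 2 + (F i).b ^ 2 := fun i => by rw [hF i]; norm_num
  set U := unc F ∩ Hole d eps with hU
  have hV : ∫⁻ p in unc F, dB p ≤ ∫⁻ p in U, dB p := by
    rw [← lintegral_indicator (measurableSet_unc F),
      ← lintegral_indicator ((measurableSet_unc F).inter (measurableSet_Hole d eps))]
    apply lintegral_mono
    intro p
    beta_reduce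
    by_cases hp : p ∈ unc F
    · by_cases hp2 : (p.1 - 1) ^ 2 + p.2 ^ 2 ≤ 1
      · have hpH : p ∈ Hole d eps := by
          by_contra hh
          obtain ⟨i, hi⟩ := hcov p hp2 hh
          exact hp i hi
        rw [indicator_of_mem hp, indicator_of_mem (mem_inter hp hpH)]
      · push Not at hp2
        rw [indicator_of_mem hp, dB_eq_zero hp2.le]
        exact zero_le
    · rw [indicator_of_notMem hp]; exact zero_le
  have hVO := hlt.trans_le hV
  have hF1 : Fk F 1 ≤ ∫⁻ p, ov F p * dB p := setLIntegral_le_lintegral _ _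
  -- the contradiction will come from `V ≤ O`
  suffices hsuff : ∫⁻ p in U, dB p ≤ ∫⁻ p, ov F p * dB p from absurd hVO (not_lt.mpr hsuff)
  have hhalf : (1 / 2 : ℝ≥0∞) ≤ 1 := by
    rw [one_div]; exact ENNReal.inv_le_one.mpr (by norm_num)
  have hsmall : ∫⁻ p in {p : ℝ × ℝ | p.1 ≤ 2 * 1}, ov F p * dB p ≤ ENNReal.ofReal (c0 * 1) := by
    refine (hF1.trans hVO.le).trans ?_
    have h1 := hole_strip_unit tau_pos rfl hd hd1 (ε := eps) ⟨0, 1, -eps, eps⟩ (by norm_num)
    have h2 : ∫⁻ p in U, dB p ≤ ∫⁻ p in Hole d eps ∩ (Strip.mk 0 1 (-eps) eps).set, dB p := by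
      apply lintegral_mono_set
      intro p hp
      refine ⟨hp.2, ?_⟩
      have h3 : (p.1 - d) ^ 2 + p.2 ^ 2 ≤ eps ^ 2 := hp.2
      have h4 := abs_le.mp (abs_le_of_sq_le_sq (a := p.2) (b := eps)
        (by nlinarith [sq_nonneg (p.1 - d)]) eps_pos.le)
      rw [Strip.mem_set]
      simp only [Strip.form]
      constructor <;> linarith [h4.1, h4.2]
    refine (h2.trans h1).trans (ENNReal.ofReal_le_ofReal ?_)
    simp only
    have h5 := eps_small
    have h6 := eps_pos
    have : tau * (eps - -eps) ≤ 1 / 10 ^ 25 * (2 / 10 ^ 50) := by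
      unfold tau
      apply mul_le_mul_of_nonneg_left _ (by positivity)
      linarith
    refine this.trans ?_
    unfold c0; norm_num
  obtain ⟨⟨e, he⟩, _⟩ := np_exists F hF' eps_pos eps_small hd hcov one_pos le_rfl hsmall
  have hUt : ∀ p ∈ U, p.1 ≤ 101 / 100 * 1 := by
    intro p hp
    have h3 : (p.1 - d) ^ 2 + p.2 ^ 2 ≤ eps ^ 2 := hp.2
    have h4 := abs_le.mp (abs_le_of_sq_le_sq (a := p.1 - d) (b := eps)
      (by nlinarith [sq_nonneg p.2]) eps_pos.le)
    have h5 := eps_small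
    have h6 : (1 : ℝ) / 10 ^ 50 ≤ 1 / 100 := by norm_num
    linarith [h4.2]
  by_cases h5 : |e.2| ≤ 5 * |e.1|
  · by_cases hmid : |e.1| ≤ |e.2|
    · have h1 := apply_pic F hF' tau_pos rfl eps_small hd hd1 hcov one_pos le_rfl he h5 U
        (fun p hp => hp.1) (fun p hp => hp.2) hUt (fun p _ => Or.inr hmid)
      calc ∫⁻ p in U, dB p ≤ _ := h1
        _ ≤ 1 * Fk F 1 := mul_le_mul' (const_small.trans hhalf) (annulus_le' F)
        _ ≤ _ := by rw [one_mul]; exact hF1
    · push Not at hmid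
      obtain ⟨K, hK⟩ := exists_pow_lt_of_lt_one (show 0 < d - eps by linarith)
        (by norm_num : (1 / 16 : ℝ) < 1)
      have h1 := apply_pic F hF' tau_pos rfl eps_small hd hd1 hcov one_pos le_rfl he h5
        (U ∩ {p : ℝ × ℝ | 1 / 32 < p.1})
        (fun p hp => hp.1.1) (fun p hp => hp.1.2) (fun p hp => hUt p hp.1)
        (fun p hp => Or.inl (le_of_lt hp.2))
      have h2 := descend F hF' hd hd1 hcov K hK K 0 (by omega) e (by simpa using he) hmid.le
      rw [pow_zero] at h2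
      have h3 : ∫⁻ p in U, dB p ≤ (∫⁻ p in U ∩ {p : ℝ × ℝ | 1 / 32 < p.1}, dB p)
          + Vk F d (1 / 16) := by
        unfold Vk
        refine le_trans (lintegral_mono_set ?_) (lintegral_union_le _ _ _)
        intro p hp
        rcases lt_or_ge (1 / 32) p.1 with h | h
        · left; exact ⟨hp, h⟩
        · right
          refine ⟨hp, ?_⟩
          change p.1 ≤ 1 / 16 / 2
          linarith
      have hann := annulus_le F (ρ := 1) one_pos
      have hmono : Fk F (1 / 16) ≤ Fk F 1 := Fk_mono F (by norm_num)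
      calc ∫⁻ p in U, dB p ≤ _ := h3
        _ ≤ 1 / 2 * (∫⁻ p in {p : ℝ × ℝ | (1 : ℝ) / 128 < p.1 ∧ p.1 ≤ 2 * 1}, ov F p * dB p)
            + 1 / 2 * (Fk F (1 / 16) + Fk F (1 / 256)) :=
            add_le_add (h1.trans (mul_le_mul_left const_small _)) h2
        _ = 1 / 2 * (((∫⁻ p in {p : ℝ × ℝ | (1 : ℝ) / 128 < p.1 ∧ p.1 ≤ 2 * 1}, ov F p * dB p)
            + Fk F (1 / 256)) + Fk F (1 / 16)) := by ring
        _ ≤ 1 / 2 * (Fk F 1 + Fk F 1) := mul_le_mul_right (add_le_add hann hmono) _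
        _ = Fk F 1 := by
            rw [← two_mul, ← mul_assoc, one_div, ENNReal.inv_mul_cancel (by norm_num)
              (by norm_num), one_mul]
        _ ≤ _ := hF1
  · push Not at h5
    have h1 := apply_flat F hF' tau_pos rfl eps_small hd hd1 hcov he h5.le U
      (fun p hp => hp.1) (fun p hp => hp.2)
    calc ∫⁻ p in U, dB p ≤ _ := h1
      _ ≤ 1 * ∫⁻ p, ov F p * dB p := mul_le_mul_left (const_small'.trans hhalf) _
      _ = _ := one_mul _

end Pool.Agent.Lib.MP_4a0204_co
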